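import Pool.Agent.H93.W.CompW

set_option autoImplicit false

/-!
# Weights of natural columns, frozen columns and frozen lines
-/

namespace Pool.Agent.H93.W

open Pool.Agent.H64.Q1 hiding Tl
open Pool.Agent.H64.R45 (sin_ne sin_u sin_third wa2 wa3 wa4 wa5)
open Pool.Agent.H64.Win (wa4' wa6)
open Pool.Agent.H11.W (YB Fz yb_wa)

variable {u : ℂ}

theorem sin_u0 (hu : Complex.sin (2 * u) ≠ 0) : Complex.sin u ≠ 0 := by
  have := sin_u hu 0
  simpa using this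

theorem sin_up (hu : Complex.sin (2 * u) ≠ 0) : Complex.sin (u + Real.pi / 2) ≠ 0 := by
  have := sin_u hu 1
  convert this using 2
  push_cast
  ring

/-- **a natural column** -/
theorem Cw.nat (hu : Complex.sin (2 * u) ≠ 0) : Cw (wa (u + Real.pi / 2)) (wa u) (1 / 2) := by
  refine ⟨wa_ne (sin_u0 hu), wa_ne_one (sin_u0 hu), ?_⟩
  have h5 := wa5 u
  have h4 := wa4 u
  rw [← h5, ← h4, inv_inv, inv_inv]
  have e : ang (-u - Real.pi / 2) 4 - ang (-u - Real.pi / 2) 5 + (Real.pi : ℂ) = Real.pi / 2 := by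
    unfold ang; push_cast; ring
  have hh := half_wt 0
  have e0 : ang 0 0 - ang 0 1 + (Real.pi : ℂ) = Real.pi / 2 := by
    unfold ang; push_cast; ring
  rw [e0] at hh
  have h := yb_wa (sin_ne hu 5) (sin_ne hu 4) (by rw [e]; exact hh.2)
  rw [e, hh.1] at h
  exact h

theorem fz_ne {ζ : ℂ} (h : Fz ζ) : ζ ≠ 0 ∧ 1 - ζ ≠ 0 := by
  unfold Fz at h
  constructor
  · rintro rfl
    simp at h
  · intro h0
    rw [h0] at h
    simp at h

theorem fz_inv {ζ : ℂ} (h : Fz ζ) : (1 - ζ)⁻¹ = ζ := by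
  have h2 := (fz_ne h).2
  unfold Fz at h
  field_simp
  linear_combination -h

/-- **a frozen column** -/
theorem Cw.frz {ζ : ℂ} (h : Fz ζ) (B : ℂ) : Cw B (1 - ζ) (1 - ζ) := by
  refine ⟨(fz_ne h).2, fun e => (fz_ne h).1 ?_, ?_⟩
  · linear_combination -e
  · rw [fz_inv h]
    exact h.yb2 _

/-- **a frozen line**, frozen tiles of the line, any tile -/
theorem Cw.line {ζ : ℂ} (h : Fz ζ) (p : ℂ) : Cw (1 - ζ) (1 - ζ) p := by
  refine ⟨(fz_ne h).2, fun e => (fz_ne h).1 ?_, ?_⟩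
  · linear_combination -e
  · rw [fz_inv h]
    exact h.yb _

/-- **a frozen line**, any weight `A` of the column, frozen tiles -/
theorem Cw.line' {ζ : ℂ} (h : Fz ζ) {A : ℂ} (h0 : A ≠ 0) (h1 : A ≠ 1) : Cw (1 - ζ) A ζ := by
  refine ⟨h0, h1, ?_⟩
  rw [fz_inv h]
  exact h.yb1 _

/-- **Natural and frozen columns.** -/
theorem CwS.nat_frz {a b : ℤ} {A p : ℤ → ℂ} (hu : Complex.sin (2 * u) ≠ 0)
    (h : ∀ x, a ≤ x → x < b → (A x = wa u ∧ p x = 1 / 2) ∨ ∃ ζ, Fz ζ ∧ A x = 1 - ζ ∧ p x = 1 - ζ) :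
    CwS a b A p (wa (u + Real.pi / 2)) (wa (u - Real.pi / 2)) where
  B0 := wa_ne (sin_up hu)
  B1 := wa_ne_one (sin_up hu)
  BC := by
    rw [← wa4' hu, ← wa4 u]
    exact inv_mul_cancel₀ (wa_ne (sin_ne hu 4))
  col := by
    intro x h1 h2
    rcases h x h1 h2 with ⟨e1, e2⟩ | ⟨ζ, hζ, e1, e2⟩
    · rw [e1, e2]; exact Cw.nat hu
    · rw [e1, e2]; exact Cw.frz hζ _

/-- **A frozen line**, arbitrary tiles. -/
theorem CwS.frz_line {a b : ℤ} {A p : ℤ → ℂ} {ζ : ℂ} (hζ : Fz ζ)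
    (h : ∀ x, a ≤ x → x < b → A x = 1 - ζ ∨ (A x ≠ 0 ∧ A x ≠ 1 ∧ p x = ζ)) :
    CwS a b A p (1 - ζ) (1 - ζ) where
  B0 := (fz_ne hζ).2
  B1 := fun e => (fz_ne hζ).1 (by linear_combination -e)
  BC := by
    unfold Fz at hζ
    linear_combination hζ
  col := by
    intro x h1 h2
    rcases h x h1 h2 with e1 | ⟨e1, e2, e3⟩
    · rw [e1]; exact Cw.line hζ _
    · rw [e3]; exact Cw.line' hζ e1 e2

end Pool.Agent.H93.W
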