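import Pool.Agent.H93.W.PatW

set_option autoImplicit false

/-!
# The pattern of a zone, strip comparison

`strip_pat` : two states which differ in a strip inside the zone `Z`: every function of the pattern of `Z` has
the same weighted sum.
-/

namespace Pool.Agent.H93.W

open Pool.Agent.H64.Q1 hiding Tl
open Pool.Agent.H64.Win
open Pool.Agent.H81.G1 Pool.Agent.Q1 Pool.Agent.H33.Q1
open Pool.Agent.H75.Perc Pool.Agent.H75.TwoArm
open Pool.Agent.H74.R45 hiding Tl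
open Pool.Agent.H46.Sp (TP lbP tyP crP)
open Pool.Agent.H46.Sp.Win (wal)
open Pool.Agent.H11.W (YB Fz)
open Finset

variable {w : ℕ} {a b j : ℤ} {lS rN : Bool}
variable {X1 X2 : Env} {W1 W2 P1 P2 Z : Finset (ℤ × ℤ)} {lR cL rR cR : Bool}
variable {B C AL AR : ℂ} {A p : ℤ → ℂ} {q1 q2 α1 α2 : ℤ × ℤ → ℂ}

/-- the tiles outside the zone -/
abbrev OrZ (Z : Finset (ℤ × ℤ)) {P1 P2 : Finset (ℤ × ℤ)} {a b j : ℤ} (o : OT P1 P2 a b j) : Prop :=
  lt o.1 ∉ Z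

theorem ot_1 (T : TabP P1 P2 a b j lS lR rN rR) (hw : b = a + w)
    (hK : ∀ x y, a - 1 ≤ x → x ≤ b → (y = j ∨ y = j - 1) → lt (x, y) ∈ Z) :
    OT' Z (Mf P1 (mp1 a b j lS lR rN rR)) (J1 T hw) (OrZ Z) (fun o : OT P1 P2 a b j => o.1) where
  o1 o ho := by
    refine ⟨ho, (mem_PO.1 o.2).1.1, ?_⟩
    unfold J1
    rw [mkJ_apply]
    unfold mkf
    rw [dif_neg (by simp [v1])]
    rfl
  o2 i hi := by
    have h1 : i.1 ∈ PO P1 P2 a b j := by
      have hn : ∀ x y, a - 1 ≤ x → x ≤ b → (y = j ∨ y = j - 1) → i.1 ≠ (x, y) := by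
        intro x y h1 h2 h3 h4
        rw [h4] at hi
        exact hi (hK x y h1 h2 h3)
      have hab := T.ab
      refine mem_PO.2 ⟨⟨i.2, (T.out i.1 ?_ ?_ ?_ ?_).1 i.2⟩, ?_⟩
      · exact hn _ _ (by omega) (by omega) (Or.inl rfl)
      · exact hn _ _ (by omega) (by omega) (Or.inr rfl)
      · exact hn _ _ (by omega) (by omega) (Or.inl rfl)
      · exact hn _ _ (by omega) (by omega) (Or.inr rfl)
      · rintro ⟨h1, h2, h3⟩
        exact hn i.1.1 i.1.2 (by omega) (by omega) h3 rfl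
    refine ⟨⟨i.1, h1⟩, hi, ?_⟩
    unfold J1
    rw [mkJ_apply]
    unfold mkf
    rw [dif_neg (by simp [v1])]
    rfl
  mZ m hm := by
    have hab := T.ab
    rcases mp1_true (mem_Mf.1 hm) with ⟨-, -, h⟩ | ⟨-, -, h⟩
    · rw [h]; exact hK _ _ (by omega) (by omega) (Or.inl rfl)
    · rw [h]; exact hK _ _ (by omega) (by omega) (Or.inl rfl)

theorem ot_2 (T : TabP P1 P2 a b j lS lR rN rR) (hw : b = a + w)
    (hK : ∀ x y, a - 1 ≤ x → x ≤ b → (y = j ∨ y = j - 1) → lt (x, y) ∈ Z) :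
    OT' Z (Mf P2 (mp2 a b j lS lR rN rR)) (J2 T hw) (OrZ Z) (fun o : OT P1 P2 a b j => o.1) where
  o1 o ho := by
    refine ⟨ho, (mem_PO.1 o.2).1.2, ?_⟩
    unfold J2
    rw [mkJ_apply]
    unfold mkf
    rw [dif_neg (by simp [v2])]
    rfl
  o2 i hi := by
    have h1 : i.1 ∈ PO P1 P2 a b j := by
      have hn : ∀ x y, a - 1 ≤ x → x ≤ b → (y = j ∨ y = j - 1) → i.1 ≠ (x, y) := by
        intro x y h1 h2 h3 h4
        rw [h4] at hi
        exact hi (hK x y h1 h2 h3)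
      have hab := T.ab
      refine mem_PO.2 ⟨⟨(T.out i.1 ?_ ?_ ?_ ?_).2 i.2, i.2⟩, ?_⟩
      · exact hn _ _ (by omega) (by omega) (Or.inl rfl)
      · exact hn _ _ (by omega) (by omega) (Or.inr rfl)
      · exact hn _ _ (by omega) (by omega) (Or.inl rfl)
      · exact hn _ _ (by omega) (by omega) (Or.inr rfl)
      · rintro ⟨h1, h2, h3⟩
        exact hn i.1.1 i.1.2 (by omega) (by omega) h3 rfl
    refine ⟨⟨i.1, h1⟩, hi, ?_⟩
    unfold J2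
    rw [mkJ_apply]
    unfold mkf
    rw [dif_neg (by simp [v2])]
    rfl
  mZ m hm := by
    have hab := T.ab
    rcases mp2_true (mem_Mf.1 hm) with ⟨-, -, h⟩ | ⟨-, -, h⟩
    · rw [h]; exact hK _ _ (by omega) (by omega) (Or.inr rfl)
    · rw [h]; exact hK _ _ (by omega) (by omega) (Or.inr rfl)

/-- **The comparison for environments with a random ring.** -/
theorem cfg_pat (H : Cfg X1 X2 W1 W2 P1 P2 a b j w lS lR cL rN rR cR) (HC : CwS a b A p B C)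
    (HW : WtW P1 P2 a b j lS lR rN rR A p B C AL AR α1 α2) (h1 : HasW P1 q1 α1) (h2 : HasW P2 q2 α2)
    (d1 : Disjoint X1.E W1) (d2 : Disjoint X2.E W2) (z1 : ZRd Z X1.E) (z2 : ZRd Z X2.E)
    (hK : ∀ x y, a - 1 ≤ x → x ≤ b → (y = j ∨ y = j - 1) → lt (x, y) ∈ Z)
    (Ψ : (ℤ × ℤ → ℤ × ℤ → Prop) → ℂ) :
    Ec q1 X1.E (fun ω => Ψ (EPat Z (ω ∪ W1))) = Ec q2 X2.E (fun ω => Ψ (EPat Z (ω ∪ W2))) := by
  have : Fintype (RQ w 1) := Fintype.ofInjective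
    (fun z : RQ w 1 => J1 (rN := rN) H.tab H.hw (.inl z)) (fun x y h => by simpa using h)
  have D := epair0 H HC HW h1 h2
  have inv1 := sπ_sπ (M := Mf P1 (mp1 a b j lS lR rN rR)) (s := μf P1 (μ1 a)) (wπ_wπ H.T1)
  have inv2 := sπ_sπ (M := Mf P2 (mp2 a b j lS lR rN rR)) (s := μf P2 (μ2 a)) (wπ_wπ H.T2)
  have ne1 := sπ_ne (M := Mf P1 (mp1 a b j lS lR rN rR)) (s := μf P1 (μ1 a)) (wπ_ne H.T1)
  have ne2 := sπ_ne (M := Mf P2 (mp2 a b j lS lR rN rR)) (s := μf P2 (μ2 a)) (wπ_ne H.T2)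
  rw [Ec_tiles H.T1, Ec_tiles H.T2, ← sum_mer D.sw1, ← sum_mer D.sw2]
  have e1 := fun σ => pat_eq H.I1 d1 H.T1 z1 (ot_1 H.tab H.hw hK) (μf P1 (μ1 a)) inv1 ne1 σ
  have e2 := fun σ => pat_eq H.I2 d2 H.T2 z2 (ot_2 H.tab H.hw hK) (μf P2 (μ2 a)) inv2 ne2 σ
  simp only [e1, e2]
  have x1 := (RXW H HC).E1 H.n1 (n2 := m2 w lS rN) (J1 H.tab H.hw) (fun i => Pool.Agent.H64.Win.d1 w lS i) .u
  have x2 := (RXW H HC).E2 H.n2 (n1 := m1 w lS rN) (J2 H.tab H.hw) (fun i => Pool.Agent.H64.Win.d2 w rN i) .u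
  exact cN_exchange (RXW H HC) H.n1 H.n2 (OrZ Z) (J1 H.tab H.hw) (J2 H.tab H.hw) _ _ (D.L1 x1 x1)
    (D.L2 x2 x2) ne1 ne2 D.pair D.sw1.ab' D.sw2.ab' D.wR1 D.wR2 (fun o _ => D.wO o) D.wL1 D.wL2
    (fun r => Ψ (NPat Z (OrZ Z) (fun o : OT P1 P2 a b j => o.1) r))

/-! ### Any zone -/

section congr

variable {σ1 σ2 τ1 τ2 : State} {ch : Bool} {U V Aa Bb U2 V2 : ℤ × ℤ} {n i : Dir}

theorem ZS_congr (S : ZS ch σ1 σ2 U V Aa Bb U2 V2 n i) (hU : τ1 U = σ1 U ∧ τ2 U = σ2 U)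
    (hV : τ1 V = σ1 V ∧ τ2 V = σ2 V) (hA : τ1 Aa = σ1 Aa ∧ τ2 Aa = σ2 Aa)
    (hB : τ1 Bb = σ1 Bb ∧ τ2 Bb = σ2 Bb)
    (hc : ch = true → (τ1 U2 = σ1 U2 ∧ τ2 U2 = σ2 U2) ∧ τ1 V2 = σ1 V2 ∧ τ2 V2 = σ2 V2) :
    ZS ch τ1 τ2 U V Aa Bb U2 V2 n i where
  hn := S.hn
  hi := S.hi
  eV := S.eV
  eA := S.eA
  eB := S.eB
  eU := S.eU
  eV2 := S.eV2
  rU := by rw [hU.1]; exact S.rU
  sU := by rw [hU.2]; exact S.sU
  sV := by rw [hV.1]; exact S.sV
  rA := by rw [hA.1, hA.2]; exact S.rA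
  rB := by rw [hB.1, hB.2]; exact S.rB
  nc := by rw [hV.2]; exact S.nc
  yc := fun h => by
    obtain ⟨⟨h1, h2⟩, h3, h4⟩ := hc h
    rw [hV.2, h1, h2, h3, h4]
    exact S.yc h

theorem ZR_congr (S : Pool.Agent.H64.Win.ZR σ1 σ2 U V Aa Bb n i) (hU : τ1 U = σ1 U ∧ τ2 U = σ2 U)
    (hV : τ1 V = σ1 V ∧ τ2 V = σ2 V) (hA : τ1 Aa = σ1 Aa ∧ τ2 Aa = σ2 Aa)
    (hB : τ1 Bb = σ1 Bb ∧ τ2 Bb = σ2 Bb) : Pool.Agent.H64.Win.ZR τ1 τ2 U V Aa Bb n i where
  hn := S.hn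
  hi := S.hi
  eV := S.eV
  eA := S.eA
  eB := S.eB
  rU := by rw [hU.1, hU.2]; exact S.rU
  sV := by rw [hV.1, hV.2]; exact S.sV
  rA := by rw [hA.1, hA.2]; exact S.rA
  rB := by rw [hB.1, hB.2]; exact S.rB

theorem Strip_congr (S : Strip σ1 σ2 a b j lS lR cL rN rR cR)
    (h : ∀ q, Kb a b j cL cR q → τ1 q = σ1 q ∧ τ2 q = σ2 q)
    (ho : ∀ q, ¬ Kb a b j cL cR q → τ1 q = τ2 q) : Strip τ1 τ2 a b j lS lR cL rN rR cR := by
  have hab := S.ab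
  have hL := bi_le cL
  have hR := bi_le cR
  have k : ∀ x y, a - 1 ≤ x → x ≤ b → (y = j ∨ y = j - 1) → Kb a b j cL cR (x, y) :=
    fun x y h1 h2 h3 => ⟨by simp only; omega, by simp only; omega, h3⟩
  have kL : cL = true → ∀ y, (y = j ∨ y = j - 1) → Kb a b j cL cR (a - 2, y) := by
    rintro rfl y h3
    exact ⟨by simp only [bi_true]; omega, by simp only; omega, h3⟩
  have kR : cR = true → ∀ y, (y = j ∨ y = j - 1) → Kb a b j cL cR (b + 1, y) := by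
    rintro rfl y h3
    exact ⟨by simp only; omega, by simp only [bi_true]; omega, h3⟩
  have K : ∀ x y, a - 1 ≤ x → x ≤ b → (y = j ∨ y = j - 1) → τ1 (x, y) = σ1 (x, y) ∧
      τ2 (x, y) = σ2 (x, y) := fun x y h1 h2 h3 => h _ (k x y h1 h2 h3)
  refine ⟨hab, ?_, ?_, ?_, ?_, ?_, ?_, S.lc, ?_, ?_, ?_, ?_, S.rc⟩
  · intro x h1 h2
    rw [(K x j (by omega) (by omega) (Or.inl rfl)).1, (K x j (by omega) (by omega) (Or.inl rfl)).2,
      (K x (j - 1) (by omega) (by omega) (Or.inr rfl)).1,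
      (K x (j - 1) (by omega) (by omega) (Or.inr rfl)).2]
    exact S.row x h1 h2
  · intro q h1 h2 h3 h4
    by_cases hq : Kb a b j cL cR q
    · rw [(h q hq).1, (h q hq).2]
      exact S.out q h1 h2 h3 h4
    · exact ho q hq
  · intro h1 h2
    exact ZS_congr (S.l1 h1 h2) (K _ _ (by omega) (by omega) (Or.inl rfl))
      (K _ _ (by omega) (by omega) (Or.inr rfl)) (K _ _ (by omega) (by omega) (Or.inl rfl))
      (K _ _ (by omega) (by omega) (Or.inr rfl)) (fun hc => ⟨h _ (kL hc _ (Or.inl rfl)),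
        h _ (kL hc _ (Or.inr rfl))⟩)
  · intro h1 h2
    exact ZS_congr (S.l2 h1 h2) (K _ _ (by omega) (by omega) (Or.inr rfl)).symm
      (K _ _ (by omega) (by omega) (Or.inl rfl)).symm
      (K _ _ (by omega) (by omega) (Or.inr rfl)).symm
      (K _ _ (by omega) (by omega) (Or.inl rfl)).symm (fun hc => ⟨(h _ (kL hc _ (Or.inr rfl))).symm,
        (h _ (kL hc _ (Or.inl rfl))).symm⟩)
  · intro h1 h2
    exact ZR_congr (S.l3 h1 h2) (K _ _ (by omega) (by omega) (Or.inl rfl))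
      (K _ _ (by omega) (by omega) (Or.inr rfl)) (K _ _ (by omega) (by omega) (Or.inl rfl))
      (K _ _ (by omega) (by omega) (Or.inr rfl))
  · intro h1 h2
    exact ZR_congr (S.l4 h1 h2) (K _ _ (by omega) (by omega) (Or.inr rfl)).symm
      (K _ _ (by omega) (by omega) (Or.inl rfl)).symm
      (K _ _ (by omega) (by omega) (Or.inr rfl)).symm
      (K _ _ (by omega) (by omega) (Or.inl rfl)).symm
  · intro h1 h2
    exact ZS_congr (S.r1 h1 h2) (K _ _ (by omega) (by omega) (Or.inl rfl))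
      (K _ _ (by omega) (by omega) (Or.inr rfl)) (K _ _ (by omega) (by omega) (Or.inl rfl))
      (K _ _ (by omega) (by omega) (Or.inr rfl)) (fun hc => ⟨h _ (kR hc _ (Or.inl rfl)),
        h _ (kR hc _ (Or.inr rfl))⟩)
  · intro h1 h2
    exact ZS_congr (S.r2 h1 h2) (K _ _ (by omega) (by omega) (Or.inr rfl)).symm
      (K _ _ (by omega) (by omega) (Or.inl rfl)).symm
      (K _ _ (by omega) (by omega) (Or.inr rfl)).symm
      (K _ _ (by omega) (by omega) (Or.inl rfl)).symm (fun hc => ⟨(h _ (kR hc _ (Or.inr rfl))).symm,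
        (h _ (kR hc _ (Or.inl rfl))).symm⟩)
  · intro h1 h2
    exact ZR_congr (S.r3 h1 h2) (K _ _ (by omega) (by omega) (Or.inl rfl))
      (K _ _ (by omega) (by omega) (Or.inr rfl)) (K _ _ (by omega) (by omega) (Or.inl rfl))
      (K _ _ (by omega) (by omega) (Or.inr rfl))
  · intro h1 h2
    exact ZR_congr (S.r4 h1 h2) (K _ _ (by omega) (by omega) (Or.inr rfl)).symm
      (K _ _ (by omega) (by omega) (Or.inl rfl)).symm
      (K _ _ (by omega) (by omega) (Or.inr rfl)).symm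
      (K _ _ (by omega) (by omega) (Or.inl rfl)).symm

end congr

section ring

/-- random labels in the zone and around it -/
noncomputable def Er (Z E : Finset (ℤ × ℤ)) : Finset (ℤ × ℤ) := (E ∩ Z) ∪ Rg Z

theorem mem_Er {Z E : Finset (ℤ × ℤ)} {e : ℤ × ℤ} (h : e ∈ Z) : e ∈ Er Z E ↔ e ∈ E := by
  unfold Er
  rw [mem_union, mem_inter]
  constructor
  · rintro (h1 | h1)
    · exact h1.1
    · exact absurd h (mem_Rg.1 h1).2.1
  · intro h1
    exact Or.inl ⟨h1, h⟩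

theorem mem_Er' {Z E : Finset (ℤ × ℤ)} {e : ℤ × ℤ} (h : e ∉ Z) : e ∈ Er Z E ↔ e ∈ Rg Z := by
  unfold Er
  rw [mem_union, mem_inter]
  constructor
  · rintro (h1 | h1)
    · exact absurd h1.2 h
    · exact h1
  · intro h1
    exact Or.inr h1

/-- positions of the random tiles -/
noncomputable def Pz (Z E : Finset (ℤ × ℤ)) : Finset (ℤ × ℤ) :=
  (Er Z E).preimage lt (Function.Injective.injOn fun _ _ h => lt_inj h)

theorem mem_Pz {Z E : Finset (ℤ × ℤ)} {q : ℤ × ℤ} : q ∈ Pz Z E ↔ lt q ∈ Er Z E := by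
  unfold Pz
  rw [mem_preimage]

theorem exists_lt' {e : ℤ × ℤ} (h : (e.1 + e.2) % 2 = 1) : ∃ q, lt q = e := by
  obtain ⟨x, y⟩ := e
  simp only at h
  refine ⟨((x + y - 1) / 2, (y - 1 - x) / 2), ?_⟩
  unfold lt
  simp only [Prod.mk.injEq]
  omega

theorem sto_in {Z E W : Finset (ℤ × ℤ)} {q : ℤ × ℤ} (h : lt q ∈ Z) :
    sto (Er Z E) (W ∩ Z) q = sto E W q := by
  unfold sto
  have h1 : lt q ∈ W ∩ Z ↔ lt q ∈ W := by rw [mem_inter]; exact ⟨fun h => h.1, fun h' => ⟨h', h⟩⟩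
  simp only [mem_Er h, h1]

theorem sto_out {Z E W : Finset (ℤ × ℤ)} {q : ℤ × ℤ} (h : lt q ∉ Z) :
    sto (Er Z E) (W ∩ Z) q = sto (Rg Z) ∅ q := by
  unfold sto
  have h1 : lt q ∈ W ∩ Z ↔ lt q ∈ (∅ : Finset (ℤ × ℤ)) := by rw [mem_inter]; simp [h]
  simp only [mem_Er' h, h1]

end ring

/-- the weights in a zone -/
theorem WtW_ring {E1 E2 : Finset (ℤ × ℤ)} (hab : a + 2 ≤ b)
    (hK : ∀ x y, a - 1 ≤ x → x ≤ b → (y = j ∨ y = j - 1) → lt (x, y) ∈ Z)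
    (p1 : ∀ q, lt q ∈ E1 ↔ q ∈ P1) (p2 : ∀ q, lt q ∈ E2 ↔ q ∈ P2)
    (HW : WtW P1 P2 a b j lS lR rN rR A p B C AL AR α1 α2) :
    WtW (Pz Z E1) (Pz Z E2) a b j lS lR rN rR A p B C AL AR
      (fun q => if lt q ∈ Z then α1 q else 1 / 2) (fun q => if lt q ∈ Z then α2 q else 1 / 2) := by
  have e1 : ∀ x y, a - 1 ≤ x → x ≤ b → (y = j ∨ y = j - 1) →
      (if lt (x, y) ∈ Z then α1 (x, y) else 1 / 2) = α1 (x, y) :=
    fun x y h1 h2 h3 => if_pos (hK x y h1 h2 h3)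
  have e2 : ∀ x y, a - 1 ≤ x → x ≤ b → (y = j ∨ y = j - 1) →
      (if lt (x, y) ∈ Z then α2 (x, y) else 1 / 2) = α2 (x, y) :=
    fun x y h1 h2 h3 => if_pos (hK x y h1 h2 h3)
  refine ⟨?_, ?_, ?_, ?_, ?_, ?_, ?_, ?_, ?_, ?_, ?_, ?_, ?_⟩
  · intro x h1 h2
    rw [e1 x j (by omega) (by omega) (Or.inl rfl)]; exact HW.reg1 x h1 h2
  · intro x h1 h2
    rw [e2 x (j - 1) (by omega) (by omega) (Or.inr rfl)]; exact HW.reg2 x h1 h2
  · intro x h1 h2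
    rw [e1 x (j - 1) (by omega) (by omega) (Or.inr rfl)]; exact HW.row1 x h1 h2
  · intro x h1 h2
    rw [e2 x j (by omega) (by omega) (Or.inl rfl)]; exact HW.row2 x h1 h2
  · intro h1 h2
    rw [e1 (a - 1) j (by omega) (by omega) (Or.inl rfl)]; exact HW.l1 h1 h2
  · intro h1 h2
    rw [e1 (a - 1) j (by omega) (by omega) (Or.inl rfl),
      e2 (a - 1) j (by omega) (by omega) (Or.inl rfl)]
    exact HW.l1r h1 h2
  · intro h1 h2
    rw [e2 (a - 1) (j - 1) (by omega) (by omega) (Or.inr rfl)]; exact HW.l2 h1 h2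
  · intro h1 h2
    rw [e2 (a - 1) (j - 1) (by omega) (by omega) (Or.inr rfl),
      e1 (a - 1) (j - 1) (by omega) (by omega) (Or.inr rfl)]
    exact HW.l2r h1 h2
  · intro h1 h2
    rw [e1 b j (by omega) (by omega) (Or.inl rfl)]; exact HW.r1 h1 h2
  · intro h1 h2
    rw [e1 b j (by omega) (by omega) (Or.inl rfl), e2 b j (by omega) (by omega) (Or.inl rfl)]
    exact HW.r1r h1 h2
  · intro h1 h2
    rw [e2 b (j - 1) (by omega) (by omega) (Or.inr rfl)]; exact HW.r2 h1 h2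
  · intro h1 h2
    rw [e2 b (j - 1) (by omega) (by omega) (Or.inr rfl),
      e1 b (j - 1) (by omega) (by omega) (Or.inr rfl)]
    exact HW.r2r h1 h2
  · intro q hq h1 h2 h3 h4
    by_cases h : lt q ∈ Z
    · simp only [if_pos h]
      obtain ⟨⟨k1, k2⟩, k3⟩ := mem_PO.1 hq
      refine HW.out q (mem_PO.2 ⟨⟨?_, ?_⟩, k3⟩) h1 h2 h3 h4
      · rw [← p1, ← mem_Er h, ← mem_Pz]; exact k1
      · rw [← p2, ← mem_Er h, ← mem_Pz]; exact k2
    · simp only [if_neg h]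

theorem HasW_ring {E : Finset (ℤ × ℤ)} {P : Finset (ℤ × ℤ)} {q α : ℤ × ℤ → ℂ}
    (p1 : ∀ q, lt q ∈ E ↔ q ∈ P) (h : HasW P q α) :
    HasW (Pz Z E) (fun e => if e ∈ Z then q e else 1 / 2)
      (fun q => if lt q ∈ Z then α q else 1 / 2) := by
  intro x y hxy
  by_cases hz : lt (x, y) ∈ Z
  · simp only [if_pos hz]
    refine h x y ?_
    rw [← p1, ← mem_Er hz, ← mem_Pz]
    exact hxy
  · simp only [if_neg hz]
    unfold wal
    split_ifs <;> norm_num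

theorem Ec_ring {E W : Finset (ℤ × ℤ)} {q : ℤ × ℤ → ℂ} (Ψ : (ℤ × ℤ → ℤ × ℤ → Prop) → ℂ) :
    Ec q E (fun ω => Ψ (EPat Z (ω ∪ W))) =
      Ec (fun e => if e ∈ Z then q e else 1 / 2) (Er Z E)
        (fun ω => Ψ (EPat Z (ω ∪ (W ∩ Z)))) := by
  have k1 : ∀ w w' : Finset (ℤ × ℤ), w ∩ Z = w' ∩ Z →
      Ψ (EPat Z (w ∪ W)) = Ψ (EPat Z (w' ∪ W)) := by
    intro w w' h
    rw [EPat_congr (w := w ∪ W) (w' := w' ∪ W)]
    rw [union_inter_distrib_right, union_inter_distrib_right, h]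
  have k2 : ∀ w w' : Finset (ℤ × ℤ), w ∩ Z = w' ∩ Z →
      Ψ (EPat Z (w ∪ (W ∩ Z))) = Ψ (EPat Z (w' ∪ (W ∩ Z))) := by
    intro w w' h
    rw [EPat_congr (w := w ∪ (W ∩ Z)) (w' := w' ∪ (W ∩ Z))]
    rw [union_inter_distrib_right, union_inter_distrib_right, h]
  have k3 : Er Z E ∩ Z = E ∩ Z := by
    ext e
    rw [mem_inter, mem_inter]
    exact ⟨fun h => ⟨(mem_Er h.2).1 h.1, h.2⟩, fun h => ⟨(mem_Er h.2).2 h.1, h.2⟩⟩
  rw [Ec_inter (Z := Z) k1, Ec_inter (Z := Z) k2, k3,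
    Ec_congr_q (q := q) (q' := fun e => if e ∈ Z then q e else 1 / 2)
      (fun e he => (if_pos (mem_inter.1 he).2).symm)]
  refine Ec_congr fun ω _ => ?_
  rw [EPat_congr (w := ω ∪ W) (w' := ω ∪ (W ∩ Z))]
  rw [union_inter_distrib_right, union_inter_distrib_right, inter_assoc, inter_self]

/-- **The strip comparison for every function of the pattern of a zone.** -/
theorem strip_pat {E1 E2 : Finset (ℤ × ℤ)}
    (S : Strip (sto E1 W1) (sto E2 W2) a b j lS lR cL rN rR cR)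
    (hK : ∀ q, Kb a b j cL cR q → lt q ∈ Z)
    (o1 : ∀ e ∈ E1, (e.1 + e.2) % 2 = 1) (o2 : ∀ e ∈ E2, (e.1 + e.2) % 2 = 1)
    (d1 : Disjoint E1 W1) (d2 : Disjoint E2 W2)
    (p1 : ∀ q, lt q ∈ E1 ↔ q ∈ P1) (p2 : ∀ q, lt q ∈ E2 ↔ q ∈ P2) (HC : CwS a b A p B C)
    (HW : WtW P1 P2 a b j lS lR rN rR A p B C AL AR α1 α2) (h1 : HasW P1 q1 α1)
    (h2 : HasW P2 q2 α2) (Ψ : (ℤ × ℤ → ℤ × ℤ → Prop) → ℂ) :
    Ec q1 E1 (fun ω => Ψ (EPat Z (ω ∪ W1))) = Ec q2 E2 (fun ω => Ψ (EPat Z (ω ∪ W2))) := by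
  have hab := S.ab
  have hL := bi_le cL
  have hR := bi_le cR
  have hK' : ∀ x y, a - 1 ≤ x → x ≤ b → (y = j ∨ y = j - 1) → lt (x, y) ∈ Z :=
    fun x y h1 h2 h3 => hK _ ⟨by simp only; omega, by simp only; omega, h3⟩
  have odd : ∀ {E : Finset (ℤ × ℤ)}, (∀ e ∈ E, (e.1 + e.2) % 2 = 1) →
      ∀ e ∈ Er Z E, (e.1 + e.2) % 2 = 1 := by
    intro E h e he
    unfold Er at he
    rw [mem_union, mem_inter] at he
    rcases he with h1 | h1
    · exact h e h1.1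
    · exact (mem_Rg.1 h1).2.2
  have dis : ∀ {E W : Finset (ℤ × ℤ)}, Disjoint E W → Disjoint (Er Z E) (W ∩ Z) := by
    intro E W h
    rw [disjoint_left]
    intro e he hw
    obtain ⟨k1, k2⟩ := mem_inter.1 hw
    exact disjoint_left.1 h ((mem_Er k2).1 he) k1
  obtain ⟨Y1, I1⟩ := exists_env (odd o1) (dis d1)
  obtain ⟨Y2, I2⟩ := exists_env (odd o2) (dis d2)
  have E1' : Y1.E = Er Z E1 := I1.E
  have E2' : Y2.E = Er Z E2 := I2.E
  rw [Ec_ring (E := E1) (q := q1) Ψ, Ec_ring (E := E2) (q := q2) Ψ, ← E1', ← E2']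
  obtain ⟨w, hw⟩ : ∃ w : ℕ, b = a + w := ⟨(b - a).toNat, by omega⟩
  have H : Cfg Y1 Y2 (W1 ∩ Z) (W2 ∩ Z) (Pz Z E1) (Pz Z E2) a b j w lS lR cL rN rR cR := by
    refine ⟨?_, ?_, ?_, ?_, ?_, hw, ?_, ?_⟩
    · rw [E1']; exact I1
    · rw [E2']; exact I2
    · intro q; rw [E1', mem_Pz]
    · intro q; rw [E2', mem_Pz]
    · rw [E1', E2']
      refine Strip_congr S (fun q hq => ⟨sto_in (hK q hq), sto_in (hK q hq)⟩) ?_
      intro q hq
      by_cases hz : lt q ∈ Z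
      · rw [sto_in hz, sto_in hz]
        refine S.out q ?_ ?_ ?_ ?_ <;> rintro rfl <;> apply hq
        · exact ⟨by simp only; omega, by simp only; omega, Or.inl rfl⟩
        · exact ⟨by simp only; omega, by simp only; omega, Or.inr rfl⟩
        · exact ⟨by simp only; omega, by simp only; omega, Or.inl rfl⟩
        · exact ⟨by simp only; omega, by simp only; omega, Or.inr rfl⟩
      · rw [sto_out hz, sto_out hz]
    · refine Pool.Agent.H46.Sp.tilesP fun e => ?_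
      rw [E1']
      constructor
      · intro he
        obtain ⟨q, rfl⟩ := exists_lt' (odd o1 e he)
        exact ⟨q, mem_Pz.2 he, rfl⟩
      · rintro ⟨q, h1, rfl⟩
        exact mem_Pz.1 h1
    · refine Pool.Agent.H46.Sp.tilesP fun e => ?_
      rw [E2']
      constructor
      · intro he
        obtain ⟨q, rfl⟩ := exists_lt' (odd o2 e he)
        exact ⟨q, mem_Pz.2 he, rfl⟩
      · rintro ⟨q, h1, rfl⟩
        exact mem_Pz.1 h1
  refine cfg_pat H HC (WtW_ring hab hK' p1 p2 HW) (HasW_ring p1 h1) (HasW_ring p2 h2) ?_ ?_ ?_ ?_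
    hK' Ψ
  · rw [E1']; exact dis d1
  · rw [E2']; exact dis d2
  · rw [E1']; exact zrd_Rg Z _ subset_union_right
  · rw [E2']; exact zrd_Rg Z _ subset_union_right

end Pool.Agent.H93.W
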