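import Pool.Agent.H93.W.StripPat
import Pool.Agent.H25.W.Track
import Pool.Agent.H64.W.StripH

set_option autoImplicit false

/-!
# Functions of the pattern are exchangeable

`exF_pat` : in the windows `HWin` every function of the pattern of a zone which contains the box is
exchangeable (`ExF` of `H25/W/Track.lean`), with a string (frozen column) of any frozen weight.
-/

namespace Pool.Agent.H93.W

open Pool.Agent.H75.Perc Pool.Agent.H75.TwoArm Pool.Agent.H75.Four Pool.Agent.H69.Q1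
open Pool.Agent.Q1 Pool.Agent.H33.Q1
open Pool.Agent.H64.Win Pool.Agent.H64.W
open Pool.Agent.H54.W Pool.Agent.H21.W.Tau Pool.Agent.H21.W.TauPos Pool.Agent.H34.W Pool.Agent.H25.W
open Pool.Agent.H64.Q1 (wa)
open Pool.Agent.H11.W (Fz)
open Finset

/-- a root corner far from a finite set of labels -/
theorem exists_root (G : Finset (ℤ × ℤ)) : ∃ c0 g : ℤ × ℤ, ty c0 = 0 ∧ plab c0 ∉ G ∧
    DCo G (fi c0) g ∧ ∀ v, Co G (vx c0) v → g.2 < v.2 := by
  obtain ⟨B, hB⟩ := (G.image Prod.fst).exists_le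
  have hB' : ∀ e ∈ G, e.1 ≤ B := fun e he => hB _ (mem_image_of_mem _ he)
  obtain ⟨N, hN⟩ : ∃ N : ℤ, N = |B| + 1 := ⟨_, rfl⟩
  have hN1 : B + 1 ≤ N := by have := le_abs_self B; omega
  have hN0 : 1 ≤ N := by have := abs_nonneg B; omega
  have far : ∀ e : ℤ × ℤ, 2 * N - 1 ≤ e.1 → e ∉ G := by
    intro e he h
    have := hB' e h
    omega
  have hv : vx (2 * N, 2 * N) = (N, N) := by
    unfold vx
    simp
  have hf : fi (2 * N, 2 * N) = (N, N) := by
    unfold fi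
    simp only [Prod.mk.injEq]
    omega
  have ht : ty (2 * N, 2 * N) = 0 := by
    unfold ty
    simp
  refine ⟨(2 * N, 2 * N), (N, N - 1), ht, ?_, ?_, ?_⟩
  · apply far
    unfold plab
    simp
  · rw [hf]
    refine DCo.step ?_ ?_
    · unfold IsUnit4
      simp
    · apply far
      simp only [Prod.mk_add_mk, Prod.mk_sub_mk]
      omega
  · rw [hv]
    intro v hv
    have : v = (N, N) := by
      induction hv with
      | refl => rfl
      | @tail u w _ h ih =>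
        exfalso
        obtain ⟨h1, h2⟩ := h
        refine far _ ?_ h2
        unfold IsUnit4 at h1
        rw [ih] at h1 ⊢
        obtain ⟨w1, w2⟩ := w
        simp only [Prod.mk_sub_mk, Prod.mk.injEq, Prod.mk_add_mk] at h1 ⊢
        omega
    rw [this]
    simp

/-- outside data with given open labels -/
theorem exists_hout {D : HWin} {Wo : Finset (ℤ × ℤ)} (far : ∀ x y, lt (x, y) ∈ Wo → ¬ D.InZ x y) :
    ∃ O : HOut D, O.Wo = Wo := by
  obtain ⟨c0, g, h1, h2, h3, h4⟩ := exists_root (D.GA ∪ Wo)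
  exact ⟨⟨Wo, c0, 0, g, far, by rw [h1]; rfl, fun h => h2 (mem_union_left _ h), h3, h4⟩, rfl⟩

variable {D : HWin} {τ : ℤ → ℤ} {Wo Z : Finset (ℤ × ℤ)}

/-- the box of a step is in the box of the window -/
theorem kb_GA (H : HPos D τ) {i x₁ x₂ : ℤ} (S : HStep D τ i x₁ x₂) {cL cR : Bool} {q : ℤ × ℤ}
    (h : Kb x₁ x₂ i cL cR q) : lt q ∈ D.GA := by
  obtain ⟨x, y⟩ := q
  have h1 := bi_le cL
  have h2 := bi_le cR
  have h3 := S.x0
  have h4 := S.x12
  have h5 := S.xq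
  have h6 := S.room x₁ le_rfl h4
  have h7 := D.hlo x₁ h3 (by omega)
  have h8 := H.hi x₁ h3 (by omega)
  rw [S.tau x₁ le_rfl h4] at h8
  obtain ⟨k1, k2, k3⟩ := h
  simp only at k1 k2 k3
  rw [HWin.mem_GA]
  exact ⟨by omega, by omega, by omega, by omega⟩

/-- the table of the right and left corners -/
theorem exH_left (H : HPos D τ) {i x₁ x₂ : ℤ} (S : HStep D τ i x₁ x₂) :
    decide (exH D D.a (x₁ - 1) = i + 1) = lRt D i x₁ := by
  have h3 := S.x0
  have h4 := S.x12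
  have h5 := S.xq
  have h8 := H.hi x₁ h3 (by omega)
  rw [S.tau x₁ le_rfl h4] at h8
  unfold exH lRt
  rw [decide_eq_decide]
  by_cases h : D.p < x₁
  · rw [if_pos (by omega)]
    exact ⟨fun h' => ⟨h, h'⟩, fun h' => h'.2⟩
  · rw [if_neg (by omega)]
    exact ⟨fun h' => by omega, fun h' => absurd h'.1 h⟩

theorem exH_right (H : HPos D τ) {i x₁ x₂ : ℤ} (S : HStep D τ i x₁ x₂) :
    decide (exH D D.a x₂ = i + 1) = rRt D i x₂ := by
  have h3 := S.x0
  have h4 := S.x12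
  have h5 := S.xq
  have h8 := H.hi x₁ h3 (by omega)
  rw [S.tau x₁ le_rfl h4] at h8
  unfold exH rRt
  rw [decide_eq_decide]
  by_cases h : x₂ < D.q
  · rw [if_pos (by omega)]
    exact ⟨fun h' => ⟨h, h'⟩, fun h' => h'.2⟩
  · rw [if_neg (by omega)]
    exact ⟨fun h' => by omega, fun h' => absurd h'.1 h⟩

/-- **The pattern comparison for a step**, any weights of the columns. -/
theorem pat_hstep (H : HPos D τ) {i x₁ x₂ : ℤ} (S : HStep D τ i x₁ x₂)
    (far : ∀ x y, lt (x, y) ∈ Wo → ¬ D.InZ x y) (hZ : D.GA ⊆ Z) {A p : ℤ → ℂ} {B C AL AR : ℂ}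
    (HC : CwS x₁ x₂ A p B C) {α1 α2 : ℤ × ℤ → ℂ}
    (HW : WtW (PH D (push τ i x₁ x₂)) (PH D τ) x₁ x₂ i true (lRt D i x₁) true (rRt D i x₂)
      A p B C AL AR α1 α2) (Ψ : (ℤ × ℤ → ℤ × ℤ → Prop) → ℂ) :
    Ec (opw α1) (D.EH (push τ i x₁ x₂)) (fun ω => Ψ (EPat Z (ω ∪ D.WH (push τ i x₁ x₂) Wo))) =
      Ec (opw α2) (D.EH τ) (fun ω => Ψ (EPat Z (ω ∪ D.WH τ Wo))) := by
  obtain ⟨O, rfl⟩ := exists_hout far
  have St := strip_of_hstep (O := O) H S
  rw [exH_left H S, exH_right H S] at St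
  exact strip_pat St (fun q hq => hZ (kb_GA H S hq)) (fun e he => HWin.odd_EH he)
    (fun e he => HWin.odd_EH he) (HWin.disj_EW _ O) (HWin.disj_EW _ O) (EH_mem (S.pos H))
    (EH_mem H) HC HW (hasW_opw _ _) (hasW_opw _ _) Ψ

/-- **Every function of the pattern is exchangeable**, with a string. -/
theorem exF_pat (far : ∀ x y, lt (x, y) ∈ Wo → ¬ D.InZ x y) (hZ : D.GA ⊆ Z) {u ζ : ℂ}
    (hu : Complex.sin (2 * u) ≠ 0) (hζ : Fz ζ) {x0 s : ℤ} (hp : D.p ≤ x0) (hq : x0 < D.q)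
    (hs : D.a x0 ≤ s) (Ψ : (ℤ × ℤ → ℤ × ℤ → Prop) → ℂ) :
    ExF D (fun τ ω => Ψ (EPat Z (ω ∪ D.WH τ Wo))) x0 s (wa u) (wa (u + Real.pi / 2))
      (wa (u - Real.pi / 2)) (1 - ζ) where
  congr τ τ' h := by
    funext ω
    unfold HWin.WH
    rw [WR_congr h]
  step τ i x₁ x₂ H S h := by
    unfold VF aS
    exact pat_hstep H S far hZ (cwS_str hu hζ x₁ x₂ x0 s i) (wtS H S _ _ _ hp hq hs h) Ψ

/-- the natural weights -/
theorem VF_nat {F : (ℤ → ℤ) → Finset (ℤ × ℤ) → ℂ} (H : HPos D τ) (a b c κ : ℂ) (x0 : ℤ) :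
    VF D F τ (aS D τ a b c κ x0 D.w) = Ec (D.qH τ a b c) (D.EH τ) (F τ) := by
  unfold VF
  rw [← opw_aH (D := D) (τ := τ) a b c]
  refine Ec_congr_q (fun e he => ?_) _
  obtain ⟨x, y, rfl⟩ := Pool.Agent.H74.R45.exists_lt (HWin.odd_EH he)
  rw [opw_lt, opw_lt]
  unfold aS
  rw [str_no]
  rintro ⟨-, h⟩
  rw [HWin.mem_EH H] at he
  have := (he.z H).2.2.2
  simp only at h
  omega

/-- **Functions of the pattern do not depend on the position of the line**, natural weights. -/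
theorem pat_hpos (far : ∀ x y, lt (x, y) ∈ Wo → ¬ D.InZ x y) (hZ : D.GA ⊆ Z) {u : ℂ}
    (hu : Complex.sin (2 * u) ≠ 0) {τ σ : ℤ → ℤ} (H : HPos D τ) (H' : HPos D σ)
    (Ψ : (ℤ × ℤ → ℤ × ℤ → Prop) → ℂ) :
    Ec (D.qH σ (wa u) (wa (u + Real.pi / 2)) (wa (u - Real.pi / 2))) (D.EH σ)
        (fun ω => Ψ (EPat Z (ω ∪ D.WH σ Wo))) =
      Ec (D.qH τ (wa u) (wa (u + Real.pi / 2)) (wa (u - Real.pi / 2))) (D.EH τ)
        (fun ω => Ψ (EPat Z (ω ∪ D.WH τ Wo))) := by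
  obtain ⟨ζ, hζ⟩ : ∃ ζ : ℂ, Fz ζ := by
    unfold Fz
    obtain ⟨s, hs⟩ := IsAlgClosed.exists_pow_nat_eq (-3 : ℂ) (n := 2) (by norm_num)
    refine ⟨(1 + s) / 2, ?_⟩
    linear_combination (-1 / 4 : ℂ) * hs
  have hh := D.hh
  have hlo := D.aw D.p le_rfl (by omega)
  have h1 := H.hi D.p le_rfl (by omega)
  have h2 := H'.hi D.p le_rfl (by omega)
  have E := exF_pat (D := D) far hZ hu hζ (x0 := D.p) (s := D.w) le_rfl (by omega) (by omega) Ψ
  have key := exch E le_rfl (by omega) H H' (Or.inl ⟨h1, h2⟩)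
  rw [VF_nat H', VF_nat H] at key
  exact key

end Pool.Agent.H93.W
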