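import Pool.Agent.H93.W.IncPat
import Pool.Agent.H84.W.Str

set_option autoImplicit false

/-!
# The frozen row with the wall tile

`rcol D r c` : the window `D` with the colour `c` of the wall tile `(w, r)`. `V2` : the mean of a functional of the
open labels with the frozen row `r` from the column `s` up to and with the wall tile (`D8`): sum over the two
colours of the wall tile with the frozen weights. `V2_eq` : `V2` = mean over the labels off the string of the mean over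
the states of the string `srow (lt (s, r)) m`. `V2_io` : for the indicator of the outer corner `ct` on the loop of
`c0` it is the mean of the value `val` of the in-plane strand.
-/

namespace Pool.Agent.H93.W

open Pool.Agent.H75.Perc hiding ph
open Pool.Agent.H75.TwoArm Pool.Agent.H75.Four Pool.Agent.H69.Q1
open Pool.Agent.Q1 Pool.Agent.H33.Q1
open Pool.Agent.H54.W Pool.Agent.H34.W Pool.Agent.H25.W
open Pool.Agent.H84.W (DC ip tl srow mem_srow notMem_srow qs val Root str_val ip_congr wst)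
open Pool.Agent.H74.R45 (exists_lt)
open Pool.Agent.H64.Q1 (wa)
open Finset

/-- the window with the colour `c` of the wall tile in the row `r` -/
def rcol (D : Win) (r : ℤ) (c : Bool) : Win := { D with cr := fun y => if y = r then c else D.cr y }

section win

variable {D : Win} {r s : ℤ} {c : Bool} {τ : ℤ → ℤ}

theorem rcol_EJ : (rcol D r c).EJ τ = D.EJ τ := rfl
theorem rcol_GA : (rcol D r c).GA = D.GA := rfl

theorem rcol_pos (H : Pos D τ) : Pos (rcol D r c) τ := ⟨H.lo, H.hi, H.up, H.dn⟩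

/-- the wall tile -/
theorem wall_WR (H : Pos D τ) (h0 : 0 ≤ r) (h1 : r < D.h) :
    lt (D.w, r) ∈ (rcol D r c).WR τ ↔ c = true := by
  unfold Win.WR
  rw [Win.mem_TS]
  have k := D.hlo r h0 h1
  have k2 := D.aw r h0 h1
  have hz : (rcol D r c).InZ D.w r := ⟨by change D.lo ≤ D.w + 2; omega, le_rfl, by omega, by
    change r ≤ D.h + 1; omega⟩
  have hE : ¬ (rcol D r c).InE τ D.w r := fun h => by
    have := (h.z (rcol_pos H)).2.1
    change D.w < D.w at this
    omega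
  have hA : ¬ (rcol D r c).TA τ D.w r := fun h => by
    have := (h.z (rcol_pos H)).2.1
    change D.w < D.w at this
    omega
  have hB : ¬ (rcol D r c).TB τ D.w r := fun h => by
    have := (h.z (rcol_pos H)).2.1
    change D.w < D.w at this
    omega
  have hf : (rcol D r c).fill D.w r = c := by
    unfold Win.fill
    change (if r < 0 then D.cb else if D.h ≤ r then D.ct else if D.w < D.a r then D.cl r else
      if r = r then c else D.cr r) = c
    rw [if_neg (by omega), if_neg (by omega), if_neg (by omega), if_pos rfl]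
  unfold Win.InO
  rw [hf]
  tauto

/-- the other tiles -/
theorem other_WR (h0 : 0 ≤ r) (h1 : r < D.h) {c' : Bool} {x y : ℤ}
    (h : ¬ (x = D.w ∧ y = r)) :
    lt (x, y) ∈ (rcol D r c).WR τ ↔ lt (x, y) ∈ (rcol D r c').WR τ := by
  unfold Win.WR
  rw [Win.mem_TS, Win.mem_TS]
  refine and_congr_right fun hz => ?_
  change (D.InZ x y ∧ ¬ D.InE τ x y ∧ _) ↔ (D.InZ x y ∧ ¬ D.InE τ x y ∧ _)
  refine and_congr_right fun _ => and_congr_right fun hE => ?_
  have hf : (rcol D r c).fill x y = (rcol D r c').fill x y := by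
    unfold Win.fill
    change (if y < 0 then D.cb else if D.h ≤ y then D.ct else if x < D.a y then D.cl y else
      if y = r then c else D.cr y) = (if y < 0 then D.cb else if D.h ≤ y then D.ct else
      if x < D.a y then D.cl y else if y = r then c' else D.cr y)
    by_cases h2 : y < 0
    · rw [if_pos h2, if_pos h2]
    rw [if_neg h2, if_neg h2]
    by_cases h3 : D.h ≤ y
    · rw [if_pos h3, if_pos h3]
    rw [if_neg h3, if_neg h3]
    by_cases h4 : x < D.a y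
    · rw [if_pos h4, if_pos h4]
    rw [if_neg h4, if_neg h4]
    by_cases h5 : y = r
    · exfalso
      apply hE
      left
      have hx : x ≤ D.w := hz.2.1
      refine ⟨by omega, by omega, by omega, ?_⟩
      have : x ≠ D.w := fun h' => h ⟨h', h5⟩
      omega
    · rw [if_neg h5, if_neg h5]
  rw [hf]
  rfl

theorem WR_true (H : Pos D τ) (h0 : 0 ≤ r) (h1 : r < D.h) :
    (rcol D r true).WR τ = insert (lt (D.w, r)) ((rcol D r false).WR τ) := by
  ext e
  rw [mem_insert]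
  constructor
  · intro he
    obtain ⟨x, y, rfl⟩ := exists_lt (Win.odd_TS _ he)
    by_cases h : x = D.w ∧ y = r
    · left; rw [h.1, h.2]
    · right; exact (other_WR h0 h1 h).1 he
  · rintro (rfl | he)
    · exact (wall_WR H h0 h1).2 rfl
    · obtain ⟨x, y, rfl⟩ := exists_lt (Win.odd_TS _ he)
      by_cases h : x = D.w ∧ y = r
      · rw [h.1, h.2] at he
        exact absurd ((wall_WR H h0 h1).1 he) (by simp)
      · exact (other_WR h0 h1 h).1 he

/-- the labels of the string: row `r` from the column `s` to the wall -/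
noncomputable def Fs (D : Win) (r s : ℤ) : Finset (ℤ × ℤ) := srow (lt (s, r)) (D.w + 1 - s).toNat

theorem mem_Fs (hs : s ≤ D.w) {x y : ℤ} : lt (x, y) ∈ Fs D r s ↔ y = r ∧ s ≤ x ∧ x ≤ D.w := by
  unfold Fs
  rw [mem_srow]
  constructor
  · rintro ⟨i, hi, he⟩
    have : lt (x, y) = lt (s + i, r) := by
      rw [he]
      unfold lt
      simp only [Prod.mk.injEq]
      omega
    have := lt_inj this
    simp only [Prod.mk.injEq] at this
    omega
  · rintro ⟨rfl, h1, h2⟩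
    refine ⟨(x - s).toNat, by omega, ?_⟩
    unfold lt
    simp only [Prod.mk.injEq]
    omega

theorem odd_Fs {e : ℤ × ℤ} (he : e ∈ Fs D r s) : (e.1 + e.2) % 2 = 1 := by
  unfold Fs at he
  rw [mem_srow] at he
  obtain ⟨i, -, rfl⟩ := he
  unfold lt
  simp only
  omega

theorem Fs_EJ (H : Pos D τ) (h0 : 0 ≤ r) (h1 : r < D.h) (ha : D.a r - 1 ≤ s) (hs : s ≤ D.w) :
    (D.EJ τ \ Fs D r s) ∪ Fs D r s = insert (lt (D.w, r)) (D.EJ τ) := by
  ext e
  rw [mem_union, mem_sdiff, mem_insert]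
  constructor
  · rintro (h | h)
    · exact Or.inr h.1
    · obtain ⟨x, y, rfl⟩ := exists_lt (odd_Fs h)
      obtain ⟨rfl, h2, h3⟩ := (mem_Fs hs).1 h
      by_cases h4 : x = D.w
      · left; rw [h4]
      · right
        rw [Win.mem_EJ H]
        exact Or.inl ⟨h0, h1, by omega, by omega⟩
  · rintro (rfl | h)
    · right; exact (mem_Fs hs).2 ⟨rfl, hs, le_rfl⟩
    · by_cases h2 : e ∈ Fs D r s
      · exact Or.inr h2
      · exact Or.inl ⟨h, h2⟩

theorem wall_EJ (H : Pos D τ) : lt (D.w, r) ∉ D.EJ τ := by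
  rw [Win.mem_EJ H]
  intro h
  have := (h.z H).2.1
  omega

/-- **The mean with the frozen row, the wall tile included.** `Hf` : functional of the open labels. -/
noncomputable def V2 (D : Win) (r s : ℤ) (Wo : Finset (ℤ × ℤ)) (Hf : Finset (ℤ × ℤ) → ℂ) (τ : ℤ → ℤ)
    (a b c κ : ℂ) : ℂ :=
  (1 - qs κ (1 - κ) (lt (D.w, r))) *
      VJ (rcol D r false) (fun τ ω => Hf (ω ∪ (rcol D r false).WJ τ Wo)) τ (aV D τ a b c κ r s) +
    qs κ (1 - κ) (lt (D.w, r)) *
      VJ (rcol D r true) (fun τ ω => Hf (ω ∪ (rcol D r true).WJ τ Wo)) τ (aV D τ a b c κ r s)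

theorem qs_wal (x y : ℤ) (κ : ℂ) : qs κ (1 - κ) (lt (x, y)) = Win.wal x y κ := by
  unfold qs Win.wal lt
  simp only
  by_cases h : (x + y) % 2 = 0
  · rw [if_pos h, if_pos (by omega)]
  · rw [if_neg h, if_neg (by omega)]

/-- **The mean over the string first.** -/
theorem V2_eq (H : Pos D τ) (h0 : 0 ≤ r) (h1 : r < D.h) (ha : D.a r - 1 ≤ s) (hs : s ≤ D.w)
    (Wo : Finset (ℤ × ℤ)) (Hf : Finset (ℤ × ℤ) → ℂ) (a b c κ : ℂ) :
    V2 D r s Wo Hf τ a b c κ =
      Ec (opw (fun q => D.wA τ a b c q.1 q.2)) (D.EJ τ \ Fs D r s) (fun ω =>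
        Ec (qs κ (1 - κ)) (Fs D r s) (fun σ => Hf ((ω ∪ (rcol D r false).WJ τ Wo) ∪ σ))) := by
  classical
  set q' : ℤ × ℤ → ℂ := fun e => if e ∈ Fs D r s then qs κ (1 - κ) e else
    opw (fun q => D.wA τ a b c q.1 q.2) e with hq'
  have e1 : Ec (opw (fun q => D.wA τ a b c q.1 q.2)) (D.EJ τ \ Fs D r s) (fun ω =>
        Ec (qs κ (1 - κ)) (Fs D r s) (fun σ => Hf ((ω ∪ (rcol D r false).WJ τ Wo) ∪ σ))) =
      Ec q' ((D.EJ τ \ Fs D r s) ∪ Fs D r s) (fun x => Hf (x ∪ (rcol D r false).WJ τ Wo)) := by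
    rw [Ec_union q' sdiff_disjoint,
      Ec_congr_q (q := opw (fun q => D.wA τ a b c q.1 q.2)) (q' := q')
        (fun e he => (if_neg (mem_sdiff.1 he).2).symm)]
    refine Ec_congr fun ω _ => ?_
    rw [Ec_congr_q (q := qs κ (1 - κ)) (q' := q') (fun e he => (if_pos he).symm)]
    refine Ec_congr fun σ _ => ?_
    rw [union_right_comm]
  have e2 : ∀ F : Finset (ℤ × ℤ) → ℂ, Ec q' (D.EJ τ) F = Ec (opw (aV D τ a b c κ r s)) (D.EJ τ) F := by
    intro F
    refine Ec_congr_q (fun e he => ?_) _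
    obtain ⟨x, y, rfl⟩ := exists_lt (Win.odd_TS _ he)
    rw [hq']
    simp only
    by_cases hx : lt (x, y) ∈ Fs D r s
    · obtain ⟨rfl, h2, h3⟩ := (mem_Fs hs).1 hx
      rw [if_pos hx, qs_wal, opw_lt]
      unfold aV
      rw [if_pos ⟨rfl, h2⟩]
    · rw [if_neg hx, opw_lt, opw_lt]
      unfold aV
      rw [if_neg]
      rintro ⟨h2, h3⟩
      apply hx
      simp only at h2 h3
      rw [Win.mem_EJ H] at he
      have := (he.z H).2.1
      exact (mem_Fs hs).2 ⟨h2, h3, by omega⟩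
  rw [e1, Fs_EJ H h0 h1 ha hs, Ec_insert q' (wall_EJ H), e2, e2]
  have e3 : q' (lt (D.w, r)) = qs κ (1 - κ) (lt (D.w, r)) :=
    if_pos ((mem_Fs hs).2 ⟨rfl, hs, le_rfl⟩)
  rw [e3]
  unfold V2 VJ
  congr 2
  rw [rcol_EJ]
  refine Ec_congr fun ω _ => ?_
  unfold Win.WJ
  change Hf (ω ∪ ((rcol D r true).WR τ ∪ Wo)) = _
  rw [WR_true H h0 h1, insert_union, insert_union, union_insert]

/-- **The bridge, affine form.** -/
theorem V2_aff (H : Pos D τ) (h0 : 0 ≤ r) (h1 : r < D.h) (ha : D.a r - 1 ≤ s) (hs : s ≤ D.w)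
    {Wo : Finset (ℤ × ℤ)} {Hf P : Finset (ℤ × ℤ) → ℂ} {a b c κ al be : ℂ}
    (hP : ∀ ω ⊆ D.EJ τ \ Fs D r s,
      Ec (qs κ (1 - κ)) (Fs D r s) (fun σ => Hf ((ω ∪ (rcol D r false).WJ τ Wo) ∪ σ)) =
        al + be * P (ω ∪ (rcol D r false).WJ τ Wo)) :
    V2 D r s Wo Hf τ a b c κ = al + be *
      Ec (opw (fun q => D.wA τ a b c q.1 q.2)) (D.EJ τ \ Fs D r s) (fun ω =>
        P (ω ∪ (rcol D r false).WJ τ Wo)) := by
  rw [V2_eq H h0 h1 ha hs, Ec_congr hP, Ec_add, Ec_const, Ec_smul]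

theorem V2_congr {Wo : Finset (ℤ × ℤ)} {Hf Hf' : Finset (ℤ × ℤ) → ℂ} (h : ∀ w, Hf w = Hf' w)
    (a b c κ : ℂ) : V2 D r s Wo Hf τ a b c κ = V2 D r s Wo Hf' τ a b c κ := by
  have : Hf = Hf' := funext h
  rw [this]

/-- **The mean with the frozen row as functionals of the pattern** of the two windows. -/
theorem V2_pat {Z Wo : Finset (ℤ × ℤ)} {c0 ct : ℤ × ℤ} (hZ : D.GA ⊆ Z) (h0 : OutZ Z c0)
    (ht : OutZ Z ct) (a b c κ : ℂ) :
    V2 D r s Wo (fun w => io w c0 ct) τ a b c κ =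
      (1 - qs κ (1 - κ) (lt (D.w, r))) *
        VJ (rcol D r false) (FJ (rcol D r false) Z Wo (Pio Z Wo c0 ct)) τ (aV D τ a b c κ r s) +
      qs κ (1 - κ) (lt (D.w, r)) *
        VJ (rcol D r true) (FJ (rcol D r true) Z Wo (Pio Z Wo c0 ct)) τ (aV D τ a b c κ r s) := by
  have key : ∀ (d : Bool), VJ (rcol D r d) (fun τ ω => io (ω ∪ (rcol D r d).WJ τ Wo) c0 ct) τ
      (aV D τ a b c κ r s) =
      VJ (rcol D r d) (FJ (rcol D r d) Z Wo (Pio Z Wo c0 ct)) τ (aV D τ a b c κ r s) := by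
    intro d
    unfold VJ
    refine Ec_congr fun ω hω => ?_
    unfold FJ
    refine io_pat (fun e he => ?_) h0 ht
    unfold Win.WJ
    rw [mem_union, mem_union]
    constructor
    · intro h; exact Or.inr (Or.inr h)
    · rintro (h | h | h)
      · exact absurd (hZ (Win.EJ_sub (D := rcol D r d) (hω h))) he
      · exact absurd (hZ (Win.WR_sub (D := rcol D r d) h)) he
      · exact h
  unfold V2
  rw [key, key]

/-- the outside of the window with the colour `c` of the wall tile -/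
def orc (O : Out D) (r : ℤ) (c : Bool) : Out (rcol D r c) where
  Wo := O.Wo
  c0 := O.c0
  k0 := O.k0
  g := O.g
  far := O.far
  hk := O.hk
  hroot := O.hroot
  hg := O.hg
  hlow := O.hlow

/-- **The mean with the frozen row as increments** of the two windows. -/
theorem V2_inc (O : Out D) {G Z : Finset (ℤ × ℤ)} {ct g : ℤ × ℤ} (h : OutG G O.c0 ct g)
    (hG : D.GA ∪ O.Wo ⊆ G) (hZ : D.GA ⊆ Z) (h0 : OutZ Z O.c0) (ht : OutZ Z ct) (a b c κ : ℂ) :
    ph (kap h O.k0) * V2 D r s O.Wo (fun w => io w O.c0 ct) τ a b c κ =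
      (1 - qs κ (1 - κ) (lt (D.w, r))) *
        (Win.XJ (orc O r false) τ).incW (opw (aV D τ a b c κ r s)) ct +
      qs κ (1 - κ) (lt (D.w, r)) *
        (Win.XJ (orc O r true) τ).incW (opw (aV D τ a b c κ r s)) ct := by
  have e1 := incW_FJ (orc O r false) (τ := τ) (Z := Z) (G := G) (ct := ct) (g := g) h hG hZ h0 ht
    (aV D τ a b c κ r s)
  have e2 := incW_FJ (orc O r true) (τ := τ) (Z := Z) (G := G) (ct := ct) (g := g) h hG hZ h0 ht
    (aV D τ a b c κ r s)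
  rw [V2_pat hZ h0 ht, e1, e2]
  change _ = (1 - qs κ (1 - κ) (lt (D.w, r))) * (ph (kap h O.k0) *
    VJ (rcol D r false) (FJ (rcol D r false) Z O.Wo (Pio Z O.Wo O.c0 ct)) τ (aV D τ a b c κ r s)) +
    qs κ (1 - κ) (lt (D.w, r)) * (ph (kap h O.k0) *
    VJ (rcol D r true) (FJ (rcol D r true) Z O.Wo (Pio Z O.Wo O.c0 ct)) τ (aV D τ a b c κ r s))
  ring

/-! ### The track identity for the mean with the wall tile -/

theorem rcol_Comp {i y1 y2 : ℤ} (C : Comp D i y1 y2) : Comp (rcol D r c) i y1 y2 :=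
  ⟨C.h0, C.h1, C.h2, C.le, C.bot, C.top⟩

/-- the two windows, weights `α` -/
noncomputable def VW (D : Win) (r : ℤ) (Z Wo : Finset (ℤ × ℤ)) (Ψ : (ℤ × ℤ → ℤ × ℤ → Prop) → ℂ)
    (τ : ℤ → ℤ) (κ : ℂ) (α : ℤ × ℤ → ℂ) : ℂ :=
  (1 - qs κ (1 - κ) (lt (D.w, r))) * VJ (rcol D r false) (FJ (rcol D r false) Z Wo Ψ) τ α +
    qs κ (1 - κ) (lt (D.w, r)) * VJ (rcol D r true) (FJ (rcol D r true) Z Wo Ψ) τ α

theorem V2_VW {Z Wo : Finset (ℤ × ℤ)} {c0 ct : ℤ × ℤ} (hZ : D.GA ⊆ Z) (h0 : OutZ Z c0)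
    (ht : OutZ Z ct) (a b c κ : ℂ) :
    V2 D r s Wo (fun w => io w c0 ct) τ a b c κ =
      VW D r Z Wo (Pio Z Wo c0 ct) τ κ (aV D τ a b c κ r s) := V2_pat hZ h0 ht a b c κ

/-- **The track identity with the wall tile.** -/
theorem VW_track {Z Wo : Finset (ℤ × ℤ)} (hZ : D.GA ⊆ Z)
    (hW : ∀ x y, lt (x, y) ∈ Wo → ¬ D.InZ x y) {v ζ : ℂ} (hv : Complex.sin (2 * v) ≠ 0)
    (hζ : Pool.Agent.H11.W.Fz ζ) (hp : 0 ≤ r) (hq : r < D.h) (hs : D.a r ≤ s)
    (hw : s + 1 ≤ D.w) {y1 y2 : ℤ} (C : Comp D (s + 1) y1 y2) (c1 : y1 ≤ r) (c2 : r < y2)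
    (Ψ : (ℤ × ℤ → ℤ × ℤ → Prop) → ℂ) :
    VW D r Z Wo Ψ D.a (1 - ζ)
        (aV D D.a (wa v) (wa (v + Real.pi / 2)) (wa (v - Real.pi / 2)) (1 - ζ) r (s + 1)) -
      VW D r Z Wo Ψ (fun _ => D.w) (1 - ζ)
        (aV D (fun _ => D.w) (wa v) (wa (v + Real.pi / 2)) (wa (v - Real.pi / 2)) (1 - ζ) r s) =
      (wa v - (1 - ζ)) * (VW D r Z Wo Ψ (seg D (s + 1) y1 y2) (1 - ζ) (put (s, r) 1
          (aV D (seg D (s + 1) y1 y2) (wa v) (wa (v + Real.pi / 2)) (wa (v - Real.pi / 2)) (1 - ζ)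
            r (s + 1))) -
        VW D r Z Wo Ψ (seg D (s + 1) y1 y2) (1 - ζ) (put (s, r) 0
          (aV D (seg D (s + 1) y1 y2) (wa v) (wa (v + Real.pi / 2)) (wa (v - Real.pi / 2)) (1 - ζ)
            r (s + 1)))) := by
  have key := fun d : Bool => trackV_pat (D := rcol D r d) (r := r) (s := s) (Z := Z) (Wo := Wo) hZ hW hv
    hζ hp hq hs hw (rcol_Comp C) c1 c2 Ψ
  have k1 : VJ (rcol D r false) (FJ (rcol D r false) Z Wo Ψ) D.a
        (aV D D.a (wa v) (wa (v + Real.pi / 2)) (wa (v - Real.pi / 2)) (1 - ζ) r (s + 1)) -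
      VJ (rcol D r false) (FJ (rcol D r false) Z Wo Ψ) (fun _ => D.w)
        (aV D (fun _ => D.w) (wa v) (wa (v + Real.pi / 2)) (wa (v - Real.pi / 2)) (1 - ζ) r s) =
      (wa v - (1 - ζ)) * (VJ (rcol D r false) (FJ (rcol D r false) Z Wo Ψ) (seg D (s + 1) y1 y2)
          (put (s, r) 1 (aV D (seg D (s + 1) y1 y2) (wa v) (wa (v + Real.pi / 2))
            (wa (v - Real.pi / 2)) (1 - ζ) r (s + 1))) -
        VJ (rcol D r false) (FJ (rcol D r false) Z Wo Ψ) (seg D (s + 1) y1 y2) (put (s, r) 0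
          (aV D (seg D (s + 1) y1 y2) (wa v) (wa (v + Real.pi / 2)) (wa (v - Real.pi / 2)) (1 - ζ)
            r (s + 1)))) := key false
  have k2 : VJ (rcol D r true) (FJ (rcol D r true) Z Wo Ψ) D.a
        (aV D D.a (wa v) (wa (v + Real.pi / 2)) (wa (v - Real.pi / 2)) (1 - ζ) r (s + 1)) -
      VJ (rcol D r true) (FJ (rcol D r true) Z Wo Ψ) (fun _ => D.w)
        (aV D (fun _ => D.w) (wa v) (wa (v + Real.pi / 2)) (wa (v - Real.pi / 2)) (1 - ζ) r s) =
      (wa v - (1 - ζ)) * (VJ (rcol D r true) (FJ (rcol D r true) Z Wo Ψ) (seg D (s + 1) y1 y2)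
          (put (s, r) 1 (aV D (seg D (s + 1) y1 y2) (wa v) (wa (v + Real.pi / 2))
            (wa (v - Real.pi / 2)) (1 - ζ) r (s + 1))) -
        VJ (rcol D r true) (FJ (rcol D r true) Z Wo Ψ) (seg D (s + 1) y1 y2) (put (s, r) 0
          (aV D (seg D (s + 1) y1 y2) (wa v) (wa (v + Real.pi / 2)) (wa (v - Real.pi / 2)) (1 - ζ)
            r (s + 1)))) := key true
  unfold VW
  linear_combination (1 - qs (1 - ζ) (1 - (1 - ζ)) (lt (D.w, r))) * k1 +
    qs (1 - ζ) (1 - (1 - ζ)) (lt (D.w, r)) * k2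

end win

end Pool.Agent.H93.W
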