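import Pool.Agent.H93.W.VBridge
import Pool.Agent.H43.W.SeamN
import Pool.Agent.H85.W.OutO

set_option autoImplicit false

/-!
# The bridge: the frozen row with the wall tile is the deleted row

`B : BP C c0` a box of the room (helper85) with the margins `Mg`, window `C.win n (crz c0 r)`. `full_L`, `fst_L`,
`rws_L` : every configuration of the window off the string has the outside of the box, the colours of the first
layer, the colours of the rows `r - 1` and `r + 1`. `bridge_B` : the mean with the frozen row (weights `-τ`, `-τ²`)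
of the indicator that the target corner is on the loop of the root corner is `al8 + be8 *` the mean of helper62's
`Phi`, any position of the line, any weights.
-/

namespace Pool.Agent.H93.W

open Pool.Agent.H75.Perc hiding ph kk tau
open Pool.Agent.H75.TwoArm Pool.Agent.H75.Four Pool.Agent.H69.Q1
open Pool.Agent.Q1 Pool.Agent.H33.Q1
open Pool.Agent.H54.W Pool.Agent.H34.W Pool.Agent.H25.W
open Pool.Agent.H84.W (srow qs val)
open Pool.Agent.H74.R45 (exists_lt)
open Pool.Agent.H85.W (BP ow ctW mem_Wo mem_Wo_in mem_Wo_out odd_Wo full_of)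
open Pool.Agent.H43.W (Fst Rws short_C al8 be8 n_pos Hpos tau_sum)
open Pool.Agent.H20.W (Th crz)
open Pool.Agent.H21.W (fillC)
open Pool.Agent.H74.W (tau tau_im_pos)
open Pool.Agent.H62.W (Phi)
open Finset

/-! ### The phase -/

theorem tau_w6 : tau = w6 - 1 := by
  have h1 := tau_sum
  have h2 := w6_sq
  have h3 : (tau - (w6 - 1)) * (tau + w6) = 0 := by linear_combination h1 - h2
  rcases mul_eq_zero.1 h3 with h | h
  · linear_combination h
  · exfalso
    have h4 : tau = -w6 := by linear_combination h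
    have h5 := tau_im_pos
    rw [h4, Complex.neg_im] at h5
    have h6 : (0 : ℝ) < Real.sqrt 3 := Real.sqrt_pos.2 (by norm_num)
    have h7 : w6.im = Real.sqrt 3 / 2 := rfl
    rw [h7] at h5
    linarith

theorem neg_tau : -tau = w6⁻¹ := by
  rw [tau_w6]
  refine eq_inv_of_mul_eq_one_left ?_
  linear_combination -w6_sq

theorem one_sub_neg_tau : 1 - -tau = -tau ^ 2 := by linear_combination tau_sum

/-! ### The configurations of the window -/

section conf

variable {C : CD} {c0 : Bool} {θ : Th C c0} {B : BP C c0} {s x y : ℤ} {τ : ℤ → ℤ}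
  {ω : Finset (ℤ × ℤ)}

/-- margins of the box -/
structure Mg (B : BP C c0) : Prop where
  x1 : B.X1 + 4 ≤ B.n * C.LO
  y1 : B.Y1 ≤ -3
  y2 : B.n * C.H + 3 ≤ B.Y2

/-- the window of the box -/
def wB (B : BP C c0) : Win := C.win B.n B.he B.hn (crz c0 B.r)

theorem inz_iff : (wB B).InZ x y ↔ B.n * C.LO ≤ x + 3 ∧ x ≤ B.n * C.W ∧ -2 ≤ y ∧ y ≤ B.n * C.H + 1 := by
  change (B.n * C.LO - 1 ≤ x + 2 ∧ x ≤ B.n * C.W ∧ -2 ≤ y ∧ y ≤ B.n * C.H + 1) ↔ _
  omega

theorem box_iff : (ow θ B).Box x y ↔ B.X1 ≤ x ∧ x < B.X2 ∧ B.Y1 ≤ y ∧ y < B.Y2 := Iff.rfl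

theorem hinB (h : Mg B) : ∀ x y, (wB B).InZ x y → (ow θ B).Box x y := by
  intro x y hz
  rw [inz_iff] at hz
  rw [box_iff]
  have := h.x1; have := h.y1; have := h.y2; have := B.x2
  omega

/-- the labels off the string -/
noncomputable def LB (θ : Th C c0) (B : BP C c0) (τ : ℤ → ℤ) (ω : Finset (ℤ × ℤ)) : Finset (ℤ × ℤ) :=
  ω ∪ (rcol (wB B) B.r false).WJ τ (Pool.Agent.H85.W.Wo θ B (wB B) (wB B).fill)

theorem mem_LB : lt (x, y) ∈ LB θ B τ ω ↔ lt (x, y) ∈ ω ∨
    (rcol (wB B) B.r false).InO τ x y ∨ lt (x, y) ∈ Pool.Agent.H85.W.Wo θ B (wB B) (wB B).fill := by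
  unfold LB Win.WJ
  rw [mem_union, mem_union, Win.mem_WR]

/-- off the window -/
theorem mem_LB_out (hω : ω ⊆ (wB B).EJ τ) (hz : ¬ (wB B).InZ x y) :
    lt (x, y) ∈ LB θ B τ ω ↔ lt (x, y) ∈ Pool.Agent.H85.W.Wo θ B (wB B) (wB B).fill := by
  rw [mem_LB]
  constructor
  · rintro (h | h | h)
    · exact absurd (Win.mem_GA.1 (Win.EJ_sub (hω h))) hz
    · exact absurd h.1 hz
    · exact h
  · exact fun h => Or.inr (Or.inr h)

theorem full_L (h : Mg B) (hω : ω ⊆ (wB B).EJ τ) : (ow θ B).Full (LB θ B τ ω) := by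
  refine full_of (D := wB B) (f := (wB B).fill) (hinB h) fun x y hb => ?_
  exact mem_LB_out hω fun hz => hb (hinB (θ := θ) h x y hz)

theorem odd_L (hω : ω ⊆ (wB B).EJ τ) : ∀ e ∈ LB θ B τ ω, (e.1 + e.2) % 2 = 1 := by
  intro e he
  unfold LB Win.WJ at he
  rw [mem_union, mem_union] at he
  rcases he with h | h | h
  · exact Win.odd_EJ (hω h)
  · exact Win.odd_WR h
  · exact odd_Wo h

theorem rowB (h0 : 0 ≤ y) (h1 : y < B.n * C.H) : 0 ≤ y / B.n ∧ y / B.n < C.H :=
  CD.row_of (C := C) (n_pos B) h0 h1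

theorem nA_bd (h0 : 0 ≤ y) (h1 : y < B.n * C.H) : B.n * C.LO ≤ B.n * C.A (y / B.n) ∧
    B.n * C.A (y / B.n) ≤ B.n * C.W := by
  have hr := rowB (C := C) (B := B) h0 h1
  exact ⟨mul_le_mul_of_nonneg_left (C.lo _ hr.1 hr.2) (n_pos B).le,
    mul_le_mul_of_nonneg_left (C.AW _ hr.1 hr.2).le (n_pos B).le⟩

/-- the colours of the window to the left of the room and to the right -/
theorem fill_eq (h : x + 1 < B.n * C.LO ∨ B.n * C.W ≤ x ∨ y < 0 ∨ B.n * C.H ≤ y) :
    (wB B).fill x y = fillC C B.n (crz c0 B.r) x y := by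
  unfold fillC Win.fill
  change (if y < 0 then C.CB else if B.n * C.H ≤ y then C.CT else if x < C.wa B.n y then C.CL (y / B.n)
    else crz c0 B.r y) = _
  by_cases h1 : y < 0
  · rw [if_pos h1, if_pos h1]
  rw [if_neg h1, if_neg h1]
  by_cases h2 : B.n * C.H ≤ y
  · rw [if_pos h2, if_pos h2]
  rw [if_neg h2, if_neg h2]
  obtain ⟨b1, b2⟩ := nA_bd (C := C) (B := B) (not_lt.1 h1) (not_le.1 h2)
  have hw : C.wa B.n y = B.n * C.A (y / B.n) - 1 ∨ C.wa B.n y = B.n * C.A (y / B.n) := by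
    rcases C.wa_cases B.n y with ⟨-, e⟩ | ⟨-, e⟩
    · exact Or.inl e
    · exact Or.inr e
  rcases h with h | h | h | h
  · rw [if_pos (by omega), if_pos (by omega)]
  · rw [if_neg (by omega), if_neg (by omega)]
  · exact absurd h h1
  · exact absurd h h2

theorem fst_L (h : Mg B) (hω : ω ⊆ (wB B).EJ τ) : Fst B (LB θ B τ ω) := by
  intro x y a1 a2 a3 a4 a5 _
  have b1 := h.x1; have b2 := h.y1; have b3 := h.y2; have b4 := B.x2
  have hz : ¬ (wB B).InZ x y := by rw [inz_iff]; omega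
  rw [mem_LB_out hω hz, mem_Wo_in (box_iff.2 ⟨a1, a2, a3, a4⟩) hz, fill_eq]
  have := Hpos B
  omega

/-- the columns from the wall on, off the row `r` -/
theorem mem_LB_right (h : Mg B) (H : Pos (wB B) τ) (hω : ω ⊆ (wB B).EJ τ) (h1 : B.n * C.W ≤ x)
    (h2 : x < B.X2) (h3 : 0 ≤ y) (h4 : y < B.n * C.H) (h5 : y ≠ B.r) :
    lt (x, y) ∈ LB θ B τ ω ↔ crz c0 B.r y = true := by
  have b1 := h.x1; have b2 := h.y1; have b3 := h.y2; have b4 := B.x2
  have hb : (ow θ B).Box x y := by
    rw [box_iff]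
    have := nA_bd (C := C) (B := B) h3 h4
    omega
  have hw : ∀ x, B.n * C.W ≤ x → (wB B).fill x y = crz c0 B.r y := by
    intro x hx
    rw [fill_eq (Or.inr (Or.inl hx))]
    unfold fillC
    have := nA_bd (C := C) (B := B) h3 h4
    rw [if_neg (by omega), if_neg (by omega), if_neg (by omega)]
  by_cases hx : x = B.n * C.W
  · subst hx
    have hz : (wB B).InZ (B.n * C.W) y := by
      rw [inz_iff]
      have := nA_bd (C := C) (B := B) h3 h4
      omega
    rw [mem_LB]
    have n0 : lt (B.n * C.W, y) ∉ ω := fun hm => by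
      have := (((Win.mem_EJ H).1 (hω hm)).z H).2.1
      change B.n * C.W < B.n * C.W at this
      omega
    have n1 : lt (B.n * C.W, y) ∉ Pool.Agent.H85.W.Wo θ B (wB B) (wB B).fill := fun hm =>
      (mem_Wo.1 hm).1 hz
    have H' := rcol_pos (r := B.r) (c := false) H
    have n2 : ¬ (rcol (wB B) B.r false).InE τ (B.n * C.W) y := fun h' => by
      have := (h'.z H').2.1
      change B.n * C.W < B.n * C.W at this
      omega
    have n3 : ¬ (rcol (wB B) B.r false).TA τ (B.n * C.W) y := fun h' => by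
      have := (h'.z H').2.1
      change B.n * C.W < B.n * C.W at this
      omega
    have n4 : ¬ (rcol (wB B) B.r false).TB τ (B.n * C.W) y := fun h' => by
      have := (h'.z H').2.1
      change B.n * C.W < B.n * C.W at this
      omega
    have n5 : (rcol (wB B) B.r false).fill (B.n * C.W) y = crz c0 B.r y := by
      rw [← hw _ le_rfl]
      unfold Win.fill
      change (if y < 0 then (wB B).cb else if (wB B).h ≤ y then (wB B).ct else
        if B.n * C.W < (wB B).a y then (wB B).cl y else if y = B.r then false else (wB B).cr y) =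
        (if y < 0 then (wB B).cb else if (wB B).h ≤ y then (wB B).ct else
        if B.n * C.W < (wB B).a y then (wB B).cl y else (wB B).cr y)
      rw [if_neg h5]
    constructor
    · rintro (h' | h' | h')
      · exact absurd h' n0
      · obtain ⟨-, -, h' | h' | h'⟩ := h'
        · exact absurd h'.1 n3
        · exact absurd h'.1 n4
        · rw [← n5]; exact h'.2.2
      · exact absurd h' n1
    · intro h'
      exact Or.inr (Or.inl ⟨hz, n2, Or.inr (Or.inr ⟨n3, n4, by rw [n5]; exact h'⟩)⟩)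
  · have hz : ¬ (wB B).InZ x y := by rw [inz_iff]; omega
    rw [mem_LB_out hω hz, mem_Wo_in hb hz, hw x h1]

theorem rws_L (h : Mg B) (H : Pos (wB B) τ) (hω : ω ⊆ (wB B).EJ τ) :
    Rws (LB θ B τ ω) c0 B.r (B.n * C.W) B.X2 := by
  have a1 := B.r0; have a2 := B.r1
  intro x h1 h2
  constructor
  · rw [mem_LB_right h H hω h1 h2 (by omega) (by omega) (by omega)]
    unfold crz
    rw [if_pos (by omega)]
  · rw [mem_LB_right h H hω h1 h2 (by omega) (by omega) (by omega)]
    unfold crz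
    rw [if_neg (by omega)]
    cases c0 <;> simp

/-- no label of the string -/
theorem str_L (H : Pos (wB B) τ) (ha : (wB B).a B.r - 1 ≤ s)
    (hω : ω ⊆ (wB B).EJ τ \ Fs (wB B) B.r s) (h1 : s ≤ x) (h2 : x ≤ B.n * C.W) :
    lt (x, B.r) ∉ LB θ B τ ω := by
  have a1 := B.r0; have a2 := B.r1
  have hs : s ≤ (wB B).w := h1.trans h2
  have hz : (wB B).InZ x B.r := by
    rw [inz_iff]
    have k := (wB B).hlo B.r a1.le (by change B.r < B.n * C.H; omega)
    change B.n * C.LO - 1 ≤ _ at k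
    omega
  rw [mem_LB]
  rintro (h | h | h)
  · exact (mem_sdiff.1 (hω h)).2 ((mem_Fs hs).2 ⟨rfl, h1, h2⟩)
  · by_cases hx : x = B.n * C.W
    · subst hx
      have := (wall_WR (D := wB B) (r := B.r) (c := false) H a1.le (by
        change B.r < B.n * C.H; omega)).1
      refine absurd (this ?_) (by simp)
      exact Win.mem_WR.2 h
    · apply h.2.1
      left
      refine ⟨a1.le, ?_, ?_, ?_⟩
      · change B.r < B.n * C.H; omega
      · change (wB B).a B.r - 1 ≤ x; omega
      · change x < B.n * C.W; omega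
  · exact (mem_Wo.1 h).1 hz

/-- **The bridge in the box `B`.** -/
theorem bridge_B (θ : Th C c0) (h : Mg B) (H : Pos (wB B) τ) (ha : (wB B).a B.r - 1 ≤ s)
    (hs : s ≤ B.n * C.W) (h0 : B.X1 < s) (a b c : ℂ) :
    V2 (wB B) B.r s (Pool.Agent.H85.W.Wo θ B (wB B) (wB B).fill) (fun w =>
        io w (Pool.Agent.H85.W.rtW B) (ctW θ B)) τ
      a b c (-tau) = al8 c0 + be8 c0 *
      Ec (opw (fun q => (wB B).wA τ a b c q.1 q.2)) ((wB B).EJ τ \ Fs (wB B) B.r s) (fun ω =>
        Phi C B.n c0 s B.r B.X1 B.X2 B.Y1 B.Y2 (PsT θ) (LB θ B τ ω)) := by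
  have a1 := B.r0; have a2 := B.r1
  have b4 := B.x2
  refine V2_aff (P := Phi C B.n c0 s B.r B.X1 B.X2 B.Y1 B.Y2 (PsT θ)) H a1.le
    (by change B.r < B.n * C.H; omega) ha hs fun ω hω => ?_
  have hω' := hω.trans sdiff_subset
  rw [one_sub_neg_tau]
  exact short_C (full_L h hω') (fst_L h hω') h0 hs
    (show (wB B).w < B.X2 by change B.n * C.W < B.X2; omega) (rws_L h H hω') (odd_L hω')
    (fun x h1 h2 => str_L H ha hω h1 h2)

end conf

end Pool.Agent.H93.W
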