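import Pool.Agent.H11.W.Frz3
import Pool.Agent.H64.Q1.Reg10

set_option autoImplicit false

/-!
# The exchange theorem for networks and regions with weights

`Rgw` : a region as `Rgn` of `H64/Q1/Reg10`, with the weights `t1`, `t2` of the exchange at the ends of the front
in place of angles, grown by `Bw` of `H11/W/Frz1`. `Rgw.ofRgn`: a region with angles. `Rgw.frz`: a frozen line,
arbitrary weights of the tiles. `Rgw.net_exchange`: the exchange theorem for networks.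
-/

namespace Pool.Agent.H93.W

open Pool.Agent.H64.Q1 Pool.Agent.H64.Q1.LP Pool.Agent.H81.G1 Pool.Agent.H13.Q1 Pool.Agent.H11.W

/-! ### Renaming -/

section map

variable {D D' : Type*} [DecidableEq D] [DecidableEq D']

theorem Bw_map {g : LP D} {g' : LP D'} {j : D → D'} (hj : Function.Injective j)
    (hg : ∀ x, g' (j x) = j (g x)) (hd : ∀ x, g'.d (j x) = g.d x) {u v : D} {T : Set D}
    {l : List (Tl D)} {F : List (Fe D)} (h : Bw g u v T l F) :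
    Bw g' (j u) (j v) (j '' T) (l.map (Tl.map j)) (F.map (Fe.map j)) := by
  induction h with
  | nil h =>
    have e : j '' {x | x = u ∨ x = v} = {x | x = j u ∨ x = j v} := by
      ext x
      simp only [Set.mem_image, Set.mem_ofPred_eq]
      constructor
      · rintro ⟨y, rfl | rfl, rfl⟩
        · exact Or.inl rfl
        · exact Or.inr rfl
      · rintro (rfl | rfl)
        · exact ⟨_, Or.inl rfl, rfl⟩
        · exact ⟨_, Or.inr rfl, rfl⟩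
    rw [e]
    exact Bw.nil (by rw [hg, h])
  | @edge T l F1 F2 x k a b h hx ha hab ih =>
    have e : j '' {y | y ∈ T ∨ y = x ∨ y = g x} = {y | y ∈ j '' T ∨ y = j x ∨ y = g' (j x)} := by
      rw [hg]
      ext y
      simp only [Set.mem_image, Set.mem_ofPred_eq]
      constructor
      · rintro ⟨z, hz | rfl | rfl, rfl⟩
        · exact Or.inl ⟨z, hz, rfl⟩
        · exact Or.inr (Or.inl rfl)
        · exact Or.inr (Or.inr rfl)
      · rintro (⟨z, hz, rfl⟩ | rfl | rfl)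
        · exact ⟨z, Or.inl hz, rfl⟩
        · exact ⟨_, Or.inr (Or.inl rfl), rfl⟩
        · exact ⟨_, Or.inr (Or.inr rfl), rfl⟩
    rw [e]
    rw [List.map_append] at ih
    have h1 := Bw.edge (F1.map (Fe.map j)) (F2.map (Fe.map j)) (j x) k a b ih (by
      rintro ⟨y, hy, hyx⟩
      exact hx (hj hyx ▸ hy)) ha hab
    rw [List.map_append, List.map_cons, List.map_cons]
    have e2 : Fe.map j (g x, k + g.d x + 2, b) =
        (g' (j x), k + g'.d (j x) + 2, b) := by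
      unfold Fe.map
      simp only
      rw [hg, hd]
    rw [e2]
    exact h1
  | @fill T l F1 F2 z0 z1 z2 z3 k a0 a1 a2 a3 w h h02 h13 hY ih =>
    rw [List.map_append] at ih
    simp only [List.map_cons] at ih
    have h1 := Bw.fill (F1.map (Fe.map j)) (F2.map (Fe.map j)) (j z0) (j z1) (j z2) (j z3) k a0 a1
      a2 a3 w ih h02 h13 hY
    rw [List.map_append, List.map_cons]
    exact h1
  | @rot T l F x k a h ha ih =>
    rw [List.map_append]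
    rw [List.map_cons] at ih
    exact Bw.rot _ _ _ _ ih ha

end map

/-! ### Regions -/

/-- **A region** with the tiles `R`, the names `A`, the front `f1`, `f2`, the ports `p1`, `p2` -/
structure Rgw (R A : Type*) [DecidableEq A] (n1 n2 : ℕ) where
  g : LP A
  u : A
  v : A
  er : R × Dir → A
  f1 : Fin n1 → A
  f2 : Fin n2 → A
  kf : A → ℤ
  t1 : Fin n1 → ℂ
  t2 : Fin n2 → ℂ
  p1 : Fin n1 → R × Dir
  p2 : Fin n2 → R × Dir
  st : R → Dir
  I : List R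
  wt : R → ℂ
  nd : I.Nodup
  all : ∀ i, i ∈ I
  er_inj : Function.Injective er
  kuv : kf u = 0 ∧ kf v = 0
  erf : ∀ x, er x ≠ u ∧ er x ≠ v ∧ (∀ i, er x ≠ f1 i) ∧ ∀ i, er x ≠ f2 i
  gp1 : ∀ i, g (er (p1 i)) = f1 i
  gp2 : ∀ i, g (er (p2 i)) = f2 i
  cls : ∀ x, (∃ y, g (er x) = er y) ∨ (∃ i, x = p1 i) ∨ ∃ i, x = p2 i
  bt : ∃ T, Bw g u v T (I.map (rgT er st wt))
    (List.ofFn (fun i => (f1 i, kf (f1 i), t1 i)) ++ List.ofFn fun i => (f2 i, kf (f2 i), t2 i))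


/-- the ends of a tile -/
def ends {D : Type*} (t : Tl D) : D × D × D × D := (t.z0, t.z1, t.z2, t.z3)

/-- **A growth with angles is a growth for a frozen line, with arbitrary weights of the tiles.** -/
theorem Bt_bz {D : Type*} [DecidableEq D] {ζ : ℂ} (hζ : Fz ζ) {g : LP D} {u v : D} {T : Set D}
    {l : List (Tl D)} {F : List (Fe D)} (h : Bt g u v T l F) (l' : List (Tl D))
    (hl : l'.map ends = l.map ends) : Bz ζ g u v T l' (F.map fun c => (c.1, c.2.1)) := by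
  induction h generalizing l' with
  | nil h =>
    rw [List.map_nil, List.map_eq_nil_iff] at hl
    subst hl
    exact Bz.nil h
  | edge F1 F2 x k θ h hx hθ ih =>
    have h1 := ih l' hl
    rw [List.map_append] at h1 ⊢
    exact Bz.edge hζ _ _ x k h1 hx
  | fill F1 F2 z0 z1 z2 z3 k θ0 θ1 h hw ih =>
    cases l' with
    | nil => exact absurd hl (by simp)
    | cons t l' =>
      rw [List.map_cons, List.map_cons, List.cons.injEq] at hl
      obtain ⟨ht, hl⟩ := hl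
      obtain ⟨y0, y1, y2, y3, w⟩ := t
      simp only [ends, Prod.mk.injEq] at ht
      obtain ⟨rfl, rfl, rfl, rfl⟩ := ht
      have h1 := ih l' hl
      rw [List.map_append] at h1 ⊢
      exact Bz.fill hζ _ _ _ _ _ _ k w h1
  | rot F x k θ h ih =>
    have h1 := ih l' hl
    rw [List.map_append]
    exact Bz.rot hζ _ x k h1

/-- **A region with angles.** -/
noncomputable def Rgw.ofRgn {R A : Type*} [DecidableEq A] {n1 n2 : ℕ}
    (X : Rgn R A n1 n2) : Rgw R A n1 n2 where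
  g := X.g
  u := X.u
  v := X.v
  er := X.er
  f1 := X.f1
  f2 := X.f2
  kf := X.kf
  t1 := fun i => wa (X.t1 i)
  t2 := fun i => wa (X.t2 i)
  p1 := X.p1
  p2 := X.p2
  st := X.st
  I := X.I
  wt := X.wt
  nd := X.nd
  all := X.all
  er_inj := X.er_inj
  kuv := X.kuv
  erf := X.erf
  gp1 := X.gp1
  gp2 := X.gp2
  cls := X.cls
  bt := by
    obtain ⟨T, hT⟩ := X.bt
    refine ⟨T, ?_⟩
    have h1 := Bt.bw hT
    rw [fwa, List.map_append, List.map_ofFn, List.map_ofFn] at h1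
    exact h1

/-- **A region with a frozen line, arbitrary weights of the tiles.** -/
noncomputable def Rgw.frz {R A : Type*} [DecidableEq A] {n1 n2 : ℕ} (X : Rgn R A n1 n2) {ζ : ℂ}
    (hζ : Fz ζ) (wt : R → ℂ) : Rgw R A n1 n2 where
  g := X.g
  u := X.u
  v := X.v
  er := X.er
  f1 := X.f1
  f2 := X.f2
  kf := X.kf
  t1 := fun _ => ζ
  t2 := fun _ => ζ
  p1 := X.p1
  p2 := X.p2
  st := X.st
  I := X.I
  wt := wt
  nd := X.nd
  all := X.all
  er_inj := X.er_inj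
  kuv := X.kuv
  erf := X.erf
  gp1 := X.gp1
  gp2 := X.gp2
  cls := X.cls
  bt := by
    obtain ⟨T, hT⟩ := X.bt
    refine ⟨T, ?_⟩
    have h1 := Bt_bz hζ hT (X.I.map (rgT X.er X.st wt)) (by
      rw [List.map_map, List.map_map]; rfl)
    unfold Bz fz at h1
    rw [List.map_map, List.map_append, List.map_ofFn, List.map_ofFn] at h1
    exact h1

namespace Rgw

variable {R A : Type*} [DecidableEq A] {n1 n2 : ℕ} (X : Rgw R A n1 n2)

theorem fn1 : fn (List.ofFn (fun i => (X.f1 i, X.kf (X.f1 i), X.t1 i)) ++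
    List.ofFn fun i => (X.f2 i, X.kf (X.f2 i), X.t2 i)) =
      List.ofFn X.f1 ++ List.ofFn X.f2 := by
  rw [fn_append]
  unfold fn
  rw [List.map_ofFn, List.map_ofFn]
  rfl

theorem f1_inj : Function.Injective X.f1 := by
  obtain ⟨T, h⟩ := X.bt
  have h1 := h.inv.nd
  rw [X.fn1, List.nodup_append] at h1
  exact List.nodup_ofFn.1 h1.1

theorem f2_inj : Function.Injective X.f2 := by
  obtain ⟨T, h⟩ := X.bt
  have h1 := h.inv.nd
  rw [X.fn1, List.nodup_append] at h1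
  exact List.nodup_ofFn.1 h1.2.1

theorem f1_ne_f2 (i : Fin n1) (j : Fin n2) : X.f1 i ≠ X.f2 j := by
  obtain ⟨T, h⟩ := X.bt
  have h1 := h.inv.nd
  rw [X.fn1, List.nodup_append] at h1
  exact h1.2.2 _ ((List.mem_ofFn' _ _).2 ⟨i, rfl⟩) _ ((List.mem_ofFn' _ _).2 ⟨j, rfl⟩)

theorem f1_uv (i : Fin n1) : X.f1 i ≠ X.u ∧ X.f1 i ≠ X.v := by
  obtain ⟨T, h⟩ := X.bt
  have h1 := h.inv.F0
  rw [X.fn1] at h1
  have h2 : X.f1 i ∈ List.ofFn X.f1 ++ List.ofFn X.f2 :=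
    List.mem_append_left _ ((List.mem_ofFn' _ _).2 ⟨i, rfl⟩)
  exact ⟨fun e => h1.1 (e ▸ h2), fun e => h1.2 (e ▸ h2)⟩

theorem f2_uv (i : Fin n2) : X.f2 i ≠ X.u ∧ X.f2 i ≠ X.v := by
  obtain ⟨T, h⟩ := X.bt
  have h1 := h.inv.F0
  rw [X.fn1] at h1
  have h2 : X.f2 i ∈ List.ofFn X.f1 ++ List.ofFn X.f2 :=
    List.mem_append_right _ ((List.mem_ofFn' _ _).2 ⟨i, rfl⟩)
  exact ⟨fun e => h1.1 (e ▸ h2), fun e => h1.2 (e ▸ h2)⟩

theorem guv : X.g X.u = X.v := by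
  obtain ⟨T, h⟩ := X.bt
  exact h.inv.gu

theorem p1_inj : Function.Injective X.p1 := fun i j h => X.f1_inj (by
  rw [← X.gp1, ← X.gp1, h])

theorem p2_inj : Function.Injective X.p2 := fun i j h => X.f2_inj (by
  rw [← X.gp2, ← X.gp2, h])

variable (h1 : 0 < n1) (h2 : 0 < n2)

/-- the turnings of the exposures of the first network -/
def lam1 {O : Type*} : Ex O n1 n2 → ℤ
  | .f1 _ => 0
  | .f2 i => X.g.d (X.er (X.p2 i))
  | .o _ => 0
  | .u => 0 - (X.kf (X.f1 ⟨n1 - 1, by omega⟩) + 1)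
  | .v => 1 - X.kf (X.f1 ⟨0, h1⟩) + 0

/-- the turnings of the exposures of the second network -/
def lam2 {O : Type*} : Ex O n1 n2 → ℤ
  | .f1 i => X.g.d (X.er (X.p1 i))
  | .f2 _ => 0
  | .o _ => 0
  | .u => 1 - X.kf (X.f2 ⟨0, h2⟩) + 0
  | .v => 4 - (X.kf (X.f2 ⟨n2 - 1, by omega⟩) + 1)

variable {O ι1 ι2 : Type*}

/-- the exposed ends of the first network -/
def E1 (J : R ⊕ O ⊕ Fin n1 ≃ ι1) (s : Fin n1 → Dir) : Ex O n1 n2 → ι1 × Dir
  | .f1 i => jl J i (rc (rc (rc (s i))))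
  | .f2 i => jr J (X.p2 i)
  | .o x => jo J x
  | .u => jl J ⟨n1 - 1, by omega⟩ (rc (rc (s ⟨n1 - 1, by omega⟩)))
  | .v => jl J ⟨0, h1⟩ (s ⟨0, h1⟩)

/-- the exposed ends of the second network -/
def E2 (J : R ⊕ O ⊕ Fin n2 ≃ ι2) (s : Fin n2 → Dir) : Ex O n1 n2 → ι2 × Dir
  | .f1 i => jr J (X.p1 i)
  | .f2 i => jl J i (rc (rc (rc (s i))))
  | .o x => jo J x
  | .u => jl J ⟨0, h2⟩ (s ⟨0, h2⟩)
  | .v => jl J ⟨n2 - 1, by omega⟩ (rc (rc (s ⟨n2 - 1, by omega⟩)))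

/-- the names of the exposures -/
def ex {C E : Type*} : Ex O n1 n2 → Nm A (O × Dir) C E
  | .f1 i => .r (X.f1 i)
  | .f2 i => .r (X.f2 i)
  | .o x => .o x true
  | .u => .r X.u
  | .v => .r X.v

theorem ex_inj {C E : Type*} : Function.Injective (X.ex (O := O) (C := C) (E := E)) := by
  have huv : X.u ≠ X.v := by rw [← X.guv]; exact X.g.ne2 _
  rintro (i | i | x | _ | _) (j | j | y | _ | _) h <;> simp only [ex] at h
  · rw [X.f1_inj (Nm.r.inj h)]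
  · exact absurd (Nm.r.inj h) (X.f1_ne_f2 _ _)
  · exact absurd h (by simp)
  · exact absurd (Nm.r.inj h) (X.f1_uv _).1
  · exact absurd (Nm.r.inj h) (X.f1_uv _).2
  · exact absurd (Nm.r.inj h).symm (X.f1_ne_f2 _ _)
  · rw [X.f2_inj (Nm.r.inj h)]
  · exact absurd h (by simp)
  · exact absurd (Nm.r.inj h) (X.f2_uv _).1
  · exact absurd (Nm.r.inj h) (X.f2_uv _).2
  · exact absurd h (by simp)
  · exact absurd h (by simp)
  · rw [(Nm.o.inj h).1]
  · exact absurd h (by simp)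
  · exact absurd h (by simp)
  · exact absurd (Nm.r.inj h).symm (X.f1_uv _).1
  · exact absurd (Nm.r.inj h).symm (X.f2_uv _).1
  · exact absurd h (by simp)
  · rfl
  · exact absurd (Nm.r.inj h) huv
  · exact absurd (Nm.r.inj h).symm (X.f1_uv _).2
  · exact absurd (Nm.r.inj h).symm (X.f2_uv _).2
  · exact absurd h (by simp)
  · exact absurd (Nm.r.inj h).symm huv
  · rfl

theorem exps1 {C E : Type*} (J : R ⊕ O ⊕ Fin n1 ≃ ι1) (s : Fin n1 → Dir) :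
    Exps (C := C) (Q := Ex O n1 n2) X.er X.p1 X.p2 (fun i => X.kf (X.f1 i)) X.g X.f1 X.f2 X.u X.v
      0 0 J s (X.E1 h1 J s) (X.lam1 h1) X.ex := by
  refine ⟨?_, fun i => ⟨.f1 i, rfl⟩, fun i => ⟨.f2 i, rfl⟩, fun x => ⟨.o x, rfl⟩, ?_, ?_, X.ex_inj⟩
  · rintro (i | i | x | _ | _)
    · exact Or.inl ⟨i, rfl, rfl, rfl⟩
    · exact Or.inr (Or.inl ⟨i, rfl, rfl, rfl⟩)
    · exact Or.inr (Or.inr (Or.inl ⟨x, rfl, rfl, rfl⟩))
    · exact Or.inr (Or.inr (Or.inr (Or.inl ⟨⟨n1 - 1, by omega⟩, by simp; omega, rfl, rfl, rfl⟩)))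
    · exact Or.inr (Or.inr (Or.inr (Or.inr ⟨⟨0, h1⟩, rfl, rfl, rfl, rfl⟩)))
  · intro i hi
    have : i = ⟨n1 - 1, by omega⟩ := Fin.ext (by simp; omega)
    refine ⟨.u, ?_⟩
    rw [this]
    rfl
  · intro i hi
    have : i = ⟨0, h1⟩ := Fin.ext hi
    subst this
    exact ⟨.v, rfl⟩

theorem exps2 {C E : Type*} (J : R ⊕ O ⊕ Fin n2 ≃ ι2) (s : Fin n2 → Dir) :
    Exps (C := C) (Q := Ex O n1 n2) X.er X.p2 X.p1 (fun i => X.kf (X.f2 i)) X.g X.f2 X.f1 X.v X.u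
      4 0 J s (X.E2 h2 J s) (X.lam2 h2) X.ex := by
  refine ⟨?_, fun i => ⟨.f2 i, rfl⟩, fun i => ⟨.f1 i, rfl⟩, fun x => ⟨.o x, rfl⟩, ?_, ?_, X.ex_inj⟩
  · rintro (i | i | x | _ | _)
    · exact Or.inr (Or.inl ⟨i, rfl, rfl, rfl⟩)
    · exact Or.inl ⟨i, rfl, rfl, rfl⟩
    · exact Or.inr (Or.inr (Or.inl ⟨x, rfl, rfl, rfl⟩))
    · exact Or.inr (Or.inr (Or.inr (Or.inr ⟨⟨0, h2⟩, rfl, rfl, rfl, rfl⟩)))
    · exact Or.inr (Or.inr (Or.inr (Or.inl ⟨⟨n2 - 1, by omega⟩, by simp; omega, rfl, rfl, rfl⟩)))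
  · intro i hi
    have : i = ⟨n2 - 1, by omega⟩ := Fin.ext (by simp; omega)
    refine ⟨.v, ?_⟩
    rw [this]
    rfl
  · intro i hi
    have : i = ⟨0, h2⟩ := Fin.ext hi
    subst this
    exact ⟨.u, rfl⟩

end Rgw

/-! ### The theorem -/

section main

variable {R A O ι1 ι2 : Type*} [DecidableEq A] [DecidableEq O] [Fintype O] [Fintype ι1]
  [DecidableEq ι1] [Fintype ι2] [DecidableEq ι2] {n1 n2 : ℕ}

namespace Rgw

/-- the names of a line are fresh -/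
theorem fresh_line (X : Rgw R A n1 n2) (gE : LP (Ex O n1 n2 ⊕ Fin 4)) {n : ℕ} (T : Set A)
    {cL : Fin n → Fin n1 ⊕ Fin n2} (hcL : Function.Injective cL) (fL : Fin n → A) (p : Fin n → ℂ)
    (kC : Fin n1 ⊕ Fin n2 → ℤ) :
    Fresh (gN X.g gE) (Nm.r '' T) (kN (B := O × Dir) X.kf kC) (List.ofFn (lnT cL fL p)) := by
  refine ⟨?_, ?_, ?_, ?_, ?_⟩
  · intro t ht x hx
    obtain ⟨i, rfl⟩ := (List.mem_ofFn' _ _).1 ht
    rintro ⟨y, -, rfl⟩
    rcases hx with h | h | h | h <;> simp [lnT] at h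
  · intro t ht
    obtain ⟨i, rfl⟩ := (List.mem_ofFn' _ _).1 ht
    simp [lnT]
  · rw [List.pairwise_ofFn]
    intro i j hij x hx hx'
    have h1 : cL i ≠ cL j := fun h => hij.ne (hcL h)
    rcases hx with h | h | h | h <;> rcases hx' with h' | h' | h' | h' <;>
      rw [h] at h' <;> simp only [lnT] at h' <;> exact h1 (Nm.l.inj h').1
  · intro t ht
    obtain ⟨i, rfl⟩ := (List.mem_ofFn' _ _).1 ht
    exact ⟨rfl, rfl, rfl⟩
  · intro t ht
    obtain ⟨i, rfl⟩ := (List.mem_ofFn' _ _).1 ht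
    exact ⟨rfl, rfl, rfl, rfl⟩

/-- **The exchange theorem for networks with a given outer wiring.** -/
theorem net_exchange (X : Rgw R A n1 n2) (h1 : 0 < n1) (h2 : 0 < n2)
    {N1 : Net ι1} {N2 : Net ι2} {P1 : ι1 → Bool} {P2 : ι2 → Bool} (G1 : N1.Good P1)
    (G2 : N2.Good P2) (J1 : R ⊕ O ⊕ Fin n1 ≃ ι1) (J2 : R ⊕ O ⊕ Fin n2 ≃ ι2)
    (s1 : Fin n1 → Dir) (s2 : Fin n2 → Dir)
    (H1 : LineNet X.g X.er X.p1 (fun i => X.kf (X.f1 i)) J1 s1 N1)
    (H2 : LineNet X.g X.er X.p2 (fun i => X.kf (X.f2 i)) J2 s2 N2)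
    (ρ : LP (Ex O n1 n2))
    (hρ1 : ∀ q, N1.π (X.E1 h1 J1 s1 q) = X.E1 h1 J1 s1 (ρ q) ∧
      N1.t (X.E1 h1 J1 s1 q) = X.lam1 h1 q + ρ.d q - X.lam1 h1 (ρ q))
    (hρ2 : ∀ q, N2.π (X.E2 h2 J2 s2 q) = X.E2 h2 J2 s2 (ρ q) ∧
      N2.t (X.E2 h2 J2 s2 q) = X.lam2 h2 q + ρ.d q - X.lam2 h2 (ρ q))
    {q0 q1 : Ex O n1 n2} (hq : q1 ≠ q0) (hq' : q1 ≠ ρ q0)
    (x01 : N1.x0 = X.E1 h1 J1 s1 q0) (y01 : N1.y0 = X.E1 h1 J1 s1 q1)
    (x02 : N2.x0 = X.E2 h2 J2 s2 q0) (y02 : N2.y0 = X.E2 h2 J2 s2 q1)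
    {a1 b1 : ι1 → ℂ} {a2 b2 : ι2 → ℂ} (hab1 : ∀ i, a1 i + b1 i = 1) (hab2 : ∀ i, a2 i + b2 i = 1)
    (wR1 : ∀ i, (if (X.st i).v then a1 (J1 (.inl i)) else b1 (J1 (.inl i))) = X.wt i)
    (wR2 : ∀ i, (if (X.st i).v then a2 (J2 (.inl i)) else b2 (J2 (.inl i))) = X.wt i)
    (wO : ∀ o, b1 (J1 (.inr (.inl o))) = b2 (J2 (.inr (.inl o))))
    (wL1 : ∀ i, (if (s1 i).v then a1 (J1 (.inr (.inr i))) else b1 (J1 (.inr (.inr i)))) =
      X.t1 i)
    (wL2 : ∀ i, (if (s2 i).v then a2 (J2 (.inr (.inr i))) else b2 (J2 (.inr (.inr i)))) =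
      1 - (X.t2 i)⁻¹) :
    N2.Z a2 b2 = zt ^ (2 * ((X.lam2 h2 q1 - X.lam1 h1 q1) - (X.lam2 h2 q0 - X.lam1 h1 q0))) *
      N1.Z a1 b1 := by
  classical
  obtain ⟨T, hT⟩ := X.bt
  have huv : X.u ≠ X.v := by rw [← X.guv]; exact X.g.ne2 _
  set gE : LP (Ex O n1 n2 ⊕ Fin 4) := cut ρ hq hq' with hgE
  set kC : Fin n1 ⊕ Fin n2 → ℤ := Sum.elim (fun i => X.kf (X.f1 i)) (fun i => X.kf (X.f2 i)) with hkC
  set κ : NN A O n1 n2 → ℤ := kN X.kf kC with hκ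
  set κ2 : NN A O n1 n2 → ℤ := Function.update κ (.r X.v) 4 with hκ2
  set g : LP (NN A O n1 n2) := gN X.g gE with hg
  set L1 : List (Lt (NN A O n1 n2)) :=
    List.ofFn (lnT Sum.inl X.f1 X.t1) with hL1
  set L2 : List (Lt (NN A O n1 n2)) :=
    List.ofFn (lnT Sum.inr X.f2 (fun i => 1 - (X.t2 i)⁻¹)) with hL2
  have κu : κ (.r X.u) = 0 := X.kuv.1
  have κv : κ (.r X.v) = 0 := X.kuv.2
  have κ2v : κ2 (.r X.v) = 4 := Function.update_self _ _ _
  have κ2u : κ2 (.r X.u) = 0 := by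
    rw [hκ2, Function.update_of_ne (fun e => huv (Nm.r.inj e)), κu]
  -- the two sides
  obtain ⟨A1, B1⟩ := side_half (C := Fin n1 ⊕ Fin n2) (Q := Ex O n1 n2) (gE := gE) (κ0 := κ)
    (κ := κ) (c := 2) (cL := Sum.inl) X.guv (Or.inl ⟨rfl, rfl⟩) X.er_inj Sum.inl_injective X.f1_inj
    X.erf X.f1_uv X.f2_uv (fun i j => (X.f1_ne_f2 j i).symm) X.gp1 X.gp2 X.cls
    (fun _ _ _ => rfl) (fun i => ⟨rfl, rfl, rfl, rfl, rfl⟩)
    ⟨fun _ => rfl, fun h => absurd h huv⟩ X.t1 H1 (by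
      rw [κu, κv]; exact X.exps1 (E := Ex O n1 n2 ⊕ Fin 4) h1 J1 s1) hρ1
  obtain ⟨A2, B2⟩ := side_half (C := Fin n1 ⊕ Fin n2) (Q := Ex O n1 n2) (gE := gE) (κ0 := κ)
    (κ := κ2) (c := -2) (cL := Sum.inr) X.guv (Or.inr ⟨rfl, rfl⟩) X.er_inj Sum.inr_injective
    X.f2_inj (fun x => ⟨(X.erf x).1, (X.erf x).2.1, (X.erf x).2.2.2, (X.erf x).2.2.1⟩)
    X.f2_uv X.f1_uv X.f1_ne_f2 X.gp2 X.gp1 (fun x => (X.cls x).imp id Or.symm)
    (fun x hx _ => Function.update_of_ne hx _ _) (fun i => ⟨rfl, rfl, rfl, rfl, rfl⟩)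
    ⟨fun h => absurd h.symm huv, fun _ => rfl⟩ (fun i => 1 - (X.t2 i)⁻¹) H2 (by
      rw [κ2u, κ2v]; exact X.exps2 (E := Ex O n1 n2 ⊕ Fin 4) h2 J2 s2) hρ2
  have R1 := A1.rlz hq hq' B1 x01 y01
  have R2 := A2.rlz hq hq' B2 x02 y02
  have Z1 := R1.Z G1 (allT_nodup J1 X.nd) (allT_all J1 X.all) a1 b1 hab1 (stJ J1 X.st s1)
  have Z2 := R2.Z G2 (allT_nodup J2 X.nd) (allT_all J2 X.all) a2 b2 hab2 (stJ J2 X.st s2)
  rw [allT_map J1 X.I X.er Sum.inl X.f1 s1 X.st X.wt X.t1 wR1 wL1,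
    SF_append] at Z1
  rw [allT_map J2 X.I X.er Sum.inr X.f2 s2 X.st X.wt (fun i => 1 - (X.t2 i)⁻¹) wR2 wL2,
    SF_append] at Z2
  have hO : (fun o => b1 (J1 (.inr (.inl o)))) = fun o => b2 (J2 (.inr (.inl o))) := funext wO
  rw [hO] at Z1
  -- the exchange
  have hB := Bw_map (g' := g) (j := Nm.r) (fun a b h => Nm.r.inj h) (fun _ => rfl) (fun _ => rfl) hT
  rw [List.map_append, List.map_ofFn, List.map_ofFn] at hB
  set V := sockets (X.ex (O := O) (C := Fin n1 ⊕ Fin n2) (E := Ex O n1 n2 ⊕ Fin 4))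
    (fun q => Nm.s (.inl q)) with hV
  set Ψ : LP (NN A O n1 n2) → ℂ := fun s => SF s (lO fun o => b2 (J2 (.inr (.inl o))))
    (fun r => obn (Nm.s (.inr 0)) (Nm.s (.inr 3)) (jns V r)) with hΨ
  have key := Bw.exchange (L1 := L1) (L2 := L2) (κ := κ) (κ2 := κ2) (Ψ := Ψ) hB (by
      intro c hc
      rcases List.mem_append.1 hc with hc | hc
      · obtain ⟨i, rfl⟩ := (List.mem_ofFn' _ _).1 hc
        rfl
      · obtain ⟨i, rfl⟩ := (List.mem_ofFn' _ _).1 hc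
        rfl) (by rw [κ2v, κv]; rfl) (fun z hz => Function.update_of_ne hz _ _) (by
      rw [hL1, List.map_ofFn, List.map_ofFn]; rfl) (by
      rw [hL2, List.map_ofFn, List.map_ofFn]; rfl)
    (fresh_line X gE T Sum.inl_injective _ _ kC) (fresh_line X gE T Sum.inr_injective _ _ kC)
    (by
      intro x hx hx'
      obtain ⟨i, d, e⟩ := mem_le_line hx
      obtain ⟨i', d', e'⟩ := mem_le_line hx'
      rw [e] at e'
      exact absurd (Nm.l.inj e').1 (by simp)) (by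
      have nle : ∀ x : NN A O n1 n2, (∀ c d, x ≠ .l c d) → ¬ Le L1 x ∧ ¬ Le L2 x := by
        intro x hx
        refine ⟨fun h => ?_, fun h => ?_⟩
        · obtain ⟨i, d, e⟩ := mem_le_line h; exact hx _ _ e
        · obtain ⟨i, d, e⟩ := mem_le_line h; exact hx _ _ e
      have ms : ∀ x, (Nm.s x : NN A O n1 n2) ∉ Nm.r '' T := by rintro x ⟨y, -, h⟩; simp at h
      have mo : ∀ x b, (Nm.o x b : NN A O n1 n2) ∉ Nm.r '' T := by
        rintro x b ⟨y, -, h⟩; simp at h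
      apply Dep.SF
      · apply Dep.jns
        · apply obn_dep
          exact ⟨Or.inr (ms _), nle _ (by simp)⟩
        · intro x hx
          rw [hV, jm_sockets] at hx
          obtain ⟨q, h | h⟩ := hx
          · rw [h]
            rcases q with i | i | y | _ | _
            · refine ⟨Or.inl (Or.inr (Or.inr ?_)), nle _ (by simp [Rgw.ex])⟩
              rw [fn_append, List.mem_append]
              left
              exact List.mem_map.2 ⟨_, (List.mem_ofFn' _ _).2 ⟨i, rfl⟩, rfl⟩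
            · refine ⟨Or.inl (Or.inr (Or.inr ?_)), nle _ (by simp [Rgw.ex])⟩
              rw [fn_append, List.mem_append]
              right
              exact List.mem_map.2 ⟨_, (List.mem_ofFn' _ _).2 ⟨i, rfl⟩, rfl⟩
            · exact ⟨Or.inr (mo _ _), nle _ (by simp [Rgw.ex])⟩
            · exact ⟨Or.inl (Or.inl rfl), nle _ (by simp [Rgw.ex])⟩
            · exact ⟨Or.inl (Or.inr (Or.inl rfl)), nle _ (by simp [Rgw.ex])⟩
          · rw [h]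
            exact ⟨Or.inr (ms _), nle _ (by simp)⟩
      · intro t ht
        unfold lO at ht
        obtain ⟨o, -, rfl⟩ := List.mem_map.1 ht
        exact ⟨⟨Or.inr (mo _ _), nle _ (by simp)⟩, ⟨Or.inr (mo _ _), nle _ (by simp)⟩,
          ⟨Or.inr (mo _ _), nle _ (by simp)⟩, ⟨Or.inr (mo _ _), nle _ (by simp)⟩⟩)
  have Z1' : zt ^ (-2 * (-X.lam1 h1 q0 + X.lam1 h1 q1)) * N1.Z a1 b1 =
      SF (Jn κ κ (.r X.u) (.r X.v) (.r X.u) 2 L1 g) ((L1.map Lt.tl).reverse ++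
        (X.I.map (rgT X.er X.st X.wt)).map (Tl.map Nm.r)) Ψ := Z1
  have Z2' : zt ^ (-2 * (-X.lam2 h2 q0 + X.lam2 h2 q1)) * N2.Z a2 b2 =
      SF (Jn κ κ2 (.r X.u) (.r X.v) (.r X.v) (-2) L2 g) ((L2.map Lt.tl).reverse ++
        (X.I.map (rgT X.er X.st X.wt)).map (Tl.map Nm.r)) Ψ := Z2
  rw [← Z1', ← Z2'] at key
  have e1 : N2.Z a2 b2 = zt ^ (2 * (-X.lam2 h2 q0 + X.lam2 h2 q1)) *
      (zt ^ (-2 * (-X.lam2 h2 q0 + X.lam2 h2 q1)) * N2.Z a2 b2) := by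
    rw [← mul_assoc, ← zpow_add₀ zt_ne]
    have : 2 * (-X.lam2 h2 q0 + X.lam2 h2 q1) + -2 * (-X.lam2 h2 q0 + X.lam2 h2 q1) = 0 := by ring
    rw [this, zpow_zero, one_mul]
  rw [e1, ← key, ← mul_assoc, ← zpow_add₀ zt_ne]
  congr 2
  ring

end Rgw

end main

end Pool.Agent.H93.W
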