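import Pool.Agent.H93.W.Rgw
import Pool.Agent.H64.Q1.Reg11

set_option autoImplicit false

/-!
# The exchange theorem for environments and regions with weights
-/

namespace Pool.Agent.H93.W

open Pool.Agent.H64.Q1 Pool.Agent.H64.Q1.LP Pool.Agent.H81.G1 Pool.Agent.H13.Q1 Pool.Agent.Q1 Pool.Agent.H11.W
open Pool.Agent.H75.Perc Pool.Agent.H75.TwoArm

/-! ### The theorem -/

section pair

variable {R A O ι1 ι2 : Type*} [DecidableEq A] [DecidableEq O] [Fintype O] [Fintype ι1]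
  [DecidableEq ι1] [Fintype ι2] [DecidableEq ι2] {n1 n2 : ℕ}

namespace Rgw

variable (X : Rgw R A n1 n2) (h1 : 0 < n1) (h2 : 0 < n2)

omit [DecidableEq O] [Fintype O] [Fintype ι1] [DecidableEq ι1] in
theorem E1_inj (J : R ⊕ O ⊕ Fin n1 ≃ ι1) (s : Fin n1 → Dir) :
    Function.Injective (X.E1 (n2 := n2) h1 J s) := by
  obtain ⟨hl, hr, ho, hlr, hlo, hro⟩ := Rgn.J_facts J
  have hne3 : ∀ d : Dir, rc (rc (rc d)) ≠ d := fun d => (Rgn.rc_ne d).2.2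
  have hne2 : ∀ d : Dir, rc (rc d) ≠ d := fun d => (Rgn.rc_ne d).2.1
  have hne1 : ∀ d : Dir, rc d ≠ d := fun d => (Rgn.rc_ne d).1
  rintro (i | i | x | _ | _) (j | j | y | _ | _) h <;> simp only [E1] at h
  · rw [(hl _ _ _ _ h).1]
  · exact absurd h (hlr _ _ _)
  · exact absurd h (hlo _ _ _)
  · obtain ⟨rfl, h'⟩ := hl _ _ _ _ h
    exact absurd h' (hne1 _)
  · obtain ⟨rfl, h'⟩ := hl _ _ _ _ h
    exact absurd h' (hne3 _)
  · exact absurd h.symm (hlr _ _ _)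
  · rw [X.p2_inj (hr _ _ h)]
  · exact absurd h (hro _ _)
  · exact absurd h.symm (hlr _ _ _)
  · exact absurd h.symm (hlr _ _ _)
  · exact absurd h.symm (hlo _ _ _)
  · exact absurd h.symm (hro _ _)
  · rw [ho _ _ h]
  · exact absurd h.symm (hlo _ _ _)
  · exact absurd h.symm (hlo _ _ _)
  · obtain ⟨e, h'⟩ := hl _ _ _ _ h
    rw [e] at h'
    exact absurd h'.symm (hne1 _)
  · exact absurd h (hlr _ _ _)
  · exact absurd h (hlo _ _ _)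
  · rfl
  · obtain ⟨e, h'⟩ := hl _ _ _ _ h
    rw [e] at h'
    exact absurd h' (hne2 _)
  · obtain ⟨e, h'⟩ := hl _ _ _ _ h
    rw [e] at h'
    exact absurd h'.symm (hne3 _)
  · exact absurd h (hlr _ _ _)
  · exact absurd h (hlo _ _ _)
  · obtain ⟨e, h'⟩ := hl _ _ _ _ h
    rw [← e] at h'
    exact absurd h'.symm (hne2 _)
  · rfl

omit [DecidableEq O] [Fintype O] [Fintype ι2] [DecidableEq ι2] in
theorem E2_inj (J : R ⊕ O ⊕ Fin n2 ≃ ι2) (s : Fin n2 → Dir) :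
    Function.Injective (X.E2 (n1 := n1) h2 J s) := by
  obtain ⟨hl, hr, ho, hlr, hlo, hro⟩ := Rgn.J_facts J
  have hne3 : ∀ d : Dir, rc (rc (rc d)) ≠ d := fun d => (Rgn.rc_ne d).2.2
  have hne2 : ∀ d : Dir, rc (rc d) ≠ d := fun d => (Rgn.rc_ne d).2.1
  have hne1 : ∀ d : Dir, rc d ≠ d := fun d => (Rgn.rc_ne d).1
  rintro (i | i | x | _ | _) (j | j | y | _ | _) h <;> simp only [E2] at h
  · rw [X.p1_inj (hr _ _ h)]
  · exact absurd h.symm (hlr _ _ _)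
  · exact absurd h (hro _ _)
  · exact absurd h.symm (hlr _ _ _)
  · exact absurd h.symm (hlr _ _ _)
  · exact absurd h (hlr _ _ _)
  · rw [(hl _ _ _ _ h).1]
  · exact absurd h (hlo _ _ _)
  · obtain ⟨rfl, h'⟩ := hl _ _ _ _ h
    exact absurd h' (hne3 _)
  · obtain ⟨rfl, h'⟩ := hl _ _ _ _ h
    exact absurd h' (hne1 _)
  · exact absurd h.symm (hro _ _)
  · exact absurd h.symm (hlo _ _ _)
  · rw [ho _ _ h]
  · exact absurd h.symm (hlo _ _ _)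
  · exact absurd h.symm (hlo _ _ _)
  · exact absurd h (hlr _ _ _)
  · obtain ⟨e, h'⟩ := hl _ _ _ _ h
    rw [e] at h'
    exact absurd h'.symm (hne3 _)
  · exact absurd h (hlo _ _ _)
  · rfl
  · obtain ⟨e, h'⟩ := hl _ _ _ _ h
    rw [← e] at h'
    exact absurd h'.symm (hne2 _)
  · exact absurd h (hlr _ _ _)
  · obtain ⟨e, h'⟩ := hl _ _ _ _ h
    rw [e] at h'
    exact absurd h'.symm (hne1 _)
  · exact absurd h (hlo _ _ _)
  · obtain ⟨e, h'⟩ := hl _ _ _ _ h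
    rw [e] at h'
    exact absurd h' (hne2 _)
  · rfl

/-- difference of the turnings of the exposures -/
def dl {O : Type*} (q : Ex O n1 n2) : ℤ := X.lam2 h2 q - X.lam1 h1 q

end Rgw

/-- **Data for the comparison of two environments** -/
structure EPw (X : Rgw R A n1 n2) (h1 : 0 < n1) (h2 : 0 < n2) {X1 X2 : Env}
    {lb1 : ι1 → ℤ × ℤ} {lb2 : ι2 → ℤ × ℤ} {P1 : ι1 → Bool} {P2 : ι2 → Bool}
    {cr1 : ι1 × Dir → ℤ × ℤ} {cr2 : ι2 × Dir → ℤ × ℤ}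
    (T1 : Tiles X1 lb1 P1 cr1) (T2 : Tiles X2 lb2 P2 cr2) (J1 : R ⊕ O ⊕ Fin n1 ≃ ι1)
    (J2 : R ⊕ O ⊕ Fin n2 ≃ ι2) (s1 : Fin n1 → Dir) (s2 : Fin n2 → Dir)
    (w1 w2 : ℤ × ℤ → ℂ) : Prop where
  L1 : ∀ x y, LineNet X.g X.er X.p1 (fun i => X.kf (X.f1 i)) J1 s1 ⟨wπ T1, wτ T1, x, y⟩
  L2 : ∀ x y, LineNet X.g X.er X.p2 (fun i => X.kf (X.f2 i)) J2 s2 ⟨wπ T2, wτ T2, x, y⟩
  pair : ∀ q, ∃ q', wπ T1 (X.E1 h1 J1 s1 q) = X.E1 h1 J1 s1 q' ∧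
    wπ T2 (X.E2 h2 J2 s2 q) = X.E2 h2 J2 s2 q' ∧
    wτ T2 (X.E2 h2 J2 s2 q) = wτ T1 (X.E1 h1 J1 s1 q) + X.dl h1 h2 q - X.dl h1 h2 q'
  io : ∀ q, inc P1 (X.E1 h1 J1 s1 q) = inc P2 (X.E2 h2 J2 s2 q)
  wR1 : ∀ i, (if (X.st i).v then wA lb1 P1 w1 (J1 (.inl i)) else wB lb1 P1 w1 (J1 (.inl i))) = X.wt i
  wR2 : ∀ i, (if (X.st i).v then wA lb2 P2 w2 (J2 (.inl i)) else wB lb2 P2 w2 (J2 (.inl i))) = X.wt i
  wO : ∀ o, wB lb1 P1 w1 (J1 (.inr (.inl o))) = wB lb2 P2 w2 (J2 (.inr (.inl o)))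
  wL1 : ∀ i, (if (s1 i).v then wA lb1 P1 w1 (J1 (.inr (.inr i))) else
    wB lb1 P1 w1 (J1 (.inr (.inr i)))) = X.t1 i
  wL2 : ∀ i, (if (s2 i).v then wA lb2 P2 w2 (J2 (.inr (.inr i))) else
    wB lb2 P2 w2 (J2 (.inr (.inr i)))) = 1 - (X.t2 i)⁻¹
  k0 : X1.k0 = X2.k0
  T0 : X1.T = X2.T
  root : (¬ Meets X1 ∧ ¬ Meets X2) ∨ ∃ (m1 : Meets X1) (m2 : Meets X2) (q0 : Ex O n1 n2),
    rx0 T1 m1 = X.E1 h1 J1 s1 q0 ∧ rx0 T2 m2 = X.E2 h2 J2 s2 q0 ∧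
    dsh X2 (rn0 X2) = dsh X1 (rn0 X1) - X.dl h1 h2 q0

/-- **The exchange theorem for environments.** -/
theorem env_exw {X : Rgw R A n1 n2} {h1 : 0 < n1} {h2 : 0 < n2} {X1 X2 : Env}
    {lb1 : ι1 → ℤ × ℤ} {lb2 : ι2 → ℤ × ℤ} {P1 : ι1 → Bool} {P2 : ι2 → Bool}
    {cr1 : ι1 × Dir → ℤ × ℤ} {cr2 : ι2 × Dir → ℤ × ℤ}
    {T1 : Tiles X1 lb1 P1 cr1} {T2 : Tiles X2 lb2 P2 cr2} {J1 : R ⊕ O ⊕ Fin n1 ≃ ι1}
    {J2 : R ⊕ O ⊕ Fin n2 ≃ ι2} {s1 : Fin n1 → Dir} {s2 : Fin n2 → Dir}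
    {w1 w2 : ℤ × ℤ → ℂ} (H : EPw X h1 h2 T1 T2 J1 J2 s1 s2 w1 w2) (q : Ex O n1 n2) :
    X2.incW w2 (cr2 (X.E2 h2 J2 s2 q)) =
      zt ^ (6 * (ty (cr2 (X.E2 h2 J2 s2 q)) - ty (cr1 (X.E1 h1 J1 s1 q))) +
        2 * X.dl h1 h2 q) * X1.incW w1 (cr1 (X.E1 h1 J1 s1 q)) := by
  classical
  rcases H.root with ⟨m1, m2⟩ | ⟨m1, m2, q0, r1, r2, r3⟩
  · rw [incW_not_meets T1 m1, incW_not_meets T2 m2, mul_zero]
  -- the common wiring
  have hex := H.pair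
  choose ρ0 hρ0 using hex
  have E1i := X.E1_inj h1 J1 s1
  have ρρ : ∀ q, ρ0 (ρ0 q) = q := by
    intro q
    apply E1i
    rw [← (hρ0 (ρ0 q)).1, ← (hρ0 q).1, wπ_wπ]
  set ρ : LP (Ex O n1 n2) :=
    { p := Function.Involutive.toPerm ρ0 ρρ
      d := fun q => wτ T1 (X.E1 h1 J1 s1 q) - X.lam1 h1 q + X.lam1 h1 (ρ0 q)
      inv := ρρ
      ne' := fun q hq => by
        have h3 := (hρ0 q).1
        have h4 := inc_wπ T1 (X.E1 h1 J1 s1 q)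
        change ρ0 q = q at hq
        rw [h3, hq] at h4
        cases h5 : inc P1 (X.E1 h1 J1 s1 q) <;> rw [h5] at h4 <;> simp at h4
      ant := fun q => by
        change wτ T1 (X.E1 h1 J1 s1 (ρ0 q)) - X.lam1 h1 (ρ0 q) + X.lam1 h1 (ρ0 (ρ0 q)) =
          -(wτ T1 (X.E1 h1 J1 s1 q) - X.lam1 h1 q + X.lam1 h1 (ρ0 q))
        rw [ρρ, ← (hρ0 q).1, wτ_wπ]
        ring } with hρ
  have ρa : ∀ q, ρ q = ρ0 q := fun _ => rfl
  have ρd : ∀ q, ρ.d q = wτ T1 (X.E1 h1 J1 s1 q) - X.lam1 h1 q + X.lam1 h1 (ρ0 q) := fun _ => rfl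
  have hin0 : inc P1 (X.E1 h1 J1 s1 q0) = true := by rw [← r1]; exact rx0_in T1 m1
  -- incoming exposed ends
  have key : ∀ q, inc P1 (X.E1 h1 J1 s1 q) = true → X2.incW w2 (cr2 (X.E2 h2 J2 s2 q)) =
      zt ^ (6 * (ty (cr2 (X.E2 h2 J2 s2 q)) - ty (cr1 (X.E1 h1 J1 s1 q))) +
        2 * X.dl h1 h2 q) * X1.incW w1 (cr1 (X.E1 h1 J1 s1 q)) := by
    intro q hq
    by_cases hqq : q = q0
    · subst hqq
      have f1 := incW_first T1 m1 w1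
      have f2 := incW_first T2 m2 w2
      have t1 := ty_root T1 m1
      have t2 := ty_root T2 m2
      rw [r1] at f1 t1
      rw [r2] at f2 t2
      rw [f1, f2, ph_zt, ph_zt]
      have e1 : zt ^ (6 * (ty (cr2 (X.E2 h2 J2 s2 q)) - ty (cr1 (X.E1 h1 J1 s1 q)))) =
          zt ^ (6 * (-X.dl h1 h2 q)) := by
        apply zt_mod
        rw [← H.k0, r3] at t2
        omega
      rw [zpow_add₀ zt_ne, e1, ← zpow_add₀ zt_ne, ← zpow_add₀ zt_ne, ← H.k0, r3]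
      congr 1
      ring
    · have hq2 : inc P2 (X.E2 h2 J2 s2 q) = true := by rw [← H.io]; exact hq
      have n1' : X.E1 h1 J1 s1 q ≠ rx0 T1 m1 := by rw [r1]; exact fun h => hqq (E1i h)
      have n2' : X.E2 h2 J2 s2 q ≠ rx0 T2 m2 := by
        rw [r2]
        exact fun h => hqq (X.E2_inj h2 J2 s2 h)
      have W1 := net_wired T1 m1 hq n1'
      have W2 := net_wired T2 m2 hq2 n2'
      have e1 := incW_eq W1 w1
      have e2 := incW_eq W2 w2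
      have key := X.net_exchange h1 h2 W1.good W2.good J1 J2 s1 s2 (H.L1 _ _) (H.L2 _ _) ρ
        (fun q => ⟨(hρ0 q).1, by
          rw [ρd, ρa]
          change wτ T1 _ = _
          ring⟩)
        (fun q => ⟨(hρ0 q).2.1, by
          rw [ρd, ρa]
          have h5 := (hρ0 q).2.2
          unfold Rgw.dl at h5
          change wτ T2 _ = _
          rw [h5]
          ring⟩) (q0 := q0) (q1 := q) hqq (by
            rw [ρa]
            intro h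
            have h5 := inc_wπ T1 (X.E1 h1 J1 s1 q0)
            rw [(hρ0 q0).1, ← h, hq, hin0] at h5
            simp at h5) r1 rfl r2 rfl (wab lb1 P1 w1) (wab lb2 P2 w2) H.wR1 H.wR2 H.wO H.wL1 H.wL2
      unfold Env.incW
      change Ec w2 X2.E (fun ω => X2.incO ω (cr2 (X.E2 h2 J2 s2 q))) = _ at e2
      change Ec w1 X1.E (fun ω => X1.incO ω (cr1 (X.E1 h1 J1 s1 q))) = _ at e1
      rw [e1, e2, key, r3, ← H.k0, ← mul_assoc, ← mul_assoc, ← zpow_add₀ zt_ne,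
        ← zpow_add₀ zt_ne]
      congr 2
      change 6 * ty (cr2 (X.E2 h2 J2 s2 q)) - _ + _ = _ + (6 * ty (cr1 (X.E1 h1 J1 s1 q)) - _)
      unfold Rgw.dl
      ring
  cases hq : inc P1 (X.E1 h1 J1 s1 q)
  swap
  · exact key q hq
  -- outgoing exposed ends
  have hq2 : inc P2 (X.E2 h2 J2 s2 q) = false := by rw [← H.io]; exact hq
  obtain ⟨p1, p2, p3⟩ := hρ0 q
  set q' := ρ0 q with hq'
  have t1 := ty_wire T1 hq
  have t2 := ty_wire T2 hq2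
  have s1' : sg T1 (X.E1 h1 J1 s1 q) = X.E1 h1 J1 s1 q' := by
    rw [← p1]; unfold wπ; rw [if_pos hq]
  have s2' : sg T2 (X.E2 h2 J2 s2 q) = X.E2 h2 J2 s2 q' := by
    rw [← p2]; unfold wπ; rw [if_pos hq2]
  have u1 : wτ T1 (X.E1 h1 J1 s1 q) = Pool.Agent.H81.G1.wt T1 (X.E1 h1 J1 s1 q) := by unfold wτ; rw [if_pos hq]
  have u2 : wτ T2 (X.E2 h2 J2 s2 q) = Pool.Agent.H81.G1.wt T2 (X.E2 h2 J2 s2 q) := by unfold wτ; rw [if_pos hq2]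
  rw [s1', ← u1] at t1
  rw [s2', ← u2] at t2
  by_cases h0 : q' = q0
  · have f1 := incW_wire_root T1 m1 w1 hq (by rw [p1, r1, h0])
    have f2 := incW_wire_root T2 m2 w2 hq2 (by rw [p2, r2, h0])
    have v1 := ty_root T1 m1
    have v2 := ty_root T2 m2
    rw [r1, ← h0] at v1
    rw [r2, ← h0] at v2
    rw [← h0] at r3
    rw [f1, f2, ph_zt, ph_zt]
    have e1 : zt ^ (6 * (ty (cr2 (X.E2 h2 J2 s2 q)) - ty (cr1 (X.E1 h1 J1 s1 q)))) =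
        zt ^ (6 * (-X.dl h1 h2 q)) := by
      apply zt_mod
      rw [← H.k0, r3] at v2
      omega
    rw [zpow_add₀ zt_ne, e1, ← zpow_add₀ zt_ne, ← zpow_add₀ zt_ne, ← H.k0, ← H.T0, r3, p3]
    congr 1
    ring
  · have f1 := incW_wire T1 m1 w1 hq (by rw [p1, r1]; exact fun h => h0 (E1i h))
    have f2 := incW_wire T2 m2 w2 hq2 (by rw [p2, r2]; exact fun h => h0 (X.E2_inj h2 J2 s2 h))
    rw [p1] at f1
    rw [p2] at f2
    have hin' : inc P1 (X.E1 h1 J1 s1 q') = true := by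
      rw [← p1, inc_wπ, hq]; rfl
    have k := key q' hin'
    rw [f1, f2] at k
    have e1 : zt ^ (6 * (ty (cr2 (X.E2 h2 J2 s2 q')) - ty (cr1 (X.E1 h1 J1 s1 q')))) =
        zt ^ (6 * ((ty (cr2 (X.E2 h2 J2 s2 q)) - ty (cr1 (X.E1 h1 J1 s1 q))) +
          (X.dl h1 h2 q - X.dl h1 h2 q'))) := by
      apply zt_mod
      omega
    rw [zpow_add₀ zt_ne, e1] at k
    have e2 : X2.incW w2 (cr2 (X.E2 h2 J2 s2 q)) = ph (-wτ T2 (X.E2 h2 J2 s2 q)) *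
        (ph (wτ T2 (X.E2 h2 J2 s2 q)) * X2.incW w2 (cr2 (X.E2 h2 J2 s2 q))) := by
      rw [← mul_assoc, ph_neg, one_mul]
    rw [e2, k, ph_zt, ph_zt, p3]
    have e3 : ∀ (a b c d : ℤ) (F : ℂ), zt ^ a * (zt ^ b * zt ^ c * (zt ^ d * F)) =
        zt ^ (a + b + c + d) * F := by
      intro a b c d F
      rw [zpow_add₀ zt_ne, zpow_add₀ zt_ne, zpow_add₀ zt_ne]
      ring
    rw [e3]
    congr 2
    ring

end pair

end Pool.Agent.H93.W
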