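import Pool.Agent.H93.W.FrontW
import Pool.Agent.H64.Win.Comp

set_option autoImplicit false

/-!
# The comparison theorem for a strip, weights of the columns

`strip_incW` is `strip_inc` of `H64/Win/Comp.lean` with a weight `p x` of the tiles and a weight `A x` of the
tile of the line in every column `x` of the strip. `A x = wa u`, `p x = 1/2`: natural column.
`A x = p x = 1 - ζ`, `ζ (1 - ζ) = 1`: frozen column.
-/

namespace Pool.Agent.H93.W

open Pool.Agent.H64.Q1 hiding Tl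
open Pool.Agent.H64.Win
open Pool.Agent.H81.G1 Pool.Agent.Q1 Pool.Agent.H33.Q1
open Pool.Agent.H75.Perc Pool.Agent.H75.TwoArm
open Pool.Agent.H74.R45 hiding Tl
open Pool.Agent.H46.Sp (TP lbP tyP crP)
open Pool.Agent.H46.Sp.Win (wal)
open Pool.Agent.H11.W (YB Fz)
open Finset

/-- **Weights** of the state {W-N, S-E} of the tiles of two environments which differ in a strip -/
structure WtW (P1 P2 : Finset (ℤ × ℤ)) (a b j : ℤ) (lS lR rN rR : Bool) (A p : ℤ → ℂ)
    (B C AL AR : ℂ) (α1 α2 : ℤ × ℤ → ℂ) : Prop where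
  reg1 : ∀ x, a ≤ x → x < b → α1 (x, j) = p x
  reg2 : ∀ x, a ≤ x → x < b → α2 (x, j - 1) = p x
  row1 : ∀ x, a ≤ x → x < b → α1 (x, j - 1) = A x
  row2 : ∀ x, a ≤ x → x < b → α2 (x, j) = A x
  l1 : lS = true → lR = false → α1 (a - 1, j) = 1 - B
  l1r : lS = true → lR = true → α1 (a - 1, j) = 1 - (1 - AL) * B ∧ α2 (a - 1, j) = AL
  l2 : lS = false → lR = false → α2 (a - 1, j - 1) = 1 - C
  l2r : lS = false → lR = true → α2 (a - 1, j - 1) = AL * (1 - C) ∧ α1 (a - 1, j - 1) = AL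
  r1 : rN = true → rR = false → α1 (b, j) = 1 - C
  r1r : rN = true → rR = true → α1 (b, j) = (1 - C) * AR ∧ α2 (b, j) = AR
  r2 : rN = false → rR = false → α2 (b, j - 1) = 1 - B
  r2r : rN = false → rR = true → α2 (b, j - 1) = 1 - B * (1 - AR) ∧ α1 (b, j - 1) = AR
  out : ∀ q ∈ PO P1 P2 a b j, q ≠ (a - 1, j) → q ≠ (a - 1, j - 1) → q ≠ (b, j) →
    q ≠ (b, j - 1) → α1 q = α2 q

/-- **The conditions on the weights.** -/
structure CwS (a b : ℤ) (A p : ℤ → ℂ) (B C : ℂ) : Prop where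
  B0 : B ≠ 0
  B1 : B ≠ 1
  BC : B * (1 - C) = 1
  col : ∀ x, a ≤ x → x < b → Cw B (A x) (p x)

variable {w : ℕ} {a b j : ℤ} {lS rN : Bool}
variable {X1 X2 : Env} {W1 W2 P1 P2 : Finset (ℤ × ℤ)} {lR cL rR cR : Bool}
variable {B C AL AR : ℂ} {A p : ℤ → ℂ} {q1 q2 α1 α2 : ℤ × ℤ → ℂ}

/-- the region with the weights of the columns -/
noncomputable abbrev RXW (H : Cfg X1 X2 W1 W2 P1 P2 a b j w lS lR cL rN rR cR)
    (HC : CwS a b A p B C) : Rgw (RQ w 1) RA (m1 w lS rN) (m2 w lS rN) :=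
  srowW B (fun x : ℕ => A (a + x)) (fun x : ℕ => p (a + x)) lS rN w H.hw0 HC.B0 HC.B1
    (fun x hx => HC.col _ (by omega) (by have := H.hw; omega))

/-- **The data of the exchange theorem.** -/
theorem epairW (H : Cfg X1 X2 W1 W2 P1 P2 a b j w lS lR cL rN rR cR) (HC : CwS a b A p B C)
    (HW : WtW P1 P2 a b j lS lR rN rR A p B C AL AR α1 α2) (h1 : HasW P1 q1 α1) (h2 : HasW P2 q2 α2)
    (k0 : X1.k0 = X2.k0) (T0 : X1.T = X2.T)
    {z0 : End} (hz1 : ce z0.1 z0.2 = X1.c0) (hz2 : ce z0.1 z0.2 = X2.c0)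
    (hi : inq z0.1 z0.2 = false) (hY : Yk (Kb a b j cL cR) z0) :
    EPwS (RXW H HC) H.n1 H.n2 H.T1 H.T2
      (Mf P1 (mp1 a b j lS lR rN rR)) (Mf P2 (mp2 a b j lS lR rN rR)) (μf P1 (μ1 a))
      (μf P2 (μ2 a)) (J1 H.tab H.hw) (J2 H.tab H.hw) (fun i => d1 w lS i) (fun i => d2 w rN i)
      q1 q2 (A1 a b j lS lR rN rR B C AL AR α1)
      (fun i => 1 - A1 a b j lS lR rN rR B C AL AR α1 i)
      (A2 a b j lS lR rN rR B C AL AR α2)
      (fun i => 1 - A2 a b j lS lR rN rR B C AL AR α2 i) := by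
  have hw0 := H.hw0
  have hw := H.hw
  have hab := H.S.ab
  have hBi : 1 - C = B⁻¹ := by
    have := HC.BC
    field_simp [HC.B0]
    linear_combination this
  have h1B : (1 : ℂ) - B ≠ 0 := sub_ne_zero.2 (Ne.symm HC.B1)
  have hCi : (1 - (1 - B)⁻¹)⁻¹ = C := by
    have h3 : 1 - (1 - B)⁻¹ = -B * (1 - B)⁻¹ := by field_simp; ring
    rw [h3, mul_inv, inv_inv]
    have h4 : C = 1 - B⁻¹ := by rw [← hBi]; ring
    rw [h4]
    have := HC.B0
    field_simp
    ring
  refine ⟨line1 H _ sin_φ0, line2 H _ sin_φ0, ?_, ex_io H _ sin_φ0, ?_, ?_, ?_, ?_, ?_, ?_, ?_, k0, T0,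
    ex_root H _ sin_φ0 hz1 hz2 hi hY⟩
  · intro q
    obtain ⟨q', P⟩ := ex_pr H _ sin_φ0 q
    exact ⟨q', P.p1, P.p2, P.t⟩
  · -- weights of the first network
    refine ⟨?_, ?_, ?_, ?_⟩
    · intro i; rw [(h1.A i).1, (h1.A i).2]; ring
    · intro i; ring
    · intro i hi
      rw [(h1.A i).1]
      change _ = if _ then _ else _
      rw [if_neg (fun h => hi (mem_Mf.2 h))]
    · intro m hm
      have hm' := mem_Mf.1 hm
      rw [(h1.A m).1, (h1.A m).2]
      have e1 : A1 (P1 := P1) a b j lS lR rN rR B C AL AR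
          α1 (.inl m) = if m.1.1 < a then AL else AR := by
        change (if _ then _ else _) = _
        rw [if_pos hm']
      have e2 : A1 a b j lS lR rN rR B C AL AR α1
          (.inr ⟨m, hm⟩) = if m.1.1 < a then 1 - B else 1 - C := rfl
      rw [e1, e2]
      unfold μf
      rcases mp1_true hm' with ⟨f1, f2, f3⟩ | ⟨f1, f2, f3⟩
      · have hμ : μ1 a m.1 = .W := by unfold μ1; rw [f3]; simp only; rw [if_pos (by omega)]
        rw [hμ, f3, (HW.l1r f1 f2).1]
        simp only [Dir.v, Bool.false_eq_true, if_false]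
        rw [if_pos (by omega), if_pos (by omega)]
        ring
      · have hμ : μ1 a m.1 = .N := by unfold μ1; rw [f3]; simp only; rw [if_neg (by omega)]
        rw [hμ, f3, (HW.r1r f1 f2).1]
        simp only [Dir.v, if_true]
        rw [if_neg (by omega), if_neg (by omega)]
        ring
  · -- weights of the second network
    refine ⟨?_, ?_, ?_, ?_⟩
    · intro i; rw [(h2.A i).1, (h2.A i).2]; ring
    · intro i; ring
    · intro i hi
      rw [(h2.A i).1]
      change _ = if _ then _ else _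
      rw [if_neg (fun h => hi (mem_Mf.2 h))]
    · intro m hm
      have hm' := mem_Mf.1 hm
      rw [(h2.A m).1, (h2.A m).2]
      have e1 : A2 (P2 := P2) a b j lS lR rN rR B C AL AR
          α2 (.inl m) = if m.1.1 < a then AL else AR := by
        change (if _ then _ else _) = _
        rw [if_pos hm']
      have e2 : A2 a b j lS lR rN rR B C AL AR α2
          (.inr ⟨m, hm⟩) = if m.1.1 < a then 1 - C else 1 - B := rfl
      rw [e1, e2]
      unfold μf
      rcases mp2_true hm' with ⟨f1, f2, f3⟩ | ⟨f1, f2, f3⟩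
      · have hμ : μ2 a m.1 = .S := by unfold μ2; rw [f3]; simp only; rw [if_pos (by omega)]
        rw [hμ, f3, (HW.l2r f1 f2).1]
        simp only [Dir.v, if_true]
        rw [if_pos (by omega), if_pos (by omega)]
      · have hμ : μ2 a m.1 = .E := by unfold μ2; rw [f3]; simp only; rw [if_neg (by omega)]
        rw [hμ, f3, (HW.r2r f1 f2).1]
        simp only [Dir.v, Bool.false_eq_true, if_false]
        rw [if_neg (by omega), if_neg (by omega)]
        ring
  · -- the region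
    intro p
    have h1 := p.2.1
    have k := A1_reg H.tab H.hw B C AL AR α1 p
    rw [HW.reg1 _ (by omega) (by omega)] at k
    exact k
  · intro p
    have h1 := p.2.1
    have k := A2_reg H.tab H.hw B C AL AR α2 p
    rw [HW.reg2 _ (by omega) (by omega)] at k
    exact k
  · -- the other tiles
    intro o
    change 1 - A1 a b j lS lR rN rR _ _ AL AR α1 (J1 H.tab H.hw _) =
      1 - A2 a b j lS lR rN rR _ _ AL AR α2 (J2 H.tab H.hw _)
    congr 1
    rw [A1_o, A2_o]
    obtain ⟨⟨o1, o2⟩, o3⟩ := mem_PO.1 o.2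
    by_cases c1 : mp1 a b j lS lR rN rR o.1 = true
    · rw [if_pos c1]
      rcases mp1_true c1 with ⟨f1, f2, f3⟩ | ⟨f1, f2, f3⟩
      · have hn : ¬ mp2 a b j lS lR rN rR o.1 = true := by
          intro hc
          rcases mp2_true hc with ⟨g1, -⟩ | ⟨-, -, g1⟩
          · rw [f1] at g1; exact absurd g1 (by simp)
          · rw [f3, Prod.mk.injEq] at g1; omega
        rw [if_neg hn, f3, (HW.l1r f1 f2).2, if_pos (by simp)]
      · have hn : ¬ mp2 a b j lS lR rN rR o.1 = true := by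
          intro hc
          rcases mp2_true hc with ⟨-, -, g1⟩ | ⟨g1, -⟩
          · rw [f3, Prod.mk.injEq] at g1; omega
          · rw [f1] at g1; exact absurd g1 (by simp)
        rw [if_neg hn, f3, (HW.r1r f1 f2).2, if_neg (by simp only; omega)]
    · rw [if_neg c1]
      by_cases c2 : mp2 a b j lS lR rN rR o.1 = true
      · rw [if_pos c2]
        rcases mp2_true c2 with ⟨f1, f2, f3⟩ | ⟨f1, f2, f3⟩
        · rw [f3, (HW.l2r f1 f2).2, if_pos (by simp)]
        · rw [f3, (HW.r2r f1 f2).2, if_neg (by simp only; omega)]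
      · rw [if_neg c2]
        refine HW.out _ o.2 ?_ ?_ ?_ ?_
        · intro h
          rw [h] at o2 c1
          apply c1
          rw [mp1_l hab, (H.tab.a2.1 o2).1, (H.tab.a2.1 o2).2]; rfl
        · intro h
          rw [h] at o1 c2
          apply c2
          rw [mp2_l hab, (H.tab.a4.1 o1).1, (H.tab.a4.1 o1).2]; rfl
        · intro h
          rw [h] at o2 c1
          apply c1
          rw [mp1_r hab, (H.tab.b2.1 o2).1, (H.tab.b2.1 o2).2]; rfl
        · intro h
          rw [h] at o1 c2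
          apply c2
          rw [mp2_r hab, (H.tab.b4.1 o1).1, (H.tab.b4.1 o1).2]; rfl
  · -- the first line
    intro i
    change (if (d1 w lS i).v then A1 a b j lS lR rN rR _ _ AL AR α1 (J1 H.tab H.hw _) else
      1 - A1 a b j lS lR rN rR _ _ AL AR α1 (J1 H.tab H.hw _)) =
        tW1 B (fun x : ℕ => A (a + x)) lS rN i
    rcases c1 (a := a) (b := b) (j := j) (rN := rN) hw0 i with ⟨e0, e1, e2, e3, e4, e5, e6⟩ |
      ⟨x, ex, e0, e2, e3, e4, e5, e6⟩ | ⟨e0, e1, e2, e3, e4, e5, e6⟩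
    · have et : tW1 B (fun x : ℕ => A (a + x)) lS rN i = 1 - B := by
        unfold tW1
        rw [if_pos (by rw [e0, show bn lS = 1 by rw [e1]; rfl]; exact Nat.zero_lt_one)]
      rw [A1_l _ _ _ _ _ _ _ e2, e3, et, if_pos (show Dir.N.v = true from rfl), mp1_l hab]
      rcases bf lR with hR | hR
      · rw [hR, Bool.and_false, if_neg (by simp)]
        exact HW.l1 e1 hR
      · rw [hR, e1, if_pos (by simp), if_pos (by simp)]
    · have et : tW1 B (fun x : ℕ => A (a + x)) lS rN i = 1 - A (a + x) := by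
        unfold tW1
        rw [if_neg (by omega), if_pos (by omega), e0, Nat.add_sub_cancel_left]
      rw [A1_l _ _ _ _ _ _ _ e2, e3, et, if_neg (by decide), mp1_row (by omega) (by omega),
        if_neg (by simp), HW.row1 _ (by omega) (by omega)]
    · have et : tW1 B (fun x : ℕ => A (a + x)) lS rN i = B⁻¹ := by
        unfold tW1
        rw [if_neg (by omega), if_neg (by omega)]
      rw [A1_l _ _ _ _ _ _ _ e2, e3, et, if_pos (show Dir.S.v = true from rfl), mp1_r hab]
      rcases bf rR with hR | hR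
      · rw [hR, Bool.and_false, if_neg (by simp)]
        rw [HW.r1 e1 hR, hBi]
      · rw [hR, e1, if_pos (by simp), if_neg (by simp only; omega), hBi]
  · -- the second line
    intro i
    change (if (d2 w rN i).v then A2 a b j lS lR rN rR _ _ AL AR α2 (J2 H.tab H.hw _) else
      1 - A2 a b j lS lR rN rR _ _ AL AR α2 (J2 H.tab H.hw _)) =
        1 - (tW2 B (fun x : ℕ => A (a + x)) lS rN i)⁻¹
    rcases c2 (a := a) (b := b) (j := j) (lS := lS) hw0 i with ⟨e0, e1, e2, e3, e4, e5, e6⟩ |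
      ⟨x, ex, e0, e2, e3, e4, e5, e6⟩ | ⟨e0, e1, e2, e3, e4, e5, e6⟩
    · have et : tW2 B (fun x : ℕ => A (a + x)) lS rN i = B⁻¹ := by
        unfold tW2
        rw [if_pos (by rw [e0, show bn (!rN) = 1 by rw [e1]; rfl]; exact Nat.zero_lt_one)]
      rw [A2_l _ _ _ _ _ _ _ e2, e3, et, inv_inv, if_pos (show Dir.S.v = true from rfl), mp2_r hab]
      rcases bf rR with hR | hR
      · rw [hR, Bool.and_false, if_neg (by simp)]
        exact HW.r2 e1 hR
      · rw [hR, e1, if_pos (by simp), if_neg (by simp only; omega)]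
    · have et : tW2 B (fun x : ℕ => A (a + x)) lS rN i = (A (b - 1 - x))⁻¹ := by
        unfold tW2
        rw [if_neg (by omega), if_pos (by omega), e0, Nat.add_sub_cancel_left]
        have e7 : a + ((w - 1 - x : ℕ) : ℤ) = b - 1 - x := by omega
        simp only [e7]
      rw [A2_l _ _ _ _ _ _ _ e2, e3, et, inv_inv, if_neg (by decide), mp2_row (by omega) (by omega),
        if_neg (by simp), HW.row2 _ (by omega) (by omega)]
    · have et : tW2 B (fun x : ℕ => A (a + x)) lS rN i = 1 - (1 - B)⁻¹ := by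
        unfold tW2
        rw [if_neg (by omega), if_neg (by omega)]
      rw [A2_l _ _ _ _ _ _ _ e2, e3, et, hCi, if_pos (show Dir.N.v = true from rfl), mp2_l hab]
      rcases bf lR with hR | hR
      · rw [hR, Bool.and_false, if_neg (by simp)]
        exact HW.l2 e1 hR
      · rw [hR, e1, if_pos (by simp), if_pos (by simp)]

/-- **The comparison theorem.** -/
theorem strip_incW (H : Cfg X1 X2 W1 W2 P1 P2 a b j w lS lR cL rN rR cR) (HC : CwS a b A p B C)
    (HW : WtW P1 P2 a b j lS lR rN rR A p B C AL AR α1 α2) (h1 : HasW P1 q1 α1) (h2 : HasW P2 q2 α2)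
    (k0 : X1.k0 = X2.k0) (T0 : X1.T = X2.T)
    {z0 : End} (hz1 : ce z0.1 z0.2 = X1.c0) (hz2 : ce z0.1 z0.2 = X2.c0)
    (hi : inq z0.1 z0.2 = false) (hY : Yk (Kb a b j cL cR) z0) {z z' : End} {δ : ℤ}
    (h : Ends (sto X1.E W1) (sto X2.E W2) a b j lS lR cL rN rR cR z z' δ) :
    X2.incW q2 (ce z'.1 z'.2) = zt ^ (6 * (ty (ce z'.1 z'.2) - ty (ce z.1 z.2)) + 2 * δ) *
      X1.incW q1 (ce z.1 z.2) := by
  obtain ⟨q, hq⟩ := ends_pl H φ0 sin_φ0 h
  obtain ⟨m1, n1⟩ := hq.l
  obtain ⟨m2, n2⟩ := hq.r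
  have key := env_exws (epairW H HC HW h1 h2 k0 T0 hz1 hz2 hi hY) (q := q)
    (z1 := (⟨z.1, m1⟩, z.2)) (z2 := (⟨z'.1, m2⟩, z'.2)) n1.symm n2.symm
  have e := hq.d
  change X2.incW q2 (ce z'.1 z'.2) = zt ^ (6 * (ty (ce z'.1 z'.2) - ty (ce z.1 z.2)) +
    2 * dd H φ0 sin_φ0 q) * X1.incW q1 (ce z.1 z.2) at key
  rw [e] at key
  exact key

end Pool.Agent.H93.W
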