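import Pool.Agent.H93.W.RgwS
import Pool.Agent.H64.Win.Front

set_option autoImplicit false

/-!
# One row as a region, weights of the columns

`srowW` : the region of `srow` of `H64/Win/Front.lean`, where the tile `x` has the weight `p x`, the line has
the weight `A x` (state {W-N, S-E}) in the column `x`, `B` = weight of {W-S, N-E} in a row. Conditions: `Cw`.
-/

namespace Pool.Agent.H93.W

open Pool.Agent.H64.Q1 Pool.Agent.H64.Q1.LP Pool.Agent.H81.G1 Pool.Agent.H13.Q1 Pool.Agent.H11.W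
open Pool.Agent.H64.Win

/-- **The weights of one column** : `A` = weight of the tile of the line, `p` = weight of the tile, `B` = weight
of the other line -/
structure Cw (B A p : ℂ) : Prop where
  A0 : A ≠ 0
  A1 : A ≠ 1
  yb : YB A⁻¹ B⁻¹ p

section

variable {B : ℂ} {A p : ℕ → ℂ}

/-- the tile `x` of the row -/
def rtW (p : ℕ → ℂ) (x : ℕ) : Tl RA := ⟨rnm 0 x 0, rnm 2 x 0, rnm 1 x 1, rnm 3 (x + 1) 0, p x⟩

/-- **Growth of a row.** -/
theorem rowG (B0 : B ≠ 0) (B1 : B ≠ 1) {w : ℕ} (hC : ∀ x, x < w → Cw B (A x) (p x)) (n : ℕ) (hn : n ≤ w) :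
    ∃ T, Bw rg (.inr true) (.inr false) T (((List.range n).map (rtW p)).reverse)
      (((rnm 3 0 0, (2 : ℤ), 1 - B) :: ((List.range n).map fun x => (rnm 1 x 0, (3 : ℤ), 1 - A x))) ++
        (rnm 2 n 0, (4 : ℤ), B⁻¹) ::
          ((List.range n).map fun x => (rnm 0 x 1, (5 : ℤ), (A x)⁻¹)).reverse) ∧
      ∀ z ∈ T, z = .inr true ∨ z = .inr false ∨ ∃ k x y, z = rnm k x y ∧
        (if k = 0 ∨ k = 1 then x < n else x ≤ n) := by
  have hB : B⁻¹ * (1 - (1 - B)) = 1 := by rw [sub_sub_cancel, inv_mul_cancel₀ B0]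
  have hB1 : 1 - B ≠ 0 := sub_ne_zero.2 (Ne.symm B1)
  induction n with
  | zero =>
    have h1 := Bw.edge (g := rg) (u := .inr true) (v := .inr false) [] [] (rnm 3 0 0) 2 (1 - B) B⁻¹
      (Bw.nil rfl) (by rintro (h | h) <;> exact absurd h (by simp [rnm])) hB1 hB
    refine ⟨_, h1, ?_⟩
    rintro z ((rfl | rfl) | rfl | rfl)
    · exact Or.inl rfl
    · exact Or.inr (Or.inl rfl)
    · exact Or.inr (Or.inr ⟨3, 0, 0, rfl, by rw [if_neg (by decide)]⟩)
    · exact Or.inr (Or.inr ⟨2, 0, 0, rfl, by rw [if_neg (by decide)]⟩)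
  | succ n ih =>
    obtain ⟨T, hT, hz⟩ := ih (by omega)
    obtain ⟨A0, A1, yb⟩ := hC n (by omega)
    have hA : (A n)⁻¹ * (1 - (1 - A n)) = 1 := by rw [sub_sub_cancel, inv_mul_cancel₀ A0]
    have hA1 : 1 - A n ≠ 0 := sub_ne_zero.2 (Ne.symm A1)
    set F := (rnm 3 0 0, (2 : ℤ), 1 - B) :: ((List.range n).map fun x => (rnm 1 x 0, (3 : ℤ), 1 - A x))
      with hF
    set G := ((List.range n).map fun x => (rnm 0 x 1, (5 : ℤ), (A x)⁻¹)).reverse with hG
    have hm : ∀ (k : Fin 4) (x y : ℕ), rnm k x y ∈ T → (if k = 0 ∨ k = 1 then x < n else x ≤ n) := by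
      intro k x y h
      rcases hz _ h with h | h | ⟨k', x', y', h, h'⟩
      · exact absurd h (by simp [rnm])
      · exact absurd h (by simp [rnm])
      · simp only [rnm, Sum.inl.injEq, Prod.mk.injEq] at h
        obtain ⟨rfl, rfl, rfl⟩ := h
        exact h'
    -- the wire below
    have h1 := Bw.edge F ((rnm 2 n 0, (4 : ℤ), B⁻¹) :: G) (rnm 1 n 0) 3 (1 - A n) (A n)⁻¹ hT
      (fun h => by have := hm _ _ _ h; rw [if_pos (Or.inr rfl)] at this; omega) hA1 hA
    have h1' : Bw rg (.inr true) (.inr false) {y | y ∈ T ∨ y = rnm 1 n 0 ∨ y = rg (rnm 1 n 0)}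
        (((List.range n).map (rtW p)).reverse)
        ((F ++ [(rnm 1 n 0, (3 : ℤ), 1 - A n), (rnm 0 n 0, 5, (A n)⁻¹), (rnm 2 n 0, 4, B⁻¹)]) ++ G) := by
      rw [List.append_assoc]
      exact h1
    -- the wire above
    have h2 := Bw.edge _ G (rnm 1 n 1) 3 (1 - A n) (A n)⁻¹ h1'
      (by
        rintro (h | h | h)
        · have := hm _ _ _ h; rw [if_pos (Or.inr rfl)] at this; omega
        · simp [rnm] at h
        · change rnm 1 n 1 = rnm 0 n 0 at h
          simp [rnm] at h) hA1 hA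
    have h2' : Bw rg (.inr true) (.inr false) {y | (y ∈ T ∨ y = rnm 1 n 0 ∨ y = rg (rnm 1 n 0)) ∨
        y = rnm 1 n 1 ∨ y = rg (rnm 1 n 1)} (((List.range n).map (rtW p)).reverse)
        ((F ++ [(rnm 1 n 0, (3 : ℤ), 1 - A n), (rnm 0 n 0, 5, (A n)⁻¹), (rnm 2 n 0, 4, B⁻¹),
          (rnm 1 n 1, (3 : ℤ), 1 - A n)]) ++ (rnm 0 n 1, (5 : ℤ), (A n)⁻¹) :: G) := by
      have e : (F ++ [(rnm 1 n 0, (3 : ℤ), 1 - A n), (rnm 0 n 0, 5, (A n)⁻¹), (rnm 2 n 0, 4, B⁻¹),
          (rnm 1 n 1, (3 : ℤ), 1 - A n)]) ++ (rnm 0 n 1, (5 : ℤ), (A n)⁻¹) :: G =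
          (F ++ [(rnm 1 n 0, (3 : ℤ), 1 - A n), (rnm 0 n 0, 5, (A n)⁻¹), (rnm 2 n 0, 4, B⁻¹)]) ++
            (rnm 1 n 1, (3 : ℤ), 1 - A n) :: (rnm 0 n 1, (5 : ℤ), (A n)⁻¹) :: G := by simp
      rw [e]
      exact h2
    -- the wire on the right
    have h3 := Bw.edge _ ((rnm 0 n 1, (5 : ℤ), (A n)⁻¹) :: G) (rnm 3 (n + 1) 0) 2 (1 - B) B⁻¹ h2'
      (by
        rintro ((h | h | h) | h | h)
        · have := hm _ _ _ h; rw [if_neg (by decide)] at this; omega
        · simp [rnm] at h
        · change rnm 3 (n + 1) 0 = rnm 0 n 0 at h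
          simp [rnm] at h
        · simp [rnm] at h
        · change rnm 3 (n + 1) 0 = rnm 0 n 1 at h
          simp [rnm] at h) hB1 hB
    have h3' : Bw rg (.inr true) (.inr false) {y | ((y ∈ T ∨ y = rnm 1 n 0 ∨ y = rg (rnm 1 n 0)) ∨
        y = rnm 1 n 1 ∨ y = rg (rnm 1 n 1)) ∨ y = rnm 3 (n + 1) 0 ∨ y = rg (rnm 3 (n + 1) 0)}
        (((List.range n).map (rtW p)).reverse)
        ((F ++ [(rnm 1 n 0, (3 : ℤ), 1 - A n)]) ++ (rnm 0 n 0, 5, (A n)⁻¹) ::
          (rnm 2 n 0, 5 - 1, B⁻¹) :: (rnm 1 n 1, 5 - 2, 1 - A n) :: (rnm 3 (n + 1) 0, 5 - 3, 1 - B) ::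
          (rnm 2 (n + 1) 0, 4, B⁻¹) :: (rnm 0 n 1, (5 : ℤ), (A n)⁻¹) :: G) := by
      have e : (F ++ [(rnm 1 n 0, (3 : ℤ), 1 - A n)]) ++ (rnm 0 n 0, (5 : ℤ), (A n)⁻¹) ::
          (rnm 2 n 0, 5 - 1, B⁻¹) :: (rnm 1 n 1, 5 - 2, 1 - A n) :: (rnm 3 (n + 1) 0, 5 - 3, 1 - B) ::
          (rnm 2 (n + 1) 0, 4, B⁻¹) :: (rnm 0 n 1, (5 : ℤ), (A n)⁻¹) :: G =
          (F ++ [(rnm 1 n 0, (3 : ℤ), 1 - A n), (rnm 0 n 0, 5, (A n)⁻¹), (rnm 2 n 0, 4, B⁻¹),
          (rnm 1 n 1, (3 : ℤ), 1 - A n)]) ++ (rnm 3 (n + 1) 0, (2 : ℤ), 1 - B) ::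
            (rnm 2 (n + 1) 0, (4 : ℤ), B⁻¹) :: (rnm 0 n 1, (5 : ℤ), (A n)⁻¹) :: G := by
        simp only [List.append_assoc, List.cons_append, List.nil_append, List.append_cancel_left_eq,
          List.cons.injEq, Prod.mk.injEq, true_and, and_true]
        norm_num
      rw [e]
      exact h3
    have h4 := Bw.fill (F ++ [(rnm 1 n 0, (3 : ℤ), 1 - A n)]) ((rnm 2 (n + 1) 0, (4 : ℤ), B⁻¹) ::
      (rnm 0 n 1, (5 : ℤ), (A n)⁻¹) :: G) (rnm 0 n 0) (rnm 2 n 0) (rnm 1 n 1) (rnm 3 (n + 1) 0) 5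
      (A n)⁻¹ B⁻¹ (1 - A n) (1 - B) (p n) h3' hA hB yb
    have e1 : ((List.range (n + 1)).map (rtW p)).reverse =
        rtW p n :: ((List.range n).map (rtW p)).reverse := by
      rw [List.range_succ, List.map_append, List.reverse_append]; rfl
    have e2 : ((List.range (n + 1)).map fun x => ((rnm 0 x 1, (5 : ℤ), (A x)⁻¹) : Fe RA)).reverse =
        (rnm 0 n 1, (5 : ℤ), (A n)⁻¹) :: G := by
      rw [List.range_succ, List.map_append, List.reverse_append]; rfl
    have e3 : (((rnm 3 0 0, (2 : ℤ), 1 - B) :: ((List.range (n + 1)).map fun x =>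
        (rnm 1 x 0, (3 : ℤ), 1 - A x))) : List (Fe RA)) = F ++ [(rnm 1 n 0, (3 : ℤ), 1 - A n)] := by
      rw [List.range_succ, List.map_append]; rfl
    rw [e1, e2, e3]
    refine ⟨_, h4, ?_⟩
    · rintro z (((h | rfl | rfl) | rfl | rfl) | rfl | rfl)
      · rcases hz _ h with h | h | ⟨k, x, y, h, h'⟩
        · exact Or.inl h
        · exact Or.inr (Or.inl h)
        · refine Or.inr (Or.inr ⟨k, x, y, h, ?_⟩)
          by_cases hk : k = 0 ∨ k = 1
          · rw [if_pos hk] at h' ⊢; omega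
          · rw [if_neg hk] at h' ⊢; omega
      · exact Or.inr (Or.inr ⟨1, n, 0, rfl, by rw [if_pos (Or.inr rfl)]; omega⟩)
      · exact Or.inr (Or.inr ⟨0, n, 0, rfl, by rw [if_pos (Or.inl rfl)]; omega⟩)
      · exact Or.inr (Or.inr ⟨1, n, 1, rfl, by rw [if_pos (Or.inr rfl)]; omega⟩)
      · exact Or.inr (Or.inr ⟨0, n, 1, rfl, by rw [if_pos (Or.inl rfl)]; omega⟩)
      · exact Or.inr (Or.inr ⟨3, n + 1, 0, rfl, by rw [if_neg (by decide)]⟩)
      · exact Or.inr (Or.inr ⟨2, n + 1, 0, rfl, by rw [if_neg (by decide)]⟩)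

variable {w : ℕ} (L R : Bool) (B) (A) (p)

/-- weights of the line at the first part of the front -/
noncomputable def tW1 (i : Fin (m1 w L R)) : ℂ :=
  if (i : ℕ) < bn L then 1 - B else if (i : ℕ) < bn L + w then 1 - A (i - bn L) else B⁻¹

/-- weights of the line at the second part of the front -/
noncomputable def tW2 (i : Fin (m2 w L R)) : ℂ :=
  if (i : ℕ) < bn (!R) then B⁻¹ else if (i : ℕ) < bn (!R) + w then
    (A (w - 1 - (i - bn (!R))))⁻¹ else 1 - (1 - B)⁻¹

theorem sfrontW1 : List.ofFn (fun i : Fin (m1 w L R) =>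
    (sf1 L R w i, skf L (sf1 L R w i), tW1 B A L R i)) =
      (if L then [(rnm 3 0 0, (2 : ℤ), 1 - B)] else []) ++
        ((List.range w).map fun x => (rnm 1 x 0, (3 : ℤ), 1 - A x)) ++
        (if R then [(rnm 2 w 0, (4 : ℤ), B⁻¹)] else []) := by
  apply List.ext_getElem
  · cases L <;> cases R <;> simp [m1] <;> omega
  · intro i h1 h2
    rw [List.getElem_ofFn]
    rw [List.length_ofFn] at h1
    by_cases c1 : i < bn L
    · cases L
      · simp at c1
      · simp only [bn_true] at c1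
        obtain rfl : i = 0 := by omega
        rw [List.getElem_append_left (by simp), List.getElem_append_left (by simp)]
        rfl
    · by_cases c2 : i < bn L + w
      · have e1 : (if L then [((rnm 3 0 0, (2 : ℤ), 1 - B) : Fe RA)] else []).length = bn L := by
          cases L <;> rfl
        rw [List.getElem_append_left (by rw [List.length_append, e1]; simpa using c2),
          List.getElem_append_right (by rw [e1]; omega)]
        simp only [e1]
        rw [List.getElem_map, List.getElem_range]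
        unfold sf1 tW1
        simp only [if_neg c1, if_pos c2]
        rfl
      · cases R
        · simp only [m1, bn_false] at h1; omega
        · have hi : i = bn L + w := by simp only [m1, bn_true] at h1; omega
          subst hi
          have e1 : (if L then [((rnm 3 0 0, (2 : ℤ), 1 - B) : Fe RA)] else []).length = bn L := by
            cases L <;> rfl
          rw [List.getElem_append_right (by rw [List.length_append, e1]; simp)]
          unfold sf1 tW1
          simp only [if_neg c1, if_neg c2]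
          simp only [List.length_append, e1, List.length_map, List.length_range, Nat.sub_self,
            if_true, List.getElem_cons_zero]
          rfl

theorem sfrontW2 : List.ofFn (fun i : Fin (m2 w L R) =>
    (sf2 L R w i, skf L (sf2 L R w i), tW2 B A L R i)) =
      (if R then [] else [(rnm 2 w 0, (4 : ℤ), B⁻¹)]) ++
        ((List.range w).map fun x => (rnm 0 x 1, (5 : ℤ), (A x)⁻¹)).reverse ++
        (if L then [] else [(rnm 3 0 0, (6 : ℤ), 1 - (1 - B)⁻¹)]) := by
  apply List.ext_getElem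
  · cases L <;> cases R <;> simp [m2] <;> omega
  · intro i h1 h2
    rw [List.getElem_ofFn]
    rw [List.length_ofFn] at h1
    have e1 : (if R then [] else [((rnm 2 w 0, (4 : ℤ), B⁻¹) : Fe RA)]).length = bn (!R) := by
      cases R <;> rfl
    by_cases c1 : i < bn (!R)
    · cases R
      · simp only [Bool.not_false, bn_true] at c1
        obtain rfl : i = 0 := by omega
        rw [List.getElem_append_left (by simp), List.getElem_append_left (by simp)]
        rfl
      · simp at c1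
    · by_cases c2 : i < bn (!R) + w
      · rw [List.getElem_append_left (by rw [List.length_append, e1]; simpa using c2),
          List.getElem_append_right (by rw [e1]; omega)]
        simp only [e1]
        rw [List.getElem_reverse, List.getElem_map, List.getElem_range]
        simp only [List.length_map, List.length_range]
        unfold sf2 tW2
        simp only [if_neg c1, if_pos c2]
        rfl
      · cases L
        · have hi : i = bn (!R) + w := by simp only [m2, Bool.not_false, bn_true] at h1; omega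
          subst hi
          rw [List.getElem_append_right (by rw [List.length_append, e1]; simp)]
          unfold sf2 tW2
          simp only [if_neg c1, if_neg c2]
          simp only [List.length_append, e1, List.length_reverse, List.length_map,
            List.length_range, Nat.sub_self, Bool.false_eq_true, if_false,
            List.getElem_cons_zero]
          rfl
        · simp only [m2, Bool.not_true, bn_false] at h1; omega

/-- some angle -/
noncomputable abbrev φ0 : ℂ := Real.pi / 4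

theorem sin_φ0 (k : ℤ) : Complex.sin (ang φ0 k) ≠ 0 := by
  intro h
  rw [Complex.sin_eq_zero_iff] at h
  obtain ⟨m, hm⟩ := h
  unfold ang at hm
  have hpi : (Real.pi : ℂ) ≠ 0 := by exact_mod_cast Real.pi_ne_zero
  have h2 : (1 + 2 * (k : ℂ)) = 4 * m := by
    have h3 : (1 + 2 * (k : ℂ) - 4 * m) * Real.pi = 0 := by linear_combination 4 * hm
    rcases mul_eq_zero.1 h3 with h | h
    · linear_combination h
    · exact absurd h hpi
  have h4 : 1 + 2 * k = 4 * m := by exact_mod_cast h2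
  omega

/-- **One row, weights of the columns.** -/
noncomputable def srowW (w : ℕ) (hw : 0 < w) (B0 : B ≠ 0) (B1 : B ≠ 1)
    (hC : ∀ x, x < w → Cw B (A x) (p x)) : Rgw (RQ w 1) RA (m1 w L R) (m2 w L R) where
  g := rg
  u := .inr true
  v := .inr false
  er := rer
  f1 := sf1 L R w
  f2 := sf2 L R w
  kf := skf L
  t1 := tW1 B A L R
  t2 := tW2 B A L R
  p1 := sp1 L R hw
  p2 := sp2 L R hw
  st := fun _ => .S
  I := rIs w 1
  wt := fun q => p q.1.1
  nd := (srow L R w hw φ0 sin_φ0).nd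
  all := (srow L R w hw φ0 sin_φ0).all
  er_inj := rer_inj
  kuv := ⟨rfl, rfl⟩
  erf := (srow L R w hw φ0 sin_φ0).erf
  gp1 := (srow L R w hw φ0 sin_φ0).gp1
  gp2 := (srow L R w hw φ0 sin_φ0).gp2
  cls := srow_cases L R hw
  bt := by
    obtain ⟨T, hT, -⟩ := rowG (A := A) (p := p) B0 B1 hC w le_rfl
    refine ⟨T, ?_⟩
    rw [sfrontW1, sfrontW2]
    have e : (rIs w 1).map (rgT rer (fun _ => .S) (fun q => p q.1.1)) =
        ((List.range w).map (rtW p)).reverse := by
      have e1 : (rIs w 1).map (rgT rer (fun _ => .S) (fun q => p q.1.1)) =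
          (rI w 1).map fun q => (⟨rnm 0 q.1 q.2, rnm 2 q.1 q.2, rnm 1 q.1 (q.2 + 1),
            rnm 3 (q.1 + 1) q.2, p q.1⟩ : Tl RA) := by
        unfold rIs
        rw [List.map_pmap]
        rw [← List.pmap_eq_map (p := fun p => p.1 < w ∧ p.2 < 1) (H := fun _ hp => mem_rI.1 hp)]
        rfl
      rw [e1]
      unfold rI rI rw'
      rw [List.append_nil, List.map_reverse, List.map_map]
      rfl
    rw [e]
    cases L
    · have h1 := Bw.rot _ _ _ _ (by rw [List.cons_append] at hT; exact hT)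
        (by rw [ne_eq, sub_eq_self]; exact B0)
      cases R
      · simpa using h1
      · simpa using h1
    · cases R
      · simpa using hT
      · simpa using hT

end

end Pool.Agent.H93.W
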