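import Pool.Agent.H93.W.StripPat
import Pool.Agent.Q1.M4.Tot
import Pool.Agent.H25.W.TrackV

set_option autoImplicit false

/-!
# Increments at outer corners: fixed phase, function of the pattern

`exists_kap` : the index of a corner `ct` on the loop of `c0` is the same in all configurations of a set `G` of labels,
if the faces of `c0` and `ct` are joined off `G`. `incO_kap` : the increment of a plane environment at `ct` is
a fixed phase times the indicator `io`. `orb_iff` : the indicator is a function of the pattern `EPat Z` of a zone and of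
the labels off the zone.
-/

namespace Pool.Agent.H93.W

open Pool.Agent.H75.Perc hiding ph
open Pool.Agent.H75.TwoArm Pool.Agent.H75.Four Pool.Agent.H69.Q1
open Pool.Agent.Q1 Pool.Agent.Q1.M4 Pool.Agent.H33.Q1
open Pool.Agent.H54.W Pool.Agent.H34.W Pool.Agent.H25.W
open H80.W (Pat Entry Ex)
open Finset

/-! ### The phase -/

/-- **The faces of the corners `c0`, `ct` are joined off the labels `G`**, below the cluster of `c0` -/
structure OutG (G : Finset (ℤ × ℤ)) (c0 ct g : ℤ × ℤ) : Prop where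
  odd : ∀ e ∈ G, (e.1 + e.2) % 2 = 1
  dn : DCo G (fi c0) g
  low : ∀ v, Co G (vx c0) v → g.2 < v.2
  tt : DCo G (fi c0) (fi ct)

section kap

variable {G : Finset (ℤ × ℤ)} {c0 ct g : ℤ × ℤ}

theorem OutG.tot0 (h : OutG G c0 ct g) : Tot G c0 := by
  intro ω hω L hO k
  exact total_outer (h.dn.anti hω) (fun v hv => h.low v (hv.mono hω)) hO k

theorem OutG.tott (h : OutG G c0 ct g) (hv : Co G (vx c0) (vx ct)) : Tot G ct := by
  intro ω hω L hO k
  refine total_outer (g := g) ((h.tt.symm.trans h.dn).anti hω) (fun v hv' => ?_) hO k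
  exact h.low v (hv.trans (hv'.mono hω))

/-- **The index of `ct` on the loop of `c0` does not depend on the configuration.** -/
theorem exists_kap (h : OutG G c0 ct g) (k0 : ℤ) : ∃ κ : ℤ, ∀ w ⊆ G, ∀ L, Orb (nx w) c0 L →
    ∀ i < L, (nx w)^[i] c0 = ct → KK (nx w) (del w) c0 k0 i = κ := by
  classical
  by_cases hex : ∃ w ⊆ G, ∃ L, Orb (nx w) c0 L ∧ ∃ i < L, (nx w)^[i] c0 = ct
  · obtain ⟨w1, hw1, L1, hO1, i1, hi1, hc1⟩ := hex
    refine ⟨KK (nx w1) (del w1) c0 k0 i1, ?_⟩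
    intro w hw L hO i hi hc
    have hv : Co G (vx c0) (vx ct) := by
      have := co_orb w1 c0 i1
      rw [hc1] at this
      exact this.mono hw1
    obtain ⟨LE, hE⟩ := exists_orb_nx (w ∪ w1) c0
    have hsub : w ∪ w1 ⊆ G := union_subset hw hw1
    obtain ⟨j, hj, j1, j2⟩ := Tot.index h.odd h.tot0 (h.tott hv) k0 hsub hE _ w
      subset_union_left rfl L hO i hi hc
    obtain ⟨j', hj', j1', j2'⟩ := Tot.index h.odd h.tot0 (h.tott hv) k0 hsub hE _ w1
      subset_union_right rfl L1 hO1 i1 hi1 hc1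
    have : j = j' := by
      rcases lt_trichotomy j j' with hlt | heq | hgt
      · exact absurd (j1.trans j1'.symm) (hE.inj _ _ hlt hj')
      · exact heq
      · exact absurd (j1'.trans j1.symm) (hE.inj _ _ hgt hj)
    subst this
    rw [← j2, ← j2']
  · refine ⟨0, ?_⟩
    intro w hw L hO i hi hc
    exact absurd ⟨w, hw, L, hO, i, hi, hc⟩ hex

/-- the index of `ct` on the loop of `c0` -/
noncomputable def kap (h : OutG G c0 ct g) (k0 : ℤ) : ℤ := (exists_kap h k0).choose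

theorem kap_spec (h : OutG G c0 ct g) (k0 : ℤ) {w : Finset (ℤ × ℤ)} (hw : w ⊆ G) {L : ℕ}
    (hO : Orb (nx w) c0 L) {i : ℕ} (hi : i < L) (hc : (nx w)^[i] c0 = ct) :
    KK (nx w) (del w) c0 k0 i = kap h k0 := (exists_kap h k0).choose_spec w hw L hO i hi hc

open Classical in
/-- the indicator of `ct` on the loop of `c0` -/
noncomputable def io (w : Finset (ℤ × ℤ)) (c0 ct : ℤ × ℤ) : ℂ :=
  if InOrb (nx w) c0 ct then 1 else 0

theorem sum_kap (h : OutG G c0 ct g) (k0 : ℤ) {w : Finset (ℤ × ℤ)} (hw : w ⊆ G) {L : ℕ}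
    (hO : Orb (nx w) c0 L) :
    ∑ i ∈ range L, (if (nx w)^[i] c0 = ct then ph (KK (nx w) (del w) c0 k0 i) else 0) =
      ph (kap h k0) * io w c0 ct := by
  unfold io
  by_cases hin : InOrb (nx w) c0 ct
  · rw [if_pos hin, mul_one]
    obtain ⟨i, hi, hc⟩ := (hO.inOrb_iff ct).1 hin
    rw [Finset.sum_eq_single i]
    · rw [if_pos hc, kap_spec h k0 hw hO hi hc]
    · intro j hj hne
      rw [if_neg]
      intro hj'
      rcases lt_or_gt_of_ne hne with hlt | hgt
      · exact hO.inj j i hlt hi (hj'.trans hc.symm)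
      · exact hO.inj i j hgt (mem_range.1 hj) (hc.trans hj'.symm)
    · intro hn; exact absurd (mem_range.2 hi) hn
  · rw [if_neg hin, mul_zero]
    refine Finset.sum_eq_zero fun i _ => if_neg fun hc => hin ⟨i, hc⟩

/-- **The increment at an outer corner is a fixed phase times the indicator.** -/
theorem incO_kap {E W : Finset (ℤ × ℤ)} {k0 : ℤ} {g' : ℤ × ℤ}
    {hE : ∀ e ∈ E, (e.1 + e.2) % 2 = 1} {hd : Disjoint E W} {hk : k0 % 4 = ty c0}
    {hroot : plab c0 ∉ E} {hg : DCo (E ∪ W) (fi c0) g'}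
    {hlow : ∀ v, Co (E ∪ W) (vx c0) v → g'.2 < v.2} (h : OutG G c0 ct g) (hsub : E ∪ W ⊆ G)
    {ω : Finset (ℤ × ℤ)} (hω : ω ⊆ E) :
    (Env.plane E W c0 k0 g' hE hd hk hroot hg hlow).incO ω ct =
      ph (kap h k0) * io (ω ∪ W) c0 ct := by
  unfold Env.incO
  rw [← sum_kap h k0 (w := ω ∪ W) ((union_subset_union_left hω).trans hsub)
    (plane_orb (hE := hE) (hd := hd) (hk := hk) (hroot := hroot) (hg := hg) (hlow := hlow) hω)]
  refine Finset.sum_congr rfl fun i _ => ?_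
  rw [plane_z hω, plane_K hω]

end kap

/-! ### The indicator as a function of the pattern -/

section orb

variable {Z V w : Finset (ℤ × ℤ)} {c0 ct : ℤ × ℤ}

/-- the corner is not strictly inside a strand of the zone -/
def OutZ (Z : Finset (ℤ × ℤ)) (c : ℤ × ℤ) : Prop := lab c ∈ Z → Entry Z c

theorem outZ_of {c : ℤ × ℤ} (h : lab c ∉ Z) : OutZ Z c := fun h' => absurd h' h

/-- corners reached from `c0`; `V` : open labels off the zone, `r` : the pattern of the zone -/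
inductive OR (Z V : Finset (ℤ × ℤ)) (r : ℤ × ℤ → ℤ × ℤ → Prop) (c0 : ℤ × ℤ) : ℤ × ℤ → Prop
  | start : OR Z V r c0 c0
  | out {c : ℤ × ℤ} (h : OR Z V r c0 c) (hc : lab c ∉ Z) : OR Z V r c0 (nx V c)
  | jump {c d : ℤ × ℤ} (h : OR Z V r c0 c) (hr : r c d) : OR Z V r c0 d

theorem nx_off (hV : ∀ e ∉ Z, e ∈ V ↔ e ∈ w) {c : ℤ × ℤ} (hc : lab c ∉ Z) : nx V c = nx w c := by
  unfold nx
  by_cases h : lab c ∈ w
  · rw [if_pos h, if_pos ((hV _ hc).2 h)]
  · rw [if_neg h, if_neg (fun h' => h ((hV _ hc).1 h'))]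

theorem OR.orb (hV : ∀ e ∉ Z, e ∈ V ↔ e ∈ w) {c : ℤ × ℤ} (h : OR Z V (EPat Z w) c0 c) :
    InOrb (nx w) c0 c := by
  induction h with
  | start => exact ⟨0, rfl⟩
  | out _ hc ih =>
    obtain ⟨n, hn⟩ := ih
    exact ⟨n + 1, by rw [Function.iterate_succ_apply', hn, nx_off hV hc]⟩
  | jump _ hr ih =>
    obtain ⟨n, hn⟩ := ih
    obtain ⟨-, -, m, hm, -, -⟩ := hr
    exact ⟨m + n, by rw [Function.iterate_add_apply, hn, hm]⟩

theorem OR.of_orb (hV : ∀ e ∉ Z, e ∈ V ↔ e ∈ w) (h0 : OutZ Z c0) (n : ℕ) :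
    (OutZ Z ((nx w)^[n] c0) → OR Z V (EPat Z w) c0 ((nx w)^[n] c0)) ∧
    (lab ((nx w)^[n] c0) ∈ Z → ∃ m ≤ n, OR Z V (EPat Z w) c0 ((nx w)^[m] c0) ∧
      Entry Z ((nx w)^[m] c0) ∧ ∀ k, m ≤ k → k ≤ n → lab ((nx w)^[k] c0) ∈ Z) := by
  induction n with
  | zero =>
    refine ⟨fun _ => OR.start, fun h => ⟨0, le_rfl, OR.start, h0 h, ?_⟩⟩
    intro k h1 h2
    obtain rfl : k = 0 := by omega
    exact h
  | succ n ih =>
    obtain ⟨i1, i2⟩ := ih
    have e1 : (nx w)^[n + 1] c0 = nx w ((nx w)^[n] c0) := Function.iterate_succ_apply' _ _ _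
    by_cases hn : lab ((nx w)^[n] c0) ∈ Z
    · obtain ⟨m, m1, m2, m3, m4⟩ := i2 hn
      by_cases hn' : lab ((nx w)^[n + 1] c0) ∈ Z
      · refine ⟨fun h => ?_, fun _ => ⟨m, by omega, m2, m3, ?_⟩⟩
        · exfalso
          have h1 := h hn' _ hn
          rw [e1] at h1
          unfold nx at h1
          split_ifs at h1 with h2
          · exact h1.1 rfl
          · exact h1.2 rfl
        · intro k k1 k2
          rcases Nat.lt_or_ge k (n + 1) with h | h
          · exact m4 k k1 (by omega)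
          · obtain rfl : k = n + 1 := by omega
            exact hn'
      · refine ⟨fun _ => ?_, fun h => absurd h hn'⟩
        refine OR.jump m2 ⟨m3, m4 m le_rfl m1, n + 1 - m, ?_, hn', ?_⟩
        · rw [← Function.iterate_add_apply, Nat.sub_add_cancel (by omega)]
        · intro k hk
          change lab ((nx w)^[k] ((nx w)^[m] c0)) ∈ Z
          rw [← Function.iterate_add_apply]
          exact m4 _ (by omega) (by omega)
    · have h1 : OR Z V (EPat Z w) c0 ((nx w)^[n + 1] c0) := by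
        rw [e1, ← nx_off hV hn]
        exact OR.out (i1 (outZ_of hn)) hn
      refine ⟨fun _ => h1, fun h => ⟨n + 1, le_rfl, h1, ?_, ?_⟩⟩
      · intro x hx
        have hc : nxO ((nx w)^[n] c0) = (nx w)^[n + 1] c0 ∨
            nxC ((nx w)^[n] c0) = (nx w)^[n + 1] c0 := by
          rw [e1]
          unfold nx
          split_ifs
          · exact Or.inl rfl
          · exact Or.inr rfl
        refine ⟨fun h2 => hn ?_, fun h2 => hn ?_⟩
        · rw [← lab_pre (Or.inl h2) hc]; exact hx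
        · rw [← lab_pre (Or.inr h2) hc]; exact hx
      · intro k k1 k2
        obtain rfl : k = n + 1 := by omega
        exact h

/-- **The loop of an outer corner and the pattern of the zone.** -/
theorem orb_iff (hV : ∀ e ∉ Z, e ∈ V ↔ e ∈ w) (h0 : OutZ Z c0) (ht : OutZ Z ct) :
    InOrb (nx w) c0 ct ↔ OR Z V (EPat Z w) c0 ct := by
  constructor
  · rintro ⟨n, rfl⟩
    exact (OR.of_orb hV h0 n).1 ht
  · exact OR.orb hV

open Classical in
/-- the indicator, as a function of the pattern -/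
noncomputable def Pio (Z V : Finset (ℤ × ℤ)) (c0 ct : ℤ × ℤ) (r : ℤ × ℤ → ℤ × ℤ → Prop) : ℂ :=
  if OR Z V r c0 ct then 1 else 0

theorem io_pat (hV : ∀ e ∉ Z, e ∈ V ↔ e ∈ w) (h0 : OutZ Z c0) (ht : OutZ Z ct) :
    io w c0 ct = Pio Z V c0 ct (EPat Z w) := by
  unfold io Pio
  by_cases h : InOrb (nx w) c0 ct
  · rw [if_pos h, if_pos ((orb_iff hV h0 ht).1 h)]
  · rw [if_neg h, if_neg (fun h' => h ((orb_iff hV h0 ht).2 h'))]

end orb

/-! ### Windows -/

section win

variable {D : Win} (O : Out D) {τ : ℤ → ℤ} {Z G : Finset (ℤ × ℤ)} {ct g : ℤ × ℤ}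

theorem off_J (hZ : D.GA ⊆ Z) {ω : Finset (ℤ × ℤ)} (hω : ω ⊆ D.EJ τ) :
    ∀ e ∉ Z, e ∈ O.Wo ↔ e ∈ ω ∪ D.WJ τ O.Wo := by
  intro e he
  unfold Win.WJ
  rw [mem_union, mem_union]
  constructor
  · intro h; exact Or.inr (Or.inr h)
  · rintro (h | h | h)
    · exact absurd (hZ (Win.EJ_sub (hω h))) he
    · exact absurd (hZ (Win.WR_sub h)) he
    · exact h

/-- **The increment at an outer corner as a functional `FJ` of the pattern**, vertical frame. `G` : any set
of labels which contains the box and the far labels. -/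
theorem incO_FJ (h : OutG G O.c0 ct g) (hG : D.GA ∪ O.Wo ⊆ G) (hZ : D.GA ⊆ Z) (h0 : OutZ Z O.c0)
    (ht : OutZ Z ct) {ω : Finset (ℤ × ℤ)} (hω : ω ⊆ D.EJ τ) :
    (Win.XJ O τ).incO ω ct = ph (kap h O.k0) * FJ D Z O.Wo (Pio Z O.Wo O.c0 ct) τ ω := by
  unfold FJ
  rw [← io_pat (off_J O hZ hω) h0 ht]
  exact incO_kap h ((Win.EW_sub τ O).trans hG) hω

/-- **The increments of a window, any weights**, vertical frame. -/
theorem incW_FJ (h : OutG G O.c0 ct g) (hG : D.GA ∪ O.Wo ⊆ G) (hZ : D.GA ⊆ Z) (h0 : OutZ Z O.c0)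
    (ht : OutZ Z ct) (α : ℤ × ℤ → ℂ) :
    (Win.XJ O τ).incW (opw α) ct = ph (kap h O.k0) * VJ D (FJ D Z O.Wo (Pio Z O.Wo O.c0 ct)) τ α := by
  unfold Env.incW VJ
  rw [← Ec_smul]
  exact Ec_congr fun ω hω => incO_FJ O h hG hZ h0 ht hω

end win

section hwin

variable {D : HWin} (O : HOut D) {τ : ℤ → ℤ} {Z G : Finset (ℤ × ℤ)} {ct g : ℤ × ℤ}

theorem off_H (hZ : D.GA ⊆ Z) {ω : Finset (ℤ × ℤ)} (hω : ω ⊆ D.EH τ) :
    ∀ e ∉ Z, e ∈ O.Wo ↔ e ∈ ω ∪ D.WH τ O.Wo := by
  intro e he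
  unfold HWin.WH
  rw [mem_union, mem_union]
  constructor
  · intro h; exact Or.inr (Or.inr h)
  · rintro (h | h | h)
    · exact absurd (hZ (HWin.EH_sub (hω h))) he
    · exact absurd (hZ (HWin.WR_sub h)) he
    · exact h

/-- **The increment at an outer corner as a functional `FP` of the pattern**, horizontal frame. -/
theorem incO_FP (h : OutG G O.c0 ct g) (hG : D.GA ∪ O.Wo ⊆ G) (hZ : D.GA ⊆ Z) (h0 : OutZ Z O.c0)
    (ht : OutZ Z ct) {ω : Finset (ℤ × ℤ)} (hω : ω ⊆ D.EH τ) :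
    (HWin.XH O τ).incO ω ct = ph (kap h O.k0) * FP D Z O.Wo (Pio Z O.Wo O.c0 ct) τ ω := by
  unfold FP
  rw [← io_pat (off_H O hZ hω) h0 ht]
  exact incO_kap h ((HWin.EW_sub τ O).trans hG) hω

/-- **The increments of a window, any weights**, horizontal frame. -/
theorem incW_FP (h : OutG G O.c0 ct g) (hG : D.GA ∪ O.Wo ⊆ G) (hZ : D.GA ⊆ Z) (h0 : OutZ Z O.c0)
    (ht : OutZ Z ct) (α : ℤ × ℤ → ℂ) :
    (HWin.XH O τ).incW (opw α) ct = ph (kap h O.k0) * VF D (FP D Z O.Wo (Pio Z O.Wo O.c0 ct)) τ α := by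
  unfold Env.incW VF
  rw [← Ec_smul]
  exact Ec_congr fun ω hω => incO_FP O h hG hZ h0 ht hω

end hwin

end Pool.Agent.H93.W
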