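import Pool.Agent.H93.W.PatP

set_option autoImplicit false

/-!
# The pattern of a zone and the arcs of the open network
-/

namespace Pool.Agent.H93.W

open Pool.Agent.H64.Q1 hiding Tl
open LP Pool.Agent.H81.G1 Pool.Agent.H13.Q1 Pool.Agent.Q1 Pool.Agent.H33.Q1
open Pool.Agent.H75.Perc Pool.Agent.H75.TwoArm
open Pool.Agent.H64.Win Pool.Agent.H11.W
open Pool.Agent.H74.R45 hiding Tl
open Pool.Agent.H46.Sp (TP lbP tyP crP)
open H80.W (Pat Entry Ex)
open Finset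

/-! ### Predecessors of a corner -/

theorem exists_nxC (c : ℤ × ℤ) : ∃ x, nxC x = c := by
  obtain ⟨x, y⟩ := c
  rcases Int.emod_two_eq_zero_or_one x with h | h <;> rcases Int.emod_two_eq_zero_or_one y with h' | h'
  · refine ⟨(x, y + 1), ?_⟩
    unfold nxC
    simp only
    rw [if_neg (by omega), if_pos h, Prod.mk.injEq]
    omega
  · refine ⟨(x + 1, y), ?_⟩
    unfold nxC
    simp only
    rw [if_neg (by omega), if_neg (by omega), Prod.mk.injEq]
    omega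
  · refine ⟨(x - 1, y), ?_⟩
    unfold nxC
    simp only
    rw [if_pos h', if_pos (by omega), Prod.mk.injEq]
    omega
  · refine ⟨(x, y - 1), ?_⟩
    unfold nxC
    simp only
    rw [if_pos (by omega), if_neg (by omega), Prod.mk.injEq]
    omega

theorem lab_pre {x y c : ℤ × ℤ} (hx : nxO x = c ∨ nxC x = c) (hy : nxO y = c ∨ nxC y = c) :
    lab x = lab y := by
  by_contra h
  have key : ∀ w : Finset (ℤ × ℤ), nx w x = c → nx w y = c → False := by
    intro w h1 h2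
    apply h
    rw [nx_injective w (h1.trans h2.symm)]
  rcases hx with hx | hx <;> rcases hy with hy | hy
  · refine key {lab x, lab y} ?_ ?_ <;> unfold nx <;> rw [if_pos (by simp)] <;> assumption
  · refine key {lab x} ?_ ?_ <;> unfold nx
    · rw [if_pos (by simp)]; assumption
    · rw [if_neg (by simp; exact fun h' => h h'.symm)]; assumption
  · refine key {lab y} ?_ ?_ <;> unfold nx
    · rw [if_neg (by simp; exact h)]; assumption
    · rw [if_pos (by simp)]; assumption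
  · refine key ∅ ?_ ?_ <;> unfold nx <;> rw [if_neg (by simp)] <;> assumption

theorem pre_ce {q : ℤ × ℤ} {d : Dir} (h : inq q d = false) {x : ℤ × ℤ}
    (hx : nxO x = ce q d ∨ nxC x = ce q d) : lab x = lt q := by
  obtain ⟨b, hb⟩ : ∃ b, b = (decide (lt q ∈ (∅ : Finset (ℤ × ℤ))) == decide ((q.1 + q.2) % 2 = 1)) :=
    ⟨_, rfl⟩
  have h1 : inq q (d.mate b) = true := by rw [inq_mate, h]; rfl
  obtain ⟨a1, a2, -⟩ := nx_ce ∅ h1
  rw [← hb, mate_mate] at a2
  rw [← a1]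
  refine lab_pre hx (Or.inr ?_)
  rw [← a2]
  unfold nx
  rw [if_neg (by simp)]

theorem entry_ce {Z : Finset (ℤ × ℤ)} {q : ℤ × ℤ} {d : Dir} (h : inq q d = false)
    (hq : lt q ∉ Z) : Entry Z (ce q d) := by
  intro x hx
  constructor
  · intro h1
    apply hq
    rw [← pre_ce h (Or.inl h1)]
    exact hx
  · intro h1
    apply hq
    rw [← pre_ce h (Or.inr h1)]
    exact hx

/-! ### The pattern -/

section pat

variable {X : Env} {W P Z : Finset (ℤ × ℤ)} {R O : Type*} {n : ℕ} {M : Finset (TP P)}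
  {J : R ⊕ O ⊕ Fin n ≃ TP P ⊕ ↥M} {Or : O → Prop} [DecidablePred Or] {pos : O → ℤ × ℤ}

/-- the open tiles are the tiles outside the zone -/
structure OT' (Z : Finset (ℤ × ℤ)) (M : Finset (TP P)) (J : R ⊕ O ⊕ Fin n ≃ TP P ⊕ ↥M)
    (Or : O → Prop) (pos : O → ℤ × ℤ) : Prop where
  o1 : ∀ o, Or o → lt (pos o) ∉ Z ∧ ∃ h : pos o ∈ P, J (.inr (.inl o)) = .inl ⟨pos o, h⟩
  o2 : ∀ i : TP P, lt i.1 ∉ Z → ∃ o, Or o ∧ J (.inr (.inl o)) = .inl i
  mZ : ∀ m ∈ M, lt m.1 ∈ Z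

/-- the strands of the open network, as corners -/
def NPat (Z : Finset (ℤ × ℤ)) (Or : O → Prop) (pos : O → ℤ × ℤ)
    (r : {o // Or o} × Dir → {o // Or o} × Dir → Prop) (c d : ℤ × ℤ) : Prop :=
  ∃ o o' : {o // Or o} × Dir, inq (pos o.1.1) o.2 = false ∧ lab (ce (pos o.1.1) o.2) ∈ Z ∧
    c = ce (pos o.1.1) o.2 ∧ d = ce (pos o'.1.1) o'.2 ∧ r o o'

/-- **The pattern of the zone is the pattern of the open network.** -/
theorem pat_eq (hX : IsEnv X X.E W) (hd : Disjoint X.E W) (T : Tiles X (lbP : TP P → ℤ × ℤ) tyP crP)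
    (hZ : ZRd Z X.E) (D : OT' Z M J Or pos) (μ : TP P → Dir) (inv : ∀ x, sπ M μ (wπ T) (sπ M μ (wπ T) x) = x)
    (ne : ∀ x, sπ M μ (wπ T) x ≠ x) (σ : TP P ⊕ ↥M → Bool) :
    EPat Z (osn (lbP : TP P → ℤ × ℤ) tyP (mer M μ σ) ∪ W) =
      NPat Z Or pos ((cN J Or (sπ M μ (wπ T)) inv ne).rel (clS J Or σ)) := by
  set K : TP P → Prop := fun i => lt i.1 ∈ Z with hK
  have hKc : ∀ i, spK (M := M) K i → Cl J Or i := by
    rintro (i | k) h o ho hc
    · obtain ⟨h1, h2, h3⟩ := D.o1 o ho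
      rw [h3, Sum.inl.injEq] at hc
      subst hc
      exact h1 h
    · obtain ⟨h1, h2, h3⟩ := D.o1 o ho
      rw [h3] at hc
      exact absurd hc (by simp)
  -- the strand of an open end
  have main : ∀ o : {o // Or o} × Dir, inq (pos o.1.1) o.2 = false → lab (ce (pos o.1.1) o.2) ∈ Z →
      ∃ o' : {o // Or o} × Dir, Ex (nx (osn (lbP : TP P → ℤ × ℤ) tyP (mer M μ σ) ∪ W))
        (fun c => lab c ∈ Z) (ce (pos o.1.1) o.2) (ce (pos o'.1.1) o'.2) ∧
        (cN J Or (sπ M μ (wπ T)) inv ne).rel (clS J Or σ) o o' := by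
    intro o h1 h2
    obtain ⟨h3, h4, h5⟩ := D.o1 o.1.1 o.1.2
    obtain ⟨w, hw1, hw2⟩ := CA.exists_end (π := wπ T) (K := K) (s := mer M μ σ)
      (z := (⟨pos o.1.1, h4⟩, o.2)) (wπ_wπ T) h3
    obtain ⟨g1, m, g2, g3⟩ := CA.plane hX hd T hZ (K := K) (fun i hi => hi) (mer M μ σ)
      (z := (⟨pos o.1.1, h4⟩, o.2)) h1 h2 hw1
    obtain ⟨o', e1, e2⟩ := D.o2 w.1 hw2
    obtain ⟨h3', h4', h5'⟩ := D.o1 o' e1
    have e3 : w.1 = ⟨pos o', h4'⟩ := by
      rw [e2, Sum.inl.injEq] at h5'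
      exact h5'
    have e4 : w = (⟨pos o', h4'⟩, w.2) := by rw [← e3]
    refine ⟨(⟨o', e1⟩, w.2), ⟨m, ?_, ?_, g3⟩, ?_⟩
    · rw [show ce (pos o.1.1) o.2 = crP ((⟨pos o.1.1, h4⟩, o.2) : TP P × Dir) from rfl, g2, e4]
      rfl
    · have h6 := lab_cr T g1
      rw [e4] at h6
      change lab (ce (pos o') w.2) = lt (pos o') at h6
      change ¬ lab (ce (pos o') w.2) ∈ Z
      rw [h6]
      exact h3'
    · have hs := CA.split (μ := μ) (σ := σ) (fun m hm => D.mZ m hm) hw1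
      have k1 : kp M μ (⟨pos o.1.1, h4⟩, o.2) = oe J Or o := by
        rw [kp_of_not M μ (fun h => h3 (D.mZ _ h.1))]
        unfold oe
        rw [h5]
      have k2 : kp M μ w = oe J Or (⟨o', e1⟩, w.2) := by
        rw [kp_of_not M μ (fun h => hw2 (D.mZ _ h.1))]
        unfold oe
        rw [e2]
      rw [k1, k2] at hs
      exact hs.rel J Or _ inv ne hKc
  funext c d
  apply propext
  constructor
  · rintro ⟨h1, h2, h3⟩
    obtain ⟨x, hx⟩ := exists_nxC c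
    have hx1 : lab x ∉ Z := fun h => (h1 x h).2 hx
    have hx2 : lab x ∈ X.E := hZ.pre x hx1 (by rw [hx]; exact h2)
    obtain ⟨⟨i, e⟩, hy1, hy2⟩ := cr_surj T hx2
    have hy3 : lab x = lt i.1 := by rw [← hy2]; exact lab_cr T hy1
    obtain ⟨b, hb⟩ : ∃ b, b = (decide (lt i.1 ∈ (∅ : Finset (ℤ × ℤ))) ==
      decide ((i.1.1 + i.1.2) % 2 = 1)) := ⟨_, rfl⟩
    obtain ⟨-, a2, -⟩ := nx_ce ∅ (show inq i.1 e = true from hy1)
    rw [← hb] at a2
    have hc : c = ce i.1 (e.mate b) := by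
      rw [← a2, ← hx, ← hy2]
      unfold nx
      rw [if_neg (by simp)]
      rfl
    obtain ⟨o, e1, e2⟩ := D.o2 i (by rw [← hy3]; exact hx1)
    obtain ⟨h3', h4', h5'⟩ := D.o1 o e1
    have e3 : i = ⟨pos o, h4'⟩ := by
      rw [e2, Sum.inl.injEq] at h5'
      exact h5'
    subst e3
    have hi : inq (pos o) (e.mate b) = false := by
      rw [inq_mate, show inq (pos o) e = true from hy1]; rfl
    obtain ⟨o', k1, k2⟩ := main (⟨o, e1⟩, e.mate b) hi (by rw [hc] at h2; exact h2)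
    refine ⟨(⟨o, e1⟩, e.mate b), o', hi, by rw [hc] at h2; exact h2, hc, ?_, k2⟩
    rw [hc] at h3
    exact H80.W.Ex.det h3 k1
  · rintro ⟨o, o', h1, h2, rfl, rfl, h3⟩
    obtain ⟨o'', k1, k2⟩ := main o h1 h2
    have := rel_det _ h3 k2
    subst this
    exact ⟨entry_ce h1 (D.o1 o.1.1 o.1.2).1, h2, k1⟩

end pat

end Pool.Agent.H93.W
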