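import Pool.Agent.H11.W.ONet3
import Pool.Agent.H93.W.RgwS

set_option autoImplicit false

/-!
# Closed networks with open tiles

`π` : the wires of a closed network, `Or` : the open ones of the other tiles. `cN J Or π` : the open network
whose outer ends are the ends of the open tiles. `cN_exchange` : the exchange theorem.
-/

namespace Pool.Agent.H93.W

open Pool.Agent.H64.Q1 Pool.Agent.H64.Q1.LP Pool.Agent.H81.G1 Pool.Agent.H13.Q1 Pool.Agent.H11.W Finset

section cN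

variable {R O ι : Type*} {n : ℕ} (J : R ⊕ O ⊕ Fin n ≃ ι) (Or : O → Prop) [DecidablePred Or]

/-- closed tiles, open tiles -/
def spO : R ⊕ O ⊕ Fin n ≃ (R ⊕ {o // ¬ Or o} ⊕ Fin n) ⊕ {o // Or o} where
  toFun x := match x with
    | .inl r => .inl (.inl r)
    | .inr (.inl o) => if h : Or o then .inr ⟨o, h⟩ else .inl (.inr (.inl ⟨o, h⟩))
    | .inr (.inr i) => .inl (.inr (.inr i))
  invFun x := match x with
    | .inl (.inl r) => .inl r
    | .inl (.inr (.inl o)) => .inr (.inl o.1)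
    | .inl (.inr (.inr i)) => .inr (.inr i)
    | .inr o => .inr (.inl o.1)
  left_inv x := by
    rcases x with r | o | i
    · rfl
    · by_cases h : Or o
      · simp only [dif_pos h]
      · simp only [dif_neg h]
    · rfl
  right_inv x := by
    rcases x with (r | o | i) | o
    · rfl
    · simp only [dif_neg o.2]
    · rfl
    · simp only [dif_pos o.2]

/-- the ends -/
def eqE : ι × Dir ≃ ((R ⊕ {o // ¬ Or o} ⊕ Fin n) × Dir) ⊕ ({o // Or o} × Dir) where
  toFun x := Sum.map (fun k => (k, x.2)) (fun o => (o, x.2)) (spO Or (J.symm x.1))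
  invFun x := match x with
    | .inl x => (J ((spO Or).symm (.inl x.1)), x.2)
    | .inr x => (J ((spO Or).symm (.inr x.1)), x.2)
  left_inv x := by
    obtain ⟨i, d⟩ := x
    obtain ⟨j, rfl⟩ := J.surjective i
    simp only [Equiv.symm_apply_apply]
    rcases h : spO Or j with k | k
    · have e : (spO Or).symm (.inl k) = j := by rw [← h, Equiv.symm_apply_apply]
      simp only [Sum.map_inl, e]
    · have e : (spO Or).symm (.inr k) = j := by rw [← h, Equiv.symm_apply_apply]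
      simp only [Sum.map_inr, e]
  right_inv x := by
    rcases x with ⟨k, d⟩ | ⟨k, d⟩
    · simp only [Equiv.symm_apply_apply, Equiv.apply_symm_apply, Sum.map_inl]
    · simp only [Equiv.symm_apply_apply, Equiv.apply_symm_apply, Sum.map_inr]

/-- **The open network** of a closed network with open tiles -/
def cN (π : ι × Dir → ι × Dir) (inv : ∀ x, π (π x) = x) (ne : ∀ x, π x ≠ x) :
    ONet (R ⊕ {o // ¬ Or o} ⊕ Fin n) ({o // Or o} × Dir) where
  π x := eqE J Or (π ((eqE J Or).symm x))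
  inv x := by rw [Equiv.symm_apply_apply, inv, Equiv.apply_symm_apply]
  ne x h := ne ((eqE J Or).symm x) (by rw [← (eqE J Or).injective.eq_iff, h, Equiv.apply_symm_apply])

/-- the exposed ends -/
def exO {m n : ℕ} : Ex O m n ≃ Ex {o // ¬ Or o} m n ⊕ ({o // Or o} × Dir) where
  toFun x := match x with
    | .f1 i => .inl (.f1 i)
    | .f2 i => .inl (.f2 i)
    | .o x => if h : Or x.1 then .inr (⟨x.1, h⟩, x.2) else .inl (.o (⟨x.1, h⟩, x.2))
    | .u => .inl .u
    | .v => .inl .v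
  invFun x := match x with
    | .inl (.f1 i) => .f1 i
    | .inl (.f2 i) => .f2 i
    | .inl (.o x) => .o (x.1.1, x.2)
    | .inl .u => .u
    | .inl .v => .v
    | .inr x => .o (x.1.1, x.2)
  left_inv x := by
    rcases x with i | i | x | _ | _
    · rfl
    · rfl
    · by_cases h : Or x.1
      · simp only [dif_pos h]
      · simp only [dif_neg h]
    · rfl
    · rfl
  right_inv x := by
    rcases x with (i | i | x | _ | _) | x
    · rfl
    · rfl
    · simp only [dif_neg x.1.2]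
    · rfl
    · rfl
    · simp only [dif_pos x.1.2]

/-- a pairing with other names -/
def trLP {D D' : Type*} (e : D ≃ D') (g : LP D) : LP D' where
  p := e.symm.trans (g.p.trans e)
  d x := g.d (e.symm x)
  inv x := by
    change e (g (e.symm (e (g (e.symm x))))) = x
    rw [Equiv.symm_apply_apply, g.invol, Equiv.apply_symm_apply]
  ne' x h := by
    change e (g (e.symm x)) = x at h
    apply g.ne (e.symm x)
    rw [← e.injective.eq_iff, h, Equiv.apply_symm_apply]
  ant x := by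
    change g.d (e.symm (e (g (e.symm x)))) = -g.d (e.symm x)
    rw [Equiv.symm_apply_apply, g.anti]

theorem trLP_apply {D D' : Type*} (e : D ≃ D') (g : LP D) (x : D') :
    trLP e g x = e (g (e.symm x)) := rfl

end cN

section ex

variable {R A O ι1 ι2 : Type*} [DecidableEq R] [DecidableEq A] [DecidableEq O] [Fintype R] [Fintype O]
  [Fintype ι1]
  [DecidableEq ι1] [Fintype ι2] [DecidableEq ι2] {n1 n2 : ℕ} (X : Rgw R A n1 n2) (h1 : 0 < n1)
  (h2 : 0 < n2) (Or : O → Prop) [DecidablePred Or]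

omit [DecidableEq R] [DecidableEq O] [Fintype R] [Fintype O] [Fintype ι1] [DecidableEq ι1] in
theorem eqE_E1 (J : R ⊕ O ⊕ Fin n1 ≃ ι1) (s : Fin n1 → Dir) (q : Ex O n1 n2) :
    eqE J Or (X.E1 h1 J s q) =
      Sum.map (X.E1 h1 (Equiv.refl (R ⊕ {o // ¬ Or o} ⊕ Fin n1)) s) id (exO Or q) := by
  rcases q with i | i | x | _ | _
  · simp [Rgw.E1, eqE, jl, spO, exO]
  · simp [Rgw.E1, eqE, jr, spO, exO]
  · by_cases h : Or x.1
    · simp [Rgw.E1, eqE, jo, spO, exO, h]
    · simp [Rgw.E1, eqE, jo, spO, exO, h]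
  · simp [Rgw.E1, eqE, jl, spO, exO]
  · simp [Rgw.E1, eqE, jl, spO, exO]

omit [DecidableEq R] [DecidableEq O] [Fintype R] [Fintype O] [Fintype ι2] [DecidableEq ι2] in
theorem eqE_E2 (J : R ⊕ O ⊕ Fin n2 ≃ ι2) (s : Fin n2 → Dir) (q : Ex O n1 n2) :
    eqE J Or (X.E2 h2 J s q) =
      Sum.map (X.E2 h2 (Equiv.refl (R ⊕ {o // ¬ Or o} ⊕ Fin n2)) s) id (exO Or q) := by
  rcases q with i | i | x | _ | _
  · simp [Rgw.E2, eqE, jr, spO, exO]
  · simp [Rgw.E2, eqE, jl, spO, exO]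
  · by_cases h : Or x.1
    · simp [Rgw.E2, eqE, jo, spO, exO, h]
    · simp [Rgw.E2, eqE, jo, spO, exO, h]
  · simp [Rgw.E2, eqE, jl, spO, exO]
  · simp [Rgw.E2, eqE, jl, spO, exO]

/-- the states of the closed tiles -/
def clS {R O ι : Type*} {n : ℕ} (J : R ⊕ O ⊕ Fin n ≃ ι) (Or : O → Prop) [DecidablePred Or]
    (s : ι → Bool) (k : R ⊕ {o // ¬ Or o} ⊕ Fin n) : Bool := s (J ((spO Or).symm (.inl k)))

omit [DecidableEq R] [DecidableEq A] [DecidableEq O] [Fintype R] [Fintype O] [Fintype ι1]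
  [DecidableEq ι1] in
/-- the sum over the states of the open tiles -/
theorem sum_open {R O ι : Type*} [Fintype R] [Fintype O] [Fintype ι] [DecidableEq R] [DecidableEq O]
    [DecidableEq ι] {n : ℕ} (J : R ⊕ O ⊕ Fin n ≃ ι) (Or : O → Prop) [DecidablePred Or] {a b : ι → ℂ}
    (hab : ∀ i, a i + b i = 1) (F : ((R ⊕ {o // ¬ Or o} ⊕ Fin n) → Bool) → ℂ) :
    ∑ s : ι → Bool, (∏ i, if s i then b i else a i) * F (clS J Or s) =
      ∑ s : (R ⊕ {o // ¬ Or o} ⊕ Fin n) → Bool, (∏ k, if s k then b (J ((spO Or).symm (.inl k))) else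
        a (J ((spO Or).symm (.inl k)))) * F s := by
  set e : (R ⊕ {o // ¬ Or o} ⊕ Fin n) ⊕ {o // Or o} ≃ ι := (spO Or).symm.trans J with he
  rw [← (Equiv.arrowCongr e (Equiv.refl Bool)).sum_comp,
    ← (Equiv.sumArrowEquivProdArrow (R ⊕ {o // ¬ Or o} ⊕ Fin n) {o // Or o} Bool).symm.sum_comp,
    Fintype.sum_prod_type]
  refine Finset.sum_congr rfl fun s _ => ?_
  have e1 : ∀ t : {o // Or o} → Bool, (∏ i, if (Equiv.arrowCongr e (Equiv.refl Bool))
      ((Equiv.sumArrowEquivProdArrow (R ⊕ {o // ¬ Or o} ⊕ Fin n) {o // Or o} Bool).symm (s, t)) i then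
        b i else a i) = (∏ k, if s k then b (e (.inl k)) else a (e (.inl k))) *
        ∏ o, (if t o then b (e (.inr o)) else a (e (.inr o))) := by
    intro t
    rw [← e.prod_comp, Fintype.prod_sum_type]
    congr 1
    · refine Finset.prod_congr rfl fun k _ => ?_
      simp [Equiv.arrowCongr]
    · refine Finset.prod_congr rfl fun k _ => ?_
      simp [Equiv.arrowCongr]
  have e2 : ∀ t : {o // Or o} → Bool, clS J Or ((Equiv.arrowCongr e (Equiv.refl Bool))
      ((Equiv.sumArrowEquivProdArrow (R ⊕ {o // ¬ Or o} ⊕ Fin n) {o // Or o} Bool).symm (s, t))) =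
        s := by
    intro t
    funext k
    unfold clS
    have : J ((spO Or).symm (.inl k)) = e (.inl k) := rfl
    rw [this]
    simp [Equiv.arrowCongr]
  simp only [e1, e2]
  rw [← Finset.sum_mul, ← Finset.mul_sum]
  have e3 : ∑ t : {o // Or o} → Bool, ∏ o, (if t o then b (e (.inr o)) else a (e (.inr o))) = 1 := by
    have h := Finset.prod_univ_sum (t := fun _ : {o // Or o} => (Finset.univ : Finset Bool))
      (f := fun o y => if y then b (e (.inr o)) else a (e (.inr o)))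
    rw [Fintype.piFinset_univ] at h
    rw [← h]
    apply Finset.prod_eq_one
    intro i _
    rw [Fintype.sum_bool]
    simp only [if_true, Bool.false_eq_true, if_false]
    rw [add_comm]
    exact hab _
  rw [e3, mul_one]
  rfl

omit [DecidableEq R] [DecidableEq O] [Fintype R] [Fintype O] [Fintype ι1] [DecidableEq ι1] in
theorem oline_of {n : ℕ} {pL : Fin n → R × Dir} {kL : Fin n → ℤ} (J : R ⊕ O ⊕ Fin n ≃ ι1)
    {s : Fin n → Dir} {N : Net ι1} (H : LineNet X.g X.er pL kL J s N) (inv : ∀ x, N.π (N.π x) = x)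
    (ne : ∀ x, N.π x ≠ x) :
    OLine X.g X.er pL (Equiv.refl (R ⊕ {o // ¬ Or o} ⊕ Fin n)) s (cN J Or N.π inv ne) := by
  have kr : ∀ x : R × Dir, eqE J Or (jr J x) = .inl (jr (Equiv.refl _) x) := by
    intro x
    simp [eqE, jr, spO]
  have kl : ∀ i d, eqE J Or (jl J i d) = .inl (jl (Equiv.refl _) i d) := by
    intro i d
    simp [eqE, jl, spO]
  refine ⟨?_, ?_, ?_⟩
  · intro x y h
    change eqE J Or (N.π (jr J x)) = _
    rw [(H.rr x y h).1, kr]
  · intro i
    change eqE J Or (N.π (jr J (pL i))) = _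
    rw [(H.rl i).1, kl]
  · intro i j h
    change eqE J Or (N.π (jl J i (rc (rc (s i))))) = _
    rw [(H.ll i j h).1, kl]

/-- **The exchange theorem for closed networks with open tiles.** -/
theorem cN_exchange {N1 : Net ι1} {N2 : Net ι2} (J1 : R ⊕ O ⊕ Fin n1 ≃ ι1)
    (J2 : R ⊕ O ⊕ Fin n2 ≃ ι2) (s1 : Fin n1 → Dir) (s2 : Fin n2 → Dir)
    (H1 : LineNet X.g X.er X.p1 (fun i => X.kf (X.f1 i)) J1 s1 N1)
    (H2 : LineNet X.g X.er X.p2 (fun i => X.kf (X.f2 i)) J2 s2 N2)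
    (ne1 : ∀ x, N1.π x ≠ x) (ne2 : ∀ x, N2.π x ≠ x)
    (pair : ∀ q, ∃ q', N1.π (X.E1 h1 J1 s1 q) = X.E1 h1 J1 s1 q' ∧
      N2.π (X.E2 h2 J2 s2 q) = X.E2 h2 J2 s2 q')
    {a1 b1 : ι1 → ℂ} {a2 b2 : ι2 → ℂ} (hab1 : ∀ i, a1 i + b1 i = 1) (hab2 : ∀ i, a2 i + b2 i = 1)
    (wR1 : ∀ i, (if (X.st i).v then a1 (J1 (.inl i)) else b1 (J1 (.inl i))) = X.wt i)
    (wR2 : ∀ i, (if (X.st i).v then a2 (J2 (.inl i)) else b2 (J2 (.inl i))) = X.wt i)
    (wO : ∀ o, ¬ Or o → b1 (J1 (.inr (.inl o))) = b2 (J2 (.inr (.inl o))))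
    (wL1 : ∀ i, (if (s1 i).v then a1 (J1 (.inr (.inr i))) else b1 (J1 (.inr (.inr i)))) =
      X.t1 i)
    (wL2 : ∀ i, (if (s2 i).v then a2 (J2 (.inr (.inr i))) else b2 (J2 (.inr (.inr i)))) =
      1 - (X.t2 i)⁻¹) (Φ : ({o // Or o} × Dir → {o // Or o} × Dir → Prop) → ℂ) :
    ∑ s : ι1 → Bool, (∏ i, if s i then b1 i else a1 i) *
        Φ ((cN J1 Or N1.π H1.inv ne1).rel (clS J1 Or s)) =
      ∑ s : ι2 → Bool, (∏ i, if s i then b2 i else a2 i) *
        Φ ((cN J2 Or N2.π H2.inv ne2).rel (clS J2 Or s)) := by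
  classical
  choose ρ0 hρ0 using pair
  have E1i := X.E1_inj (n2 := n2) (O := O) h1 J1 s1
  have ρρ : ∀ q, ρ0 (ρ0 q) = q := by
    intro q
    apply E1i
    rw [← (hρ0 (ρ0 q)).1, ← (hρ0 q).1, H1.inv]
  set ρ : LP (Ex O n1 n2) :=
    { p := Function.Involutive.toPerm ρ0 ρρ
      d := fun _ => 0
      inv := ρρ
      ne' := fun q hq => by
        have h3 := (hρ0 q).1
        change ρ0 q = q at hq
        rw [hq] at h3
        exact ne1 _ h3
      ant := fun q => by simp } with hρ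
  have ρa : ∀ q, ρ q = ρ0 q := fun _ => rfl
  rw [sum_open J1 Or hab1 (fun s => Φ ((cN J1 Or N1.π H1.inv ne1).rel s)),
    sum_open J2 Or hab2 (fun s => Φ ((cN J2 Or N2.π H2.inv ne2).rel s))]
  refine ONet.exchange (O := {o // ¬ Or o}) X h1 h2 (Equiv.refl _) (Equiv.refl _) s1 s2
    (oline_of X Or J1 H1 H1.inv ne1) (oline_of X Or J2 H2 H2.inv ne2) (trLP (exO Or) ρ) ?_ ?_
    (fun k => hab1 _) (fun k => hab2 _) (fun i => wR1 i) (fun i => wR2 i) (fun o => wO o.1 o.2)
    (fun i => wL1 i) (fun i => wL2 i) Φ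
  · intro x
    obtain ⟨q, rfl⟩ := (exO Or).surjective x
    rw [trLP_apply, Equiv.symm_apply_apply, ← eqE_E1, ← eqE_E1, ρa, ← (hρ0 q).1]
    change eqE J1 Or (N1.π ((eqE J1 Or).symm (eqE J1 Or (X.E1 h1 J1 s1 q)))) = _
    rw [Equiv.symm_apply_apply]
  · intro x
    obtain ⟨q, rfl⟩ := (exO Or).surjective x
    rw [trLP_apply, Equiv.symm_apply_apply, ← eqE_E2, ← eqE_E2, ρa, ← (hρ0 q).2]
    change eqE J2 Or (N2.π ((eqE J2 Or).symm (eqE J2 Or (X.E2 h2 J2 s2 q)))) = _
    rw [Equiv.symm_apply_apply]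

end ex

end Pool.Agent.H93.W
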