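import Pool.Agent.H93.W.PatS
import Pool.Agent.H80.W.PatZ
import Pool.Agent.H64.Win.Real

set_option autoImplicit false

/-!
# The link pattern of a zone is the link pattern of the open network
-/

namespace Pool.Agent.H93.W

open Pool.Agent.H64.Q1 hiding Tl
open LP Pool.Agent.H81.G1 Pool.Agent.H13.Q1 Pool.Agent.Q1 Pool.Agent.H33.Q1
open Pool.Agent.H75.Perc Pool.Agent.H75.TwoArm
open Pool.Agent.H64.Win Pool.Agent.H11.W
open Pool.Agent.H46.Sp (TP lbP tyP crP)
open H80.W (Pat Entry Ex)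
open Finset

/-- the strand which enters the zone `Z` at `c` leaves it at `d` -/
def EPat (Z w : Finset (ℤ × ℤ)) (c d : ℤ × ℤ) : Prop := Entry Z c ∧ lab c ∈ Z ∧ Pat Z w c d

/-- the labels around the zone are random -/
structure ZRd (Z E : Finset (ℤ × ℤ)) : Prop where
  adO : ∀ c, lab c ∈ Z → lab (nxO c) ∈ Z ∨ lab (nxO c) ∈ E
  adC : ∀ c, lab c ∈ Z → lab (nxC c) ∈ Z ∨ lab (nxC c) ∈ E
  pre : ∀ x, lab x ∉ Z → lab (nxC x) ∈ Z → lab x ∈ E

variable {X : Env} {W Z : Finset (ℤ × ℤ)}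

theorem ZRd.ad {E : Finset (ℤ × ℤ)} (h : ZRd Z E) (w : Finset (ℤ × ℤ)) {c : ℤ × ℤ} (hc : lab c ∈ Z) :
    lab (nx w c) ∈ Z ∨ lab (nx w c) ∈ E := by
  unfold nx
  split_ifs
  · exact h.adO c hc
  · exact h.adC c hc

theorem nx_in (hd : Disjoint X.E W) {ω : Finset (ℤ × ℤ)} {c : ℤ × ℤ} (hc : lab c ∈ X.E) :
    nx (ω ∪ W) c = X.f ω c := by
  rw [Env.f_in hc]
  have h1 : lab c ∉ W := fun h => Finset.disjoint_left.1 hd hc h
  unfold nx
  by_cases h : lab c ∈ ω
  · rw [if_pos h, if_pos (mem_union_left _ h)]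
  · rw [if_neg h, if_neg (by rw [mem_union, not_or]; exact ⟨h, h1⟩)]

theorem nx_out (hX : IsEnv X X.E W) {ω : Finset (ℤ × ℤ)} (hω : ω ⊆ X.E) {c : ℤ × ℤ}
    (hc : lab c ∉ X.E) : nx (ω ∪ W) c = X.out c := by
  rw [hX.out]
  have h1 : lab c ∉ ω := fun h => hc (hω h)
  unfold nx
  by_cases h : lab c ∈ W
  · rw [if_pos h, if_pos (mem_union_right _ h)]
  · rw [if_neg h, if_neg (by rw [mem_union, not_or]; exact ⟨h1, h⟩)]

section tiles

variable {ι : Type*} [Fintype ι] [DecidableEq ι] {lb : ι → ℤ × ℤ} {p : ι → Bool}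
  {cr : ι × Dir → ℤ × ℤ}

/-- a wire inside the zone -/
theorem wire_zone (hX : IsEnv X X.E W) (T : Tiles X lb p cr) (hZ : ZRd Z X.E)
    {ω : Finset (ℤ × ℤ)} (hω : ω ⊆ X.E) {y : ι × Dir} (hy : inc p y = false)
    (hy' : lab (cr y) ∈ Z ∨ lab (cr y) ∈ X.E) : ∀ i ≤ wl T y,
      (nx (ω ∪ W))^[i] (cr y) = X.out^[i] (cr y) ∧ (i < wl T y → lab (X.out^[i] (cr y)) ∈ Z) := by
  intro i
  induction i with
  | zero =>
    intro _
    refine ⟨rfl, fun h => ?_⟩
    rcases hy' with h1 | h1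
    · exact h1
    · exact absurd h1 (wl_lt T hy h)
  | succ i ih =>
    intro hi
    obtain ⟨h1, h2⟩ := ih (by omega)
    have h3 := h2 (by omega)
    have h4 := wl_lt T hy (show i < wl T y by omega)
    have h5 : nx (ω ∪ W) (X.out^[i] (cr y)) = X.out (X.out^[i] (cr y)) := nx_out hX hω h4
    rw [Function.iterate_succ_apply', Function.iterate_succ_apply', h1, h5]
    refine ⟨rfl, fun h => ?_⟩
    rcases hZ.ad (ω ∪ W) h3 with h6 | h6
    · rw [h5] at h6; exact h6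
    · rw [h5] at h6
      have := wl_lt T hy h
      rw [Function.iterate_succ_apply'] at this
      exact absurd h6 this

/-- **The strand of the network in the plane.** -/
theorem CA.plane (hX : IsEnv X X.E W) (hd : Disjoint X.E W) (T : Tiles X lb p cr)
    (hZ : ZRd Z X.E) {K : ι → Prop} (hK : ∀ i, K i → lb i ∈ Z) (s : ι → Bool) {z : ι × Dir}
    (hz : inc p z = false) (hz' : lab (cr z) ∈ Z) {x : ι × Dir} (h : CA (wπ T) K s z x) :
    inc p x = true ∧ ∃ n, (nx (osn lb p s ∪ W))^[n] (cr z) = cr x ∧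
      ∀ k < n, lab ((nx (osn lb p s ∪ W))^[k] (cr z)) ∈ Z := by
  have hω : osn lb p s ⊆ X.E := osn_sub T s
  have wire : ∀ y : ι × Dir, inc p y = false → lab (cr y) ∈ Z ∨ lab (cr y) ∈ X.E →
      inc p (wπ T y) = true ∧ (nx (osn lb p s ∪ W))^[wl T y] (cr y) = cr (wπ T y) ∧
        ∀ k < wl T y, lab ((nx (osn lb p s ∪ W))^[k] (cr y)) ∈ Z := by
    intro y h1 h2
    have h3 := wire_zone hX T hZ hω h1 h2
    have h4 : wπ T y = sg T y := by unfold wπ; rw [if_pos h1]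
    refine ⟨by rw [h4]; exact sg_in T h1, ?_, fun k hk => ?_⟩
    · rw [h4, sg_cr T h1]
      exact (h3 _ le_rfl).1
    · rw [(h3 k hk.le).1]
      exact (h3 k hk.le).2 hk
  induction h with
  | start =>
    obtain ⟨h1, h2, h3⟩ := wire z hz (Or.inl hz')
    exact ⟨h1, _, h2, h3⟩
  | @step i d h hi ih =>
    obtain ⟨h1, n, h2, h3⟩ := ih
    have h4 : lab (cr (i, d)) = lb i := lab_cr T h1
    have h5 : nx (osn lb p s ∪ W) (cr (i, d)) = cr (i, d.mate (s i)) := by
      rw [nx_in hd (mem_cr T h1), f_cr T _ h1, stt_osn T s]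
      rfl
    have h6 : lab (cr (i, d)) ∈ Z := by rw [h4]; exact hK i hi
    have h7 : inc p (i, d.mate (s i)) = false := by
      have := inc_par p s (i, d)
      rw [h1] at this
      exact this
    obtain ⟨g1, g2, g3⟩ := wire (i, d.mate (s i)) h7 (by rw [← h5]; exact hZ.ad _ h6)
    refine ⟨g1, wl T (i, d.mate (s i)) + (n + 1), ?_, ?_⟩
    · rw [Function.iterate_add_apply, Function.iterate_succ_apply', h2, h5, g2]
    · intro k hk
      rcases Nat.lt_trichotomy k n with h | h | h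
      · exact h3 k h
      · rw [h, h2]; exact h6
      · obtain ⟨m, rfl⟩ : ∃ m, k = m + (n + 1) := ⟨k - (n + 1), by omega⟩
        rw [Function.iterate_add_apply, Function.iterate_succ_apply', h2, h5]
        exact g3 m (by omega)

end tiles

end Pool.Agent.H93.W
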