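import Pool.Agent.H93.W.PatN

set_option autoImplicit false

/-!
# Strands of closed networks with open tiles; split tiles

`CA π K s z x` : the strand of the end `z` which passes the tiles in `K` (states `s`) arrives at the end `x`.
-/

namespace Pool.Agent.H93.W

open Pool.Agent.H64.Q1 Pool.Agent.H64.Q1.LP Pool.Agent.H81.G1 Pool.Agent.H13.Q1 Pool.Agent.H11.W Finset
open Pool.Agent.H64.Win

/-- the strand of the end `z` -/
inductive CA {ι : Type*} (π : ι × Dir → ι × Dir) (K : ι → Prop) (s : ι → Bool) (z : ι × Dir) :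
    ι × Dir → Prop
  | start : CA π K s z (π z)
  | step {i : ι} {d : Dir} (h : CA π K s z (i, d)) (hK : K i) : CA π K s z (π (i, d.mate (s i)))

section

variable {ι : Type*} {π : ι × Dir → ι × Dir} {K : ι → Prop} {s : ι → Bool} {z : ι × Dir}

/-- **The strand of an open end leads to an open end.** -/
theorem CA.exists_end [Finite ι] (inv : ∀ x, π (π x) = x) (hz : ¬ K z.1) :
    ∃ w, CA π K s z w ∧ ¬ K w.1 := by
  by_contra hcon
  push Not at hcon
  have hfin : Finite {x : ι × Dir // CA π K s z x} := Subtype.finite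
  let f : {x : ι × Dir // CA π K s z x} → {x : ι × Dir // CA π K s z x} :=
    fun x => ⟨π (x.1.1, x.1.2.mate (s x.1.1)), CA.step x.2 (hcon _ x.2)⟩
  have πi : Function.Injective π := fun x y h => by rw [← inv x, h, inv]
  have finj : Function.Injective f := by
    rintro ⟨⟨i, d⟩, h⟩ ⟨⟨i', d'⟩, h'⟩ hxy
    have h1 : π (i, d.mate (s i)) = π (i', d'.mate (s i')) := congrArg Subtype.val hxy
    have h3 := πi h1
    simp only [Prod.mk.injEq] at h3
    obtain ⟨rfl, h4⟩ := h3
    have h5 : d = d' := by rw [← ONet.mate_mate (s i) d, h4, ONet.mate_mate]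
    subst h5
    rfl
  have fsurj := (Finite.injective_iff_surjective (f := f)).1 finj
  obtain ⟨⟨y, hy⟩, h⟩ := fsurj ⟨π z, CA.start⟩
  have h1 : π (y.1, y.2.mate (s y.1)) = π z := congrArg Subtype.val h
  have h2 := πi h1
  have h3 := hcon y hy
  apply hz
  rw [← h2]
  exact h3

end

/-! ### Open networks -/

section

variable {R O ι : Type*} {n : ℕ} (J : R ⊕ O ⊕ Fin n ≃ ι) (Or : O → Prop) [DecidablePred Or]
  (π : ι × Dir → ι × Dir) (inv : ∀ x, π (π x) = x) (ne : ∀ x, π x ≠ x)

/-- the outer end `o` -/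
def oe (o : {o // Or o} × Dir) : ι × Dir := (J (.inr (.inl o.1.1)), o.2)

theorem oe_eq (o : {o // Or o} × Dir) : (eqE J Or).symm (.inr o) = oe J Or o := rfl

theorem oe_inj : Function.Injective (oe J Or) := by
  intro x y h
  rw [← oe_eq, ← oe_eq] at h
  simpa using h

/-- the closed tiles -/
def Cl (i : ι) : Prop := ∀ o : O, Or o → i ≠ J (.inr (.inl o))

theorem not_Cl (o : {o // Or o} × Dir) : ¬ Cl J Or (oe J Or o).1 := fun h => h o.1.1 o.1.2 rfl

theorem open_of {i : ι} (d : Dir) (h : ¬ Cl J Or i) : ∃ o, (i, d) = oe J Or o := by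
  unfold Cl at h
  push Not at h
  obtain ⟨o, h1, rfl⟩ := h
  exact ⟨(⟨o, h1⟩, d), rfl⟩

theorem CA.arr {K : ι → Prop} (hK : ∀ i, K i → Cl J Or i) {s : ι → Bool}
    {o : {o // Or o} × Dir} {x : ι × Dir} (h : CA π K s (oe J Or o) x) :
    (cN J Or π inv ne).Arr (clS J Or s) o (eqE J Or x) := by
  induction h with
  | start => exact ONet.Arr.start
  | @step i d h hi ih =>
    rcases hx : eqE J Or (i, d) with ⟨k, d'⟩ | o'
    · rw [hx] at ih
      have h1 := ONet.Arr.step ih
      have e : (i, d) = (J ((spO Or).symm (.inl k)), d') := by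
        rw [← (eqE J Or).symm_apply_apply (i, d), hx]; rfl
      rw [Prod.mk.injEq] at e
      obtain ⟨rfl, rfl⟩ := e
      exact h1
    · exfalso
      have e : (i, d) = oe J Or o' := by
        rw [← (eqE J Or).symm_apply_apply (i, d), hx]; rfl
      apply not_Cl J Or o'
      rw [← e]
      exact hK i hi

/-- the strand as an arc of the open network -/
theorem CA.rel {K : ι → Prop} (hK : ∀ i, K i → Cl J Or i) {s : ι → Bool}
    {o o' : {o // Or o} × Dir} (h : CA π K s (oe J Or o) (oe J Or o')) :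
    (cN J Or π inv ne).rel (clS J Or s) o o' := by
  have h1 := h.arr J Or π inv ne hK
  rw [← oe_eq, Equiv.apply_symm_apply] at h1
  exact h1

end

/-- an outer end is joined to one outer end -/
theorem rel_det {ι Ω : Type*} (N : ONet ι Ω) {s : ι → Bool} {o o1 o2 : Ω} (h1 : N.rel s o o1)
    (h2 : N.rel s o o2) : o1 = o2 := by
  let f : (ι × Dir) ⊕ Ω → (ι × Dir) ⊕ Ω := fun x => match x with
    | .inl y => N.π (.inl (y.1, y.2.mate (s y.1)))
    | .inr o => .inr o
  have key : ∀ x, N.Arr s o x → ∃ n, f^[n] (N.π (.inr o)) = x := by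
    intro x h
    induction h with
    | start => exact ⟨0, rfl⟩
    | @step i d h ih =>
      obtain ⟨n, hn⟩ := ih
      exact ⟨n + 1, by rw [Function.iterate_succ_apply', hn]⟩
  have fix : ∀ (k : ℕ) (y : Ω), f^[k] (.inr y) = .inr y := by
    intro k y
    induction k with
    | zero => rfl
    | succ k ih => rw [Function.iterate_succ_apply', ih]
  have wl : ∀ (a b : Ω) (n m : ℕ), n ≤ m → f^[n] (N.π (.inr o)) = .inr a →
      f^[m] (N.π (.inr o)) = .inr b → a = b := by
    intro a b n m hnm ha hb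
    obtain ⟨k, rfl⟩ : ∃ k, m = k + n := ⟨m - n, by omega⟩
    rw [Function.iterate_add_apply, ha, fix] at hb
    exact Sum.inr.inj hb
  obtain ⟨n, hn⟩ := key _ h1
  obtain ⟨m, hm⟩ := key _ h2
  rcases le_total n m with h | h
  · exact wl _ _ n m h hn hm
  · exact (wl _ _ m n h hm hn).symm

/-! ### Split tiles -/

section split

variable {ι : Type*} [DecidableEq ι] {M : Finset ι} {μ : ι → Dir}

/-- the closed tiles of the split network -/
def spK (K : ι → Prop) : ι ⊕ ↥M → Prop
  | .inl i => K i
  | .inr _ => True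

theorem CA.split [Fintype ι] {π : ι × Dir → ι × Dir} {K : ι → Prop} (hM : ∀ m ∈ M, K m)
    {σ : ι ⊕ ↥M → Bool} {z x : ι × Dir} (h : CA π K (mer M μ σ) z x) :
    CA (sπ M μ π) (spK K) σ (kp M μ z) (kp M μ x) := by
  have hk : ∀ i d, K i → spK (M := M) K (kp M μ (i, d)).1 := by
    intro i d hi
    by_cases h : (i, d).1 ∈ M ∧ old2 (μ (i, d).1) (i, d).2 = true
    · rw [kp_of M μ h.1 h.2]; trivial
    · rw [kp_of_not M μ h]; exact hi
  have hint : ∀ y, Int M μ y → spK (M := M) K y.1 := by
    rintro ⟨y, d⟩ (⟨i, h1, h2, -⟩ | ⟨k, h1, -⟩)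
    · simp only at h1
      subst h1
      exact hM i h2
    · simp only at h1
      subst h1
      trivial
  induction h with
  | start =>
    rw [← sπ_kp]
    exact CA.start
  | @step i d h hi ih =>
    set N : Net ι := ⟨π, fun _ => 0, z, z⟩ with hN
    obtain ⟨n, hn⟩ := spl_step (s := μ) N σ (i, d)
    have e0 : N.step (mer M μ σ) (i, d) = π (i, d.mate (mer M μ σ i)) := rfl
    rw [e0] at hn
    have key : ∀ k ≤ n, CA (sπ M μ π) (spK K) σ (kp M μ z) (((spl M μ N).step σ)^[k] (kp M μ (i, d))) := by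
      intro k
      induction k with
      | zero => intro _; exact ih
      | succ k ihk =>
        intro hk'
        have h1 := ihk (by omega)
        rw [Function.iterate_succ_apply']
        refine CA.step h1 ?_
        rcases Nat.eq_zero_or_pos k with rfl | hpos
        · exact hk i d hi
        · exact hint _ (hn.int k hpos (by omega))
    have h2 := key n le_rfl
    rw [hn.fin] at h2
    exact h2

end split

end Pool.Agent.H93.W
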