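import Pool.Agent.H93.W.PatX

set_option autoImplicit false

/-!
# The pattern of a zone, strip comparison

`strip_pat` : two states which differ in a strip, every function of the pattern of a zone which contains the
strip has the same weighted sum.
-/

namespace Pool.Agent.H93.W

open Pool.Agent.H64.Q1 hiding Tl
open Pool.Agent.H64.Win
open Pool.Agent.H81.G1 Pool.Agent.Q1 Pool.Agent.H33.Q1
open Pool.Agent.H75.Perc Pool.Agent.H75.TwoArm
open Pool.Agent.H74.R45 hiding Tl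
open Pool.Agent.H46.Sp (TP lbP tyP crP)
open Pool.Agent.H46.Sp.Win (wal)
open Pool.Agent.H11.W (YB Fz)
open Finset

variable {w : ℕ} {a b j : ℤ} {lS rN : Bool}
variable {X1 X2 : Env} {W1 W2 P1 P2 : Finset (ℤ × ℤ)} {lR cL rR cR : Bool}
variable {B C AL AR : ℂ} {A p : ℤ → ℂ} {q1 q2 α1 α2 : ℤ × ℤ → ℂ}

/-- **Weights and wires of two split networks** -/
structure EPw0 {R A O ι1 ι2 : Type*} [DecidableEq A] [Fintype ι1] [DecidableEq ι1] [Fintype ι2]
    [DecidableEq ι2] {n1 n2 : ℕ} (X : Rgw R A n1 n2) (h1 : 0 < n1) (h2 : 0 < n2) {X1 X2 : Env}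
    {lb1 : ι1 → ℤ × ℤ} {lb2 : ι2 → ℤ × ℤ} {P1 : ι1 → Bool} {P2 : ι2 → Bool}
    {cr1 : ι1 × Dir → ℤ × ℤ} {cr2 : ι2 × Dir → ℤ × ℤ}
    (T1 : Tiles X1 lb1 P1 cr1) (T2 : Tiles X2 lb2 P2 cr2) (M1 : Finset ι1) (M2 : Finset ι2)
    (μ1 : ι1 → Dir) (μ2 : ι2 → Dir) (J1 : R ⊕ O ⊕ Fin n1 ≃ ι1 ⊕ ↥M1)
    (J2 : R ⊕ O ⊕ Fin n2 ≃ ι2 ⊕ ↥M2) (s1 : Fin n1 → Dir) (s2 : Fin n2 → Dir)
    (w1 w2 : ℤ × ℤ → ℂ) (a1 b1 : ι1 ⊕ ↥M1 → ℂ) (a2 b2 : ι2 ⊕ ↥M2 → ℂ) : Prop where
  L1 : ∀ x y, LineNet X.g X.er X.p1 (fun i => X.kf (X.f1 i)) J1 s1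
    ⟨sπ M1 μ1 (wπ T1), sτ M1 μ1 (wτ T1), x, y⟩
  L2 : ∀ x y, LineNet X.g X.er X.p2 (fun i => X.kf (X.f2 i)) J2 s2
    ⟨sπ M2 μ2 (wπ T2), sτ M2 μ2 (wτ T2), x, y⟩
  pair : ∀ q, ∃ q', sπ M1 μ1 (wπ T1) (X.E1 h1 J1 s1 q) = X.E1 h1 J1 s1 q' ∧
    sπ M2 μ2 (wπ T2) (X.E2 h2 J2 s2 q) = X.E2 h2 J2 s2 q'
  sw1 : SW M1 μ1 (wA lb1 P1 w1) (wB lb1 P1 w1) a1 b1
  sw2 : SW M2 μ2 (wA lb2 P2 w2) (wB lb2 P2 w2) a2 b2
  wR1 : ∀ i, (if (X.st i).v then a1 (J1 (.inl i)) else b1 (J1 (.inl i))) = X.wt i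
  wR2 : ∀ i, (if (X.st i).v then a2 (J2 (.inl i)) else b2 (J2 (.inl i))) = X.wt i
  wO : ∀ o, b1 (J1 (.inr (.inl o))) = b2 (J2 (.inr (.inl o)))
  wL1 : ∀ i, (if (s1 i).v then a1 (J1 (.inr (.inr i))) else b1 (J1 (.inr (.inr i)))) =
    X.t1 i
  wL2 : ∀ i, (if (s2 i).v then a2 (J2 (.inr (.inr i))) else b2 (J2 (.inr (.inr i)))) =
    1 - (X.t2 i)⁻¹

/-- **The data of the exchange theorem.** -/
theorem epair0 (H : Cfg X1 X2 W1 W2 P1 P2 a b j w lS lR cL rN rR cR) (HC : CwS a b A p B C)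
    (HW : WtW P1 P2 a b j lS lR rN rR A p B C AL AR α1 α2) (h1 : HasW P1 q1 α1) (h2 : HasW P2 q2 α2) :
    EPw0 (RXW H HC) H.n1 H.n2 H.T1 H.T2
      (Mf P1 (mp1 a b j lS lR rN rR)) (Mf P2 (mp2 a b j lS lR rN rR)) (μf P1 (μ1 a))
      (μf P2 (μ2 a)) (J1 H.tab H.hw) (J2 H.tab H.hw) (fun i => d1 w lS i) (fun i => d2 w rN i)
      q1 q2 (A1 a b j lS lR rN rR B C AL AR α1)
      (fun i => 1 - A1 a b j lS lR rN rR B C AL AR α1 i)
      (A2 a b j lS lR rN rR B C AL AR α2)
      (fun i => 1 - A2 a b j lS lR rN rR B C AL AR α2 i) := by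
  have hw0 := H.hw0
  have hw := H.hw
  have hab := H.S.ab
  have hBi : 1 - C = B⁻¹ := by
    have := HC.BC
    field_simp [HC.B0]
    linear_combination this
  have h1B : (1 : ℂ) - B ≠ 0 := sub_ne_zero.2 (Ne.symm HC.B1)
  have hCi : (1 - (1 - B)⁻¹)⁻¹ = C := by
    have h3 : 1 - (1 - B)⁻¹ = -B * (1 - B)⁻¹ := by field_simp; ring
    rw [h3, mul_inv, inv_inv]
    have h4 : C = 1 - B⁻¹ := by rw [← hBi]; ring
    rw [h4]
    have := HC.B0
    field_simp
    ring
  refine ⟨line1 H _ sin_φ0, line2 H _ sin_φ0, ?_, ?_, ?_, ?_, ?_, ?_, ?_, ?_⟩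
  · intro q
    obtain ⟨q', P⟩ := ex_pr H _ sin_φ0 q
    exact ⟨q', P.p1, P.p2⟩
  · -- weights of the first network
    refine ⟨?_, ?_, ?_, ?_⟩
    · intro i; rw [(h1.A i).1, (h1.A i).2]; ring
    · intro i; ring
    · intro i hi
      rw [(h1.A i).1]
      change _ = if _ then _ else _
      rw [if_neg (fun h => hi (mem_Mf.2 h))]
    · intro m hm
      have hm' := mem_Mf.1 hm
      rw [(h1.A m).1, (h1.A m).2]
      have e1 : A1 (P1 := P1) a b j lS lR rN rR B C AL AR
          α1 (.inl m) = if m.1.1 < a then AL else AR := by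
        change (if _ then _ else _) = _
        rw [if_pos hm']
      have e2 : A1 a b j lS lR rN rR B C AL AR α1
          (.inr ⟨m, hm⟩) = if m.1.1 < a then 1 - B else 1 - C := rfl
      rw [e1, e2]
      unfold μf
      rcases mp1_true hm' with ⟨f1, f2, f3⟩ | ⟨f1, f2, f3⟩
      · have hμ : μ1 a m.1 = .W := by unfold μ1; rw [f3]; simp only; rw [if_pos (by omega)]
        rw [hμ, f3, (HW.l1r f1 f2).1]
        simp only [Dir.v, Bool.false_eq_true, if_false]
        rw [if_pos (by omega), if_pos (by omega)]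
        ring
      · have hμ : μ1 a m.1 = .N := by unfold μ1; rw [f3]; simp only; rw [if_neg (by omega)]
        rw [hμ, f3, (HW.r1r f1 f2).1]
        simp only [Dir.v, if_true]
        rw [if_neg (by omega), if_neg (by omega)]
        ring
  · -- weights of the second network
    refine ⟨?_, ?_, ?_, ?_⟩
    · intro i; rw [(h2.A i).1, (h2.A i).2]; ring
    · intro i; ring
    · intro i hi
      rw [(h2.A i).1]
      change _ = if _ then _ else _
      rw [if_neg (fun h => hi (mem_Mf.2 h))]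
    · intro m hm
      have hm' := mem_Mf.1 hm
      rw [(h2.A m).1, (h2.A m).2]
      have e1 : A2 (P2 := P2) a b j lS lR rN rR B C AL AR
          α2 (.inl m) = if m.1.1 < a then AL else AR := by
        change (if _ then _ else _) = _
        rw [if_pos hm']
      have e2 : A2 a b j lS lR rN rR B C AL AR α2
          (.inr ⟨m, hm⟩) = if m.1.1 < a then 1 - C else 1 - B := rfl
      rw [e1, e2]
      unfold μf
      rcases mp2_true hm' with ⟨f1, f2, f3⟩ | ⟨f1, f2, f3⟩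
      · have hμ : μ2 a m.1 = .S := by unfold μ2; rw [f3]; simp only; rw [if_pos (by omega)]
        rw [hμ, f3, (HW.l2r f1 f2).1]
        simp only [Dir.v, if_true]
        rw [if_pos (by omega), if_pos (by omega)]
      · have hμ : μ2 a m.1 = .E := by unfold μ2; rw [f3]; simp only; rw [if_neg (by omega)]
        rw [hμ, f3, (HW.r2r f1 f2).1]
        simp only [Dir.v, Bool.false_eq_true, if_false]
        rw [if_neg (by omega), if_neg (by omega)]
        ring
  · -- the region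
    intro p
    have h1 := p.2.1
    have k := A1_reg H.tab H.hw B C AL AR α1 p
    rw [HW.reg1 _ (by omega) (by omega)] at k
    exact k
  · intro p
    have h1 := p.2.1
    have k := A2_reg H.tab H.hw B C AL AR α2 p
    rw [HW.reg2 _ (by omega) (by omega)] at k
    exact k
  · -- the other tiles
    intro o
    change 1 - A1 a b j lS lR rN rR _ _ AL AR α1 (J1 H.tab H.hw _) =
      1 - A2 a b j lS lR rN rR _ _ AL AR α2 (J2 H.tab H.hw _)
    congr 1
    rw [A1_o, A2_o]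
    obtain ⟨⟨o1, o2⟩, o3⟩ := mem_PO.1 o.2
    by_cases c1 : mp1 a b j lS lR rN rR o.1 = true
    · rw [if_pos c1]
      rcases mp1_true c1 with ⟨f1, f2, f3⟩ | ⟨f1, f2, f3⟩
      · have hn : ¬ mp2 a b j lS lR rN rR o.1 = true := by
          intro hc
          rcases mp2_true hc with ⟨g1, -⟩ | ⟨-, -, g1⟩
          · rw [f1] at g1; exact absurd g1 (by simp)
          · rw [f3, Prod.mk.injEq] at g1; omega
        rw [if_neg hn, f3, (HW.l1r f1 f2).2, if_pos (by simp)]
      · have hn : ¬ mp2 a b j lS lR rN rR o.1 = true := by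
          intro hc
          rcases mp2_true hc with ⟨-, -, g1⟩ | ⟨g1, -⟩
          · rw [f3, Prod.mk.injEq] at g1; omega
          · rw [f1] at g1; exact absurd g1 (by simp)
        rw [if_neg hn, f3, (HW.r1r f1 f2).2, if_neg (by simp only; omega)]
    · rw [if_neg c1]
      by_cases c2 : mp2 a b j lS lR rN rR o.1 = true
      · rw [if_pos c2]
        rcases mp2_true c2 with ⟨f1, f2, f3⟩ | ⟨f1, f2, f3⟩
        · rw [f3, (HW.l2r f1 f2).2, if_pos (by simp)]
        · rw [f3, (HW.r2r f1 f2).2, if_neg (by simp only; omega)]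
      · rw [if_neg c2]
        refine HW.out _ o.2 ?_ ?_ ?_ ?_
        · intro h
          rw [h] at o2 c1
          apply c1
          rw [mp1_l hab, (H.tab.a2.1 o2).1, (H.tab.a2.1 o2).2]; rfl
        · intro h
          rw [h] at o1 c2
          apply c2
          rw [mp2_l hab, (H.tab.a4.1 o1).1, (H.tab.a4.1 o1).2]; rfl
        · intro h
          rw [h] at o2 c1
          apply c1
          rw [mp1_r hab, (H.tab.b2.1 o2).1, (H.tab.b2.1 o2).2]; rfl
        · intro h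
          rw [h] at o1 c2
          apply c2
          rw [mp2_r hab, (H.tab.b4.1 o1).1, (H.tab.b4.1 o1).2]; rfl
  · -- the first line
    intro i
    change (if (d1 w lS i).v then A1 a b j lS lR rN rR _ _ AL AR α1 (J1 H.tab H.hw _) else
      1 - A1 a b j lS lR rN rR _ _ AL AR α1 (J1 H.tab H.hw _)) =
        tW1 B (fun x : ℕ => A (a + x)) lS rN i
    rcases c1 (a := a) (b := b) (j := j) (rN := rN) hw0 i with ⟨e0, e1, e2, e3, e4, e5, e6⟩ |
      ⟨x, ex, e0, e2, e3, e4, e5, e6⟩ | ⟨e0, e1, e2, e3, e4, e5, e6⟩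
    · have et : tW1 B (fun x : ℕ => A (a + x)) lS rN i = 1 - B := by
        unfold tW1
        rw [if_pos (by rw [e0, show bn lS = 1 by rw [e1]; rfl]; exact Nat.zero_lt_one)]
      rw [A1_l _ _ _ _ _ _ _ e2, e3, et, if_pos (show Dir.N.v = true from rfl), mp1_l hab]
      rcases bf lR with hR | hR
      · rw [hR, Bool.and_false, if_neg (by simp)]
        exact HW.l1 e1 hR
      · rw [hR, e1, if_pos (by simp), if_pos (by simp)]
    · have et : tW1 B (fun x : ℕ => A (a + x)) lS rN i = 1 - A (a + x) := by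
        unfold tW1
        rw [if_neg (by omega), if_pos (by omega), e0, Nat.add_sub_cancel_left]
      rw [A1_l _ _ _ _ _ _ _ e2, e3, et, if_neg (by decide), mp1_row (by omega) (by omega),
        if_neg (by simp), HW.row1 _ (by omega) (by omega)]
    · have et : tW1 B (fun x : ℕ => A (a + x)) lS rN i = B⁻¹ := by
        unfold tW1
        rw [if_neg (by omega), if_neg (by omega)]
      rw [A1_l _ _ _ _ _ _ _ e2, e3, et, if_pos (show Dir.S.v = true from rfl), mp1_r hab]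
      rcases bf rR with hR | hR
      · rw [hR, Bool.and_false, if_neg (by simp)]
        rw [HW.r1 e1 hR, hBi]
      · rw [hR, e1, if_pos (by simp), if_neg (by simp only; omega), hBi]
  · -- the second line
    intro i
    change (if (d2 w rN i).v then A2 a b j lS lR rN rR _ _ AL AR α2 (J2 H.tab H.hw _) else
      1 - A2 a b j lS lR rN rR _ _ AL AR α2 (J2 H.tab H.hw _)) =
        1 - (tW2 B (fun x : ℕ => A (a + x)) lS rN i)⁻¹
    rcases c2 (a := a) (b := b) (j := j) (lS := lS) hw0 i with ⟨e0, e1, e2, e3, e4, e5, e6⟩ |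
      ⟨x, ex, e0, e2, e3, e4, e5, e6⟩ | ⟨e0, e1, e2, e3, e4, e5, e6⟩
    · have et : tW2 B (fun x : ℕ => A (a + x)) lS rN i = B⁻¹ := by
        unfold tW2
        rw [if_pos (by rw [e0, show bn (!rN) = 1 by rw [e1]; rfl]; exact Nat.zero_lt_one)]
      rw [A2_l _ _ _ _ _ _ _ e2, e3, et, inv_inv, if_pos (show Dir.S.v = true from rfl), mp2_r hab]
      rcases bf rR with hR | hR
      · rw [hR, Bool.and_false, if_neg (by simp)]
        exact HW.r2 e1 hR
      · rw [hR, e1, if_pos (by simp), if_neg (by simp only; omega)]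
    · have et : tW2 B (fun x : ℕ => A (a + x)) lS rN i = (A (b - 1 - x))⁻¹ := by
        unfold tW2
        rw [if_neg (by omega), if_pos (by omega), e0, Nat.add_sub_cancel_left]
        have e7 : a + ((w - 1 - x : ℕ) : ℤ) = b - 1 - x := by omega
        simp only [e7]
      rw [A2_l _ _ _ _ _ _ _ e2, e3, et, inv_inv, if_neg (by decide), mp2_row (by omega) (by omega),
        if_neg (by simp), HW.row2 _ (by omega) (by omega)]
    · have et : tW2 B (fun x : ℕ => A (a + x)) lS rN i = 1 - (1 - B)⁻¹ := by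
        unfold tW2
        rw [if_neg (by omega), if_neg (by omega)]
      rw [A2_l _ _ _ _ _ _ _ e2, e3, et, hCi, if_pos (show Dir.N.v = true from rfl), mp2_l hab]
      rcases bf lR with hR | hR
      · rw [hR, Bool.and_false, if_neg (by simp)]
        exact HW.l2 e1 hR
      · rw [hR, e1, if_pos (by simp), if_pos (by simp)]

end Pool.Agent.H93.W
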