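import Pool.Agent.H93.W.PatE
import Pool.Agent.H93.W.CompW

set_option autoImplicit false

/-!
# Environments with a random ring around a zone, sums over the states
-/

namespace Pool.Agent.H93.W

open Pool.Agent.H64.Q1 hiding Tl
open LP Pool.Agent.H81.G1 Pool.Agent.H13.Q1 Pool.Agent.Q1 Pool.Agent.H33.Q1
open Pool.Agent.H75.Perc Pool.Agent.H75.TwoArm Pool.Agent.H75.Four Pool.Agent.H69.Q1
open Pool.Agent.H64.Win Pool.Agent.H11.W
open Pool.Agent.H46.Sp (TP lbP tyP crP)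
open H80.W (Pat Entry Ex)
open Finset

/-- **An environment with given random labels and given open labels.** -/
theorem exists_env {E W : Finset (ℤ × ℤ)} (hE : ∀ e ∈ E, (e.1 + e.2) % 2 = 1) (hd : Disjoint E W) :
    ∃ X : Env, IsEnv X E W := by
  obtain ⟨B, hB⟩ := ((E ∪ W).image Prod.fst).exists_le
  have hB' : ∀ e ∈ E ∪ W, e.1 ≤ B := fun e he => hB _ (mem_image_of_mem _ he)
  obtain ⟨N, hN⟩ : ∃ N : ℤ, N = |B| + 1 := ⟨_, rfl⟩
  have hN1 : B + 1 ≤ N := by have := le_abs_self B; omega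
  have hN0 : 1 ≤ N := by have := abs_nonneg B; omega
  have far : ∀ e : ℤ × ℤ, 2 * N - 1 ≤ e.1 → e ∉ E ∪ W := by
    intro e he h
    have := hB' e h
    omega
  have hv : vx (2 * N, 2 * N) = (N, N) := by
    unfold vx
    simp
  have hf : fi (2 * N, 2 * N) = (N, N) := by
    unfold fi
    simp only [Prod.mk.injEq]
    omega
  have ht : ty (2 * N, 2 * N) = 0 := by
    unfold ty
    simp
  refine ⟨Env.plane E W (2 * N, 2 * N) 0 (N, N - 1) hE hd (by rw [ht]; rfl) ?_ ?_ ?_,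
    ⟨rfl, fun _ => rfl, fun _ => rfl⟩⟩
  · intro h
    refine far _ ?_ (mem_union_left _ h)
    unfold plab
    simp
  · rw [hf]
    refine DCo.step ?_ ?_
    · unfold IsUnit4
      simp
    · apply far
      simp only [Prod.mk_add_mk, Prod.mk_sub_mk]
      omega
  · rw [hv]
    intro v hv
    have : v = (N, N) := by
      induction hv with
      | refl => rfl
      | @tail u w _ h ih =>
        exfalso
        obtain ⟨h1, h2⟩ := h
        refine far _ ?_ h2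
        unfold IsUnit4 at h1
        rw [ih] at h1 ⊢
        obtain ⟨w1, w2⟩ := w
        simp only [Prod.mk_sub_mk, Prod.mk.injEq, Prod.mk_add_mk] at h1 ⊢
        omega
    rw [this]
    simp

/-! ### The ring -/

/-- the labels around a zone -/
noncomputable def Rg (Z : Finset (ℤ × ℤ)) : Finset (ℤ × ℤ) :=
  ((Z ×ˢ (Icc (-3 : ℤ) 3 ×ˢ Icc (-3 : ℤ) 3)).image fun x => x.1 + x.2).filter
    fun e => e ∉ Z ∧ (e.1 + e.2) % 2 = 1

theorem mem_Rg {Z : Finset (ℤ × ℤ)} {e : ℤ × ℤ} : e ∈ Rg Z ↔ (∃ z ∈ Z, (-3 ≤ e.1 - z.1 ∧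
    e.1 - z.1 ≤ 3) ∧ -3 ≤ e.2 - z.2 ∧ e.2 - z.2 ≤ 3) ∧ e ∉ Z ∧ (e.1 + e.2) % 2 = 1 := by
  unfold Rg
  rw [mem_filter, mem_image]
  refine and_congr_left fun _ => ⟨?_, ?_⟩
  · rintro ⟨⟨z, d⟩, h, rfl⟩
    simp only [mem_product, mem_Icc] at h
    refine ⟨z, h.1, ?_⟩
    simp only [Prod.fst_add, Prod.snd_add, add_sub_cancel_left]
    exact h.2
  · rintro ⟨z, h1, h2⟩
    refine ⟨(z, e - z), ?_, by simp⟩
    simp only [mem_product, mem_Icc]
    exact ⟨h1, h2⟩

theorem near_O (c : ℤ × ℤ) : (-3 ≤ (lab (nxO c)).1 - (lab c).1 ∧ (lab (nxO c)).1 - (lab c).1 ≤ 3) ∧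
    -3 ≤ (lab (nxO c)).2 - (lab c).2 ∧ (lab (nxO c)).2 - (lab c).2 ≤ 3 := by
  obtain ⟨x, y⟩ := c
  rcases Int.emod_two_eq_zero_or_one x with h | h <;> rcases Int.emod_two_eq_zero_or_one y with h' | h'
  all_goals
    unfold nxO lab
    simp only [h, h', if_true, if_false, one_ne_zero]
    repeat' split_ifs
    all_goals simp only; omega

theorem near_C (c : ℤ × ℤ) : (-3 ≤ (lab (nxC c)).1 - (lab c).1 ∧ (lab (nxC c)).1 - (lab c).1 ≤ 3) ∧
    -3 ≤ (lab (nxC c)).2 - (lab c).2 ∧ (lab (nxC c)).2 - (lab c).2 ≤ 3 := by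
  obtain ⟨x, y⟩ := c
  rcases Int.emod_two_eq_zero_or_one x with h | h <;> rcases Int.emod_two_eq_zero_or_one y with h' | h'
  all_goals
    unfold nxC lab
    simp only [h, h', if_true, if_false, one_ne_zero]
    repeat' split_ifs
    all_goals simp only; omega

theorem zrd_Rg (Z E : Finset (ℤ × ℤ)) (h : Rg Z ⊆ E) : ZRd Z E where
  adO c hc := by
    by_cases h1 : lab (nxO c) ∈ Z
    · exact Or.inl h1
    · exact Or.inr (h (mem_Rg.2 ⟨⟨_, hc, near_O c⟩, h1, odd_lab _⟩))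
  adC c hc := by
    by_cases h1 : lab (nxC c) ∈ Z
    · exact Or.inl h1
    · exact Or.inr (h (mem_Rg.2 ⟨⟨_, hc, near_C c⟩, h1, odd_lab _⟩))
  pre x hx hx' := by
    obtain ⟨⟨h1, h2⟩, h3, h4⟩ := near_C x
    exact h (mem_Rg.2 ⟨⟨_, hx', ⟨by omega, by omega⟩, by omega, by omega⟩, hx, odd_lab _⟩)

theorem EPat_congr {Z w w' : Finset (ℤ × ℤ)} (h : w ∩ Z = w' ∩ Z) : EPat Z w = EPat Z w' := by
  funext c d
  apply propext
  unfold EPat
  rw [H80.W.pat_congr h]

/-! ### Sums -/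

theorem Ec_inter {q : ℤ × ℤ → ℂ} {E Z : Finset (ℤ × ℤ)} {F : Finset (ℤ × ℤ) → ℂ}
    (hF : ∀ w w', w ∩ Z = w' ∩ Z → F w = F w') : Ec q E F = Ec q (E ∩ Z) F := by
  rw [Ec_split q (inter_subset_left (s₁ := E) (s₂ := Z)) F]
  refine Ec_congr fun ω _ => ?_
  rw [Ec_congr (G := fun _ => F ω), Ec_const]
  intro ω' h
  apply hF
  rw [union_inter_distrib_right]
  have : ω' ∩ Z = ∅ := by
    rw [eq_empty_iff_forall_notMem]
    intro e he
    obtain ⟨h1, h2⟩ := mem_inter.1 he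
    obtain ⟨h3, h4⟩ := mem_sdiff.1 (h h1)
    exact h4 (mem_inter.2 ⟨h3, h2⟩)
  rw [this, union_empty]

/-- a sum over the random labels as a sum over the states of the tiles -/
theorem Ec_tiles {ι : Type*} [Fintype ι] [DecidableEq ι] {lb : ι → ℤ × ℤ} {p : ι → Bool}
    {cr : ι × Dir → ℤ × ℤ} {X : Env} (T : Tiles X lb p cr) (q : ℤ × ℤ → ℂ)
    (F : Finset (ℤ × ℤ) → ℂ) : Ec q X.E F =
      ∑ s : ι → Bool, (∏ i, if s i then wB lb p q i else wA lb p q i) * F (osn lb p s) := by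
  unfold Ec
  refine Finset.sum_bij' (i := fun ω _ => stt lb p ω) (j := fun s _ => osn lb p s) ?_ ?_ ?_ ?_ ?_
  · intro ω _; exact mem_univ _
  · intro s _; exact mem_powerset.2 (osn_sub T s)
  · intro ω hω; exact osn_stt T (mem_powerset.1 hω)
  · intro s _; exact stt_osn T s
  · intro ω hω
    have hω := mem_powerset.1 hω
    have hE : X.E = univ.image lb := by
      ext e
      rw [mem_image]
      constructor
      · intro he; obtain ⟨i, hi⟩ := T.surj e he; exact ⟨i, mem_univ _, hi⟩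
      · rintro ⟨i, _, rfl⟩; exact T.mem i
    have hw : wtc q X.E ω = ∏ i, (if stt lb p ω i then wB lb p q i else wA lb p q i) := by
      unfold wtc
      have e1 : ω = X.E.filter (fun e => e ∈ ω) := by
        ext e; rw [mem_filter]; exact ⟨fun h => ⟨hω h, h⟩, fun h => h.2⟩
      have e2 : X.E \ ω = X.E.filter (fun e => ¬ e ∈ ω) := by
        ext e; rw [mem_filter, mem_sdiff]
      have e3 : (∏ e ∈ ω, q e) * ∏ e ∈ X.E \ ω, (1 - q e) =
          ∏ e ∈ X.E, (if e ∈ ω then q e else 1 - q e) := by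
        rw [Finset.prod_ite, ← e2, ← e1]
      rw [e3, hE, Finset.prod_image (fun a _ b _ h => T.inj h)]
      refine Finset.prod_congr rfl fun i _ => ?_
      unfold stt wA wB
      by_cases h : lb i ∈ ω <;> cases hp : p i <;> simp [h]
    rw [hw, osn_stt T hω]

section ne

variable {ι : Type*} [DecidableEq ι] {M : Finset ι} {s : ι → Dir} {π : ι × Dir → ι × Dir}

theorem sπ_ne (h : ∀ x, π x ≠ x) (z : (ι ⊕ ↥M) × Dir) : sπ M s π z ≠ z := by
  rcases end_cases M s z with ⟨x, rfl⟩ | ⟨m, hm, rfl | rfl | rfl | rfl⟩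
  · rw [sπ_kp]; exact fun e => h x (kp_inj M s e)
  · rw [(sπ_int M s _ hm).1]; simp
  · rw [(sπ_int M s _ hm).2.1]; simp
  · rw [(sπ_int M s _ hm).2.2.1]; simp
  · rw [(sπ_int M s _ hm).2.2.2]; simp

end ne

theorem wπ_ne {ι : Type*} [Fintype ι] [DecidableEq ι] {lb : ι → ℤ × ℤ} {p : ι → Bool}
    {cr : ι × Dir → ℤ × ℤ} {X : Env} (T : Tiles X lb p cr) (x : ι × Dir) : wπ T x ≠ x := by
  intro h
  have h1 := inc_wπ T x
  rw [h] at h1
  cases h2 : inc p x <;> rw [h2] at h1 <;> simp at h1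

end Pool.Agent.H93.W
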