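import Pool.Agent.H93.W.VBr2
import Pool.Agent.H20.W.InstD

set_option autoImplicit false

/-!
# The bridge in the canonical box of helper20

`bridge_Z` : the mean with the frozen row is `al8 + be8 * VS`.
-/

namespace Pool.Agent.H93.W

open Pool.Agent.H75.Perc hiding ph kk tau VS
open Pool.Agent.H75.TwoArm Pool.Agent.H69.Q1
open Pool.Agent.Q1 Pool.Agent.H33.Q1
open Pool.Agent.H54.W Pool.Agent.H34.W Pool.Agent.H25.W
open Pool.Agent.H74.R45 (exists_lt)
open Pool.Agent.H85.W (BP ow ctW mem_Wo mem_Wo_in odd_Wo)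
open Pool.Agent.H43.W (al8 be8)
open Pool.Agent.H20.W (Th crz bX1 bX2 bY1 bY2 Zz Ph Wz VS Dz)
open Pool.Agent.H74.W (tau)
open Pool.Agent.H62.W (Phi ZS mem_ZS zone_Phi)
open Finset

section conf

variable {C : CD} {c0 : Bool} {s : ℤ} {τ : ℤ → ℤ}

/-- **The bridge in the canonical box.** -/
theorem bridge_Z (θ : Th C c0) (B : BP C c0) (hX1 : B.X1 = bX1 C B.n) (hX2 : B.X2 = bX2 C B.n c0 B.r)
    (hY1 : B.Y1 = bY1 B.n) (hY2 : B.Y2 = bY2 C B.n) (H : Pos (Dz C B.n c0 B.he B.hn B.r) τ)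
    (ha : (Dz C B.n c0 B.he B.hn B.r).a B.r - 1 ≤ s) (hs : s ≤ B.n * C.W) (a b c : ℂ) :
    V2 (Dz C B.n c0 B.he B.hn B.r) B.r s
      (Pool.Agent.H85.W.Wo θ B (Dz C B.n c0 B.he B.hn B.r) (Dz C B.n c0 B.he B.hn B.r).fill)
      (fun w => io w (Pool.Agent.H85.W.rtW B) (ctW θ B)) τ a b c w6⁻¹ =
      al8 c0 + be8 c0 * VS (Dz C B.n c0 B.he B.hn B.r)
        (Wz (Dz C B.n c0 B.he B.hn B.r) (Zz C B.n c0 (s, B.r))) (Ph C B.n c0 (s, B.r) (PsT θ)) τ a b c
        B.r s := by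
  classical
  have h8 := B.hn
  have a1 := B.r0; have a2 := B.r1
  have hm : Mg B := ⟨by rw [hX1]; unfold bX1; omega, by rw [hY1]; unfold bY1; omega, by
    rw [hY2]; unfold bY2; omega⟩
  have hlo := (Dz C B.n c0 B.he B.hn B.r).hlo B.r a1.le (by change B.r < B.n * C.H; omega)
  change B.n * C.LO - 1 ≤ _ at hlo
  have h0 : B.X1 < s := by
    have := hm.x1
    omega
  have key := bridge_B (τ := τ) (s := s) θ hm H ha hs h0 a b c
  rw [neg_tau] at key
  refine key.trans ?_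
  unfold VS
  refine congrArg (fun z => al8 c0 + be8 c0 * z) (Ec_congr fun ω hω => ?_)
  unfold Ph Phi
  rw [← hX1, ← hX2, ← hY1, ← hY2]
  refine (zone_Phi C B.n c0).congr ?_
  ext e
  rw [mem_inter, mem_inter]
  refine and_congr_left fun he => ?_
  have hZ : e ∈ Zz C B.n c0 (s, B.r) := by
    unfold Zz
    rw [← hX1, ← hX2, ← hY1, ← hY2]
    exact he
  obtain ⟨x, y, rfl⟩ := exists_lt (Pool.Agent.H62.W.odd_ZS he)
  have hb : (ow θ B).Box x y := by
    rw [mem_ZS] at he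
    exact box_iff.2 he.1
  unfold LB Win.WJ
  rw [mem_union, mem_union, mem_union, mem_union]
  refine or_congr_right (or_congr_right ?_)
  unfold Wz
  rw [mem_filter, tt_lt]
  constructor
  · intro h
    have h1 := mem_Wo.1 h
    exact ⟨hZ, h1.1, (mem_Wo_in hb h1.1).1 h⟩
  · rintro ⟨-, h1, h2⟩
    exact (mem_Wo_in hb h1).2 h2

end conf

end Pool.Agent.H93.W
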